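import Mathlib

set_option autoImplicit false

namespace Pool.Agent.Mader

open Relation

variable {V : Type*}

/-- `E` has an acyclic colouring with `k` colours. -/
def Col (E : V → V → Prop) (k : ℕ) : Prop :=
  ∃ f : V → Fin k, ∀ v, ¬ TransGen (fun p q => E p q ∧ f p = f q) v v

/-- Restriction of `E` to `S`. -/
def Res (E : V → V → Prop) (S : Set V) : V → V → Prop := fun p q => E p q ∧ p ∈ S ∧ q ∈ S

variable {E E' : V → V → Prop} {k : ℕ} {S T P Q A B : Set V} {v x : V}

theorem Col.mono (h : Col E k) (hE : ∀ p q, E' p q → E p q) : Col E' k := by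
  obtain ⟨f, hf⟩ := h
  refine ⟨f, fun v hv => hf v ?_⟩
  have hle : (fun p q => E' p q ∧ f p = f q) ≤ (fun p q => E p q ∧ f p = f q) :=
    fun p q h => ⟨hE p q h.1, h.2⟩
  exact TransGen.mono hle v v hv

theorem Col.exists_eq (h : Col E k) (v : V) (c : Fin k) :
    ∃ f : V → Fin k, f v = c ∧ ∀ u, ¬ TransGen (fun p q => E p q ∧ f p = f q) u u := by
  obtain ⟨f, hf⟩ := h
  refine ⟨fun p => Equiv.swap (f v) c (f p), by simp, fun u hu => hf u ?_⟩
  have hle : (fun p q => E p q ∧ (fun p => Equiv.swap (f v) c (f p)) p =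
      (fun p => Equiv.swap (f v) c (f p)) q) ≤ (fun p q => E p q ∧ f p = f q) :=
    fun p q h => ⟨h.1, (Equiv.swap (f v) c).injective h.2⟩
  exact TransGen.mono hle u u hu

theorem mono_const {f : V → Fin k} {M : V → V → Prop} (hM : ∀ p q, M p q → f p = f q)
    {a b : V} (h : TransGen M a b) : f a = f b := by
  induction h with
  | single h => exact hM _ _ h
  | tail _ h ih => exact ih.trans (hM _ _ h)

theorem glue_scc (hE : ∀ p q, E p q → (p ∈ P ∨ p ∈ Q) ∧ (q ∈ P ∨ q ∈ Q))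
    (hd : ∀ p, p ∈ P → p ∉ Q) (hPQ : ∀ p q, p ∈ P → E p q → q ∉ Q)
    (hP : Col (Res E P) k) (hQ : Col (Res E Q) k) : Col E k := by
  classical
  obtain ⟨f, hf⟩ := hP
  obtain ⟨g, hg⟩ := hQ
  let h : V → Fin k := fun p => if p ∈ P then f p else g p
  have hhP : ∀ p, p ∈ P → h p = f p := fun p hp => by simp [h, hp]
  have hhQ : ∀ p, p ∈ Q → h p = g p := fun p hp => by
    have : p ∉ P := fun h' => hd p h' hp
    simp [h, this]
  refine ⟨h, ?_⟩
  have c1 : ∀ u p, u ∈ P → TransGen (fun p q => E p q ∧ h p = h q) u p →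
      p ∈ P ∧ TransGen (fun p q => Res E P p q ∧ f p = f q) u p := by
    intro u p hu hup
    induction hup with
    | @single p hp =>
      have hpP : p ∈ P := by
        rcases (hE u p hp.1).2 with e | e
        · exact e
        · exact absurd e (hPQ u p hu hp.1)
      refine ⟨hpP, TransGen.single ⟨⟨hp.1, hu, hpP⟩, ?_⟩⟩
      rw [← hhP u hu, ← hhP p hpP]; exact hp.2
    | @tail c p _ hp ih =>
      have hpP : p ∈ P := by
        rcases (hE c p hp.1).2 with e | e
        · exact e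
        · exact absurd e (hPQ c p ih.1 hp.1)
      refine ⟨hpP, TransGen.tail ih.2 ⟨⟨hp.1, ih.1, hpP⟩, ?_⟩⟩
      rw [← hhP c ih.1, ← hhP p hpP]; exact hp.2
  have c2 : ∀ u p, u ∈ Q → TransGen (fun p q => E p q ∧ h p = h q) u p →
      p ∈ P ∨ (p ∈ Q ∧ TransGen (fun p q => Res E Q p q ∧ g p = g q) u p) := by
    intro u p hu hup
    induction hup with
    | @single p hp =>
      rcases (hE u p hp.1).2 with e | e
      · exact Or.inl e
      · refine Or.inr ⟨e, TransGen.single ⟨⟨hp.1, hu, e⟩, ?_⟩⟩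
        rw [← hhQ u hu, ← hhQ p e]; exact hp.2
    | @tail c p _ hp ih =>
      rcases ih with hc | ⟨hc, ih⟩
      · left
        rcases (hE c p hp.1).2 with e | e
        · exact e
        · exact absurd e (hPQ c p hc hp.1)
      · rcases (hE c p hp.1).2 with e | e
        · exact Or.inl e
        · refine Or.inr ⟨e, TransGen.tail ih ⟨⟨hp.1, hc, e⟩, ?_⟩⟩
          rw [← hhQ c hc, ← hhQ p e]; exact hp.2
  intro u hu
  have hu0 : u ∈ P ∨ u ∈ Q := by
    obtain ⟨c, hc, _⟩ := TransGen.head'_iff.1 hu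
    exact (hE u c hc.1).1
  rcases hu0 with e | e
  · exact hf u (c1 u u e hu).2
  · rcases c2 u u e hu with e' | e'
    · exact hd u e' e
    · exact hg u e'.2

/-- Gluing colourings along a vertex `v` such that all arcs between `A` and `B` go from `A`
to `B`.  The arcs from `A` to `B` are contracted to arcs from `v` to `B`. -/
theorem glue (hvA : v ∉ A) (hvB : v ∉ B) (hAB : ∀ p, p ∈ A → p ∉ B)
    (hE : ∀ p q, E p q → (p ∈ A ∨ p ∈ B ∨ p = v) ∧ (q ∈ A ∨ q ∈ B ∨ q = v))
    (hBA : ∀ p q, p ∈ B → E p q → q ∉ A) (gate : V → Prop) (f g : V → Fin k) (hfg : f v = g v)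
    (hf : ∀ u, ¬ TransGen (fun p q => (E p q ∧ (p ∈ A ∨ p = v) ∧ (q ∈ A ∨ q = v)) ∧ f p = f q) u u)
    (hg : ∀ u, ¬ TransGen (fun p q => ((E p q ∧ (p ∈ B ∨ p = v) ∧ (q ∈ B ∨ q = v)) ∨
      (p = v ∧ q ∈ B ∧ ∃ a ∈ A, gate a ∧ E a q)) ∧ g p = g q) u u)
    (hgate : ∀ a ∈ A, ¬ gate a → (∃ b ∈ B, E a b) →
      ¬ TransGen (fun p q => (E p q ∧ (p ∈ A ∨ p = v) ∧ (q ∈ A ∨ q = v)) ∧ f p = f q) v a) :
    Col E k := by
  classical
  let h : V → Fin k := fun p => if p ∈ A then f p else g p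
  have hhA : ∀ p, p ∈ A ∨ p = v → h p = f p := by
    intro p hp
    rcases hp with hp | rfl
    · simp [h, hp]
    · simp [h, hvA, hfg]
  have hhB : ∀ p, p ∈ B ∨ p = v → h p = g p := by
    intro p hp
    rcases hp with hp | rfl
    · have : p ∉ A := fun h' => hAB p h' hp
      simp [h, this]
    · simp [h, hvA]
  set MA : V → V → Prop :=
    fun p q => (E p q ∧ (p ∈ A ∨ p = v) ∧ (q ∈ A ∨ q = v)) ∧ f p = f q with hMA
  set MB : V → V → Prop := fun p q => ((E p q ∧ (p ∈ B ∨ p = v) ∧ (q ∈ B ∨ q = v)) ∨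
      (p = v ∧ q ∈ B ∧ ∃ a ∈ A, gate a ∧ E a q)) ∧ g p = g q with hMB
  set M : V → V → Prop := fun p q => E p q ∧ h p = h q with hM
  have mA : ∀ p q, (p ∈ A ∨ p = v) → (q ∈ A ∨ q = v) → M p q → MA p q := by
    intro p q hp hq hpq
    refine ⟨⟨hpq.1, hp, hq⟩, ?_⟩
    rw [← hhA p hp, ← hhA q hq]; exact hpq.2
  have mB : ∀ p q, (p ∈ B ∨ p = v) → (q ∈ B ∨ q = v) → M p q → MB p q := by
    intro p q hp hq hpq
    refine ⟨Or.inl ⟨hpq.1, hp, hq⟩, ?_⟩
    rw [← hhB p hp, ← hhB q hq]; exact hpq.2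
  have c1 : ∀ p, TransGen M v p → (p ∈ A ∧ TransGen MA v p) ∨ (p ∈ B ∧ TransGen MB v p) := by
    intro p hp
    induction hp with
    | @single p hp =>
      rcases (hE v p hp.1).2 with e | e | e
      · exact Or.inl ⟨e, TransGen.single (mA v p (Or.inr rfl) (Or.inl e) hp)⟩
      · exact Or.inr ⟨e, TransGen.single (mB v p (Or.inr rfl) (Or.inl e) hp)⟩
      · subst e
        exact absurd (TransGen.single (mA p p (Or.inr rfl) (Or.inr rfl) hp)) (hf p)
    | @tail c p _ hp ih =>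
      rcases ih with ⟨hc, ih⟩ | ⟨hc, ih⟩
      · rcases (hE c p hp.1).2 with e | e | e
        · exact Or.inl ⟨e, TransGen.tail ih (mA c p (Or.inl hc) (Or.inl e) hp)⟩
        · have hvc : f v = f c := mono_const (fun p q h => h.2) ih
          have hcp : f c = g p := by
            rw [← hhA c (Or.inl hc), ← hhB p (Or.inl e)]; exact hp.2
          by_cases hgc : gate c
          · refine Or.inr ⟨e, TransGen.single ⟨Or.inr ⟨rfl, e, c, hc, hgc, hp.1⟩, ?_⟩⟩
            rw [← hfg, hvc, hcp]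
          · exact absurd ih (hgate c hc hgc ⟨p, e, hp.1⟩)
        · subst e
          exact absurd (TransGen.tail ih (mA c p (Or.inl hc) (Or.inr rfl) hp)) (hf p)
      · rcases (hE c p hp.1).2 with e | e | e
        · exact absurd e (hBA c p hc hp.1)
        · exact Or.inr ⟨e, TransGen.tail ih (mB c p (Or.inl hc) (Or.inl e) hp)⟩
        · subst e
          exact absurd (TransGen.tail ih (mB c p (Or.inl hc) (Or.inr rfl) hp)) (hg p)
  have c2 : ¬ TransGen M v v := by
    intro hv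
    rcases c1 v hv with e | e
    · exact hvA e.1
    · exact hvB e.1
  have c3 : ∀ u p, u ∈ A → TransGen M u p →
      (TransGen M u v ∧ ReflTransGen M v p) ∨ (p ∈ A ∧ TransGen MA u p) ∨ p ∈ B := by
    intro u p hu hp
    induction hp with
    | @single p hp =>
      rcases (hE u p hp.1).2 with e | e | e
      · exact Or.inr (Or.inl ⟨e, TransGen.single (mA u p (Or.inl hu) (Or.inl e) hp)⟩)
      · exact Or.inr (Or.inr e)
      · subst e
        exact Or.inl ⟨TransGen.single hp, ReflTransGen.refl⟩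
    | @tail c p hc0 hp ih =>
      rcases ih with ⟨h1, h2⟩ | ⟨hc, ih⟩ | hc
      · exact Or.inl ⟨h1, h2.tail hp⟩
      · rcases (hE c p hp.1).2 with e | e | e
        · exact Or.inr (Or.inl ⟨e, TransGen.tail ih (mA c p (Or.inl hc) (Or.inl e) hp)⟩)
        · exact Or.inr (Or.inr e)
        · subst e
          exact Or.inl ⟨TransGen.tail hc0 hp, ReflTransGen.refl⟩
      · rcases (hE c p hp.1).2 with e | e | e
        · exact absurd e (hBA c p hc hp.1)
        · exact Or.inr (Or.inr e)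
        · subst e
          exact Or.inl ⟨TransGen.tail hc0 hp, ReflTransGen.refl⟩
  have c4 : ∀ u p, u ∈ B → TransGen M u p →
      (TransGen M u v ∧ ReflTransGen M v p) ∨ (p ∈ B ∧ TransGen MB u p) := by
    intro u p hu hp
    induction hp with
    | @single p hp =>
      rcases (hE u p hp.1).2 with e | e | e
      · exact absurd e (hBA u p hu hp.1)
      · exact Or.inr ⟨e, TransGen.single (mB u p (Or.inl hu) (Or.inl e) hp)⟩
      · subst e
        exact Or.inl ⟨TransGen.single hp, ReflTransGen.refl⟩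
    | @tail c p hc0 hp ih =>
      rcases ih with ⟨h1, h2⟩ | ⟨hc, ih⟩
      · exact Or.inl ⟨h1, h2.tail hp⟩
      · rcases (hE c p hp.1).2 with e | e | e
        · exact absurd e (hBA c p hc hp.1)
        · exact Or.inr ⟨e, TransGen.tail ih (mB c p (Or.inl hc) (Or.inl e) hp)⟩
        · subst e
          exact Or.inl ⟨TransGen.tail hc0 hp, ReflTransGen.refl⟩
  refine ⟨h, ?_⟩
  intro u hu
  have hu0 : u ∈ A ∨ u ∈ B ∨ u = v := by
    obtain ⟨c, hc, _⟩ := TransGen.head'_iff.1 hu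
    exact (hE u c hc.1).1
  rcases hu0 with e | e | e
  · rcases c3 u u e hu with ⟨h1, h2⟩ | ⟨_, h2⟩ | h2
    · exact c2 (TransGen.trans_right h2 h1)
    · exact hf u h2
    · exact hAB u e h2
  · rcases c4 u u e hu with ⟨h1, h2⟩ | ⟨_, h2⟩
    · exact c2 (TransGen.trans_right h2 h1)
    · exact hg u h2
  · subst e
    exact c2 hu

/-- A vertex-critical digraph is strongly connected. -/
theorem strong_of_critical (hE : ∀ p q, E p q → p ∈ S ∧ q ∈ S) (hn : ¬ Col E k)
    (hc : ∀ T, T ⊂ S → Col (Res E T) k) {p q : V} (hp : p ∈ S) (hq : q ∈ S) :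
    ReflTransGen E p q := by
  classical
  by_contra hpq
  apply hn
  set P : Set V := {s | s ∈ S ∧ ReflTransGen E p s} with hPdef
  set Q : Set V := {s | s ∈ S ∧ ¬ ReflTransGen E p s} with hQdef
  have h1 : P ⊂ S := by
    refine ⟨fun s hs => hs.1, fun h => hpq (h hq).2⟩
  have h2 : Q ⊂ S := by
    refine ⟨fun s hs => hs.1, fun h => (h hp).2 ReflTransGen.refl⟩
  refine glue_scc (P := P) (Q := Q) ?_ ?_ ?_ (hc P h1) (hc Q h2)
  · intro a b hab
    obtain ⟨ha, hb⟩ := hE a b hab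
    constructor
    · by_cases h : ReflTransGen E p a
      · exact Or.inl ⟨ha, h⟩
      · exact Or.inr ⟨ha, h⟩
    · by_cases h : ReflTransGen E p b
      · exact Or.inl ⟨hb, h⟩
      · exact Or.inr ⟨hb, h⟩
  · intro a ha ha'
    exact ha'.2 ha.2
  · intro a b ha hab hb
    exact hb.2 (ha.2.tail hab)

/-- Existence of critical subsets. -/
theorem exists_critical [Finite V] (E : V → V → Prop) (S : Set V) (h : ¬ Col (Res E S) k) :
    ∃ T, T ⊆ S ∧ ¬ Col (Res E T) k ∧ ∀ U, U ⊂ T → Col (Res E U) k := by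
  have hfin : ({T : Set V | T ⊆ S ∧ ¬ Col (Res E T) k}).Finite := Set.toFinite _
  obtain ⟨T, hT⟩ := hfin.exists_minimal ⟨S, subset_refl S, h⟩
  refine ⟨T, hT.prop.1, hT.prop.2, ?_⟩
  intro U hU
  by_contra hcon
  exact hU.2 (hT.le_of_le ⟨hU.1.trans hT.prop.1, hcon⟩ hU.1)

end Pool.Agent.Mader
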