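import Mathlib

set_option autoImplicit false

namespace Pool.Agent.Mader

open List Relation

variable {V : Type*}

/-- `l` is the list of interior vertices of a directed path from `a` to `b`, `a ≠ b`. -/
def Pth (r : V → V → Prop) (a : V) (l : List V) (b : V) : Prop :=
  (a :: (l ++ [b])).IsChain r ∧ (a :: (l ++ [b])).Nodup

variable {r s : V → V → Prop} {a b c q x y v w z : V} {l m l₁ l₂ m₁ m₂ : List V}

theorem Pth.mono (h : Pth r a l b) (hrs : ∀ p q, r p q → s p q) : Pth s a l b :=
  ⟨h.1.imp (fun p q hpq => hrs p q hpq), h.2⟩

theorem Pth.ne (h : Pth r a l b) : a ≠ b := by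
  rintro rfl
  have := h.2
  simp at this

theorem Pth.nodup_int (h : Pth r a l b) : l.Nodup := by
  have := h.2
  rw [nodup_cons] at this
  exact (nodup_append.1 this.2).1

theorem Pth.not_mem_left (h : Pth r a l b) : a ∉ l := by
  have := h.2
  simp at this
  tauto

theorem Pth.not_mem_right (h : Pth r a l b) : b ∉ l := by
  have := h.2
  rw [nodup_cons] at this
  intro hb
  exact (nodup_append.1 this.2).2.2 b hb b (by simp) rfl

theorem Pth.single (h : r a b) (hab : a ≠ b) : Pth r a [] b := by
  refine ⟨?_, ?_⟩
  · simpa using h
  · simpa using hab

theorem Pth.split (h : Pth r a (l₁ ++ q :: l₂) b) : Pth r a l₁ q ∧ Pth r q l₂ b := by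
  obtain ⟨hc, hn⟩ := h
  have e : a :: ((l₁ ++ q :: l₂) ++ [b]) = (a :: l₁) ++ q :: (l₂ ++ [b]) := by simp
  rw [e] at hc hn
  rw [isChain_split] at hc
  refine ⟨⟨by simpa using hc.1, ?_⟩, ⟨hc.2, ?_⟩⟩
  · have : (a :: (l₁ ++ [q])) = (a :: l₁) ++ [q] := by simp
    rw [this]
    rw [show (a :: l₁) ++ q :: (l₂ ++ [b]) = ((a :: l₁) ++ [q]) ++ (l₂ ++ [b]) by simp] at hn
    exact (nodup_append.1 hn).1
  · exact (nodup_append.1 hn).2.1

theorem Pth.append (h1 : Pth r a l₁ q) (h2 : Pth r q l₂ b)
    (hd : ∀ z ∈ l₂, z ∉ l₁) (ha : a ∉ l₂) (hab : a ≠ b) (hb : b ∉ l₁) :
    Pth r a (l₁ ++ q :: l₂) b := by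
  have e : a :: ((l₁ ++ q :: l₂) ++ [b]) = (a :: l₁) ++ q :: (l₂ ++ [b]) := by simp
  refine ⟨?_, ?_⟩
  · rw [e, isChain_split]
    exact ⟨by simpa using h1.1, h2.1⟩
  · rw [e, nodup_append]
    have h1n := h1.2
    have h2n := h2.2
    refine ⟨?_, h2n, ?_⟩
    · rw [show a :: (l₁ ++ [q]) = (a :: l₁) ++ [q] by simp] at h1n
      exact (nodup_append.1 h1n).1
    · intro z hz t ht
      rintro rfl
      simp only [mem_cons, mem_append, not_mem_nil, or_false] at hz ht
      have hq1 := h1.not_mem_right
      have hne := h1.ne
      rcases hz with rfl | hz
      · rcases ht with rfl | ht | rfl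
        · exact hne rfl
        · exact ha ht
        · exact hab rfl
      · rcases ht with rfl | ht | rfl
        · exact hq1 hz
        · exact hd z ht hz
        · exact hb hz

theorem Pth.snoc (h1 : Pth r a l q) (h2 : r q b) (hab : a ≠ b) (hqb : q ≠ b) (hb : b ∉ l) :
    Pth r a (l ++ [q]) b := by
  have := h1.append (Pth.single h2 hqb) (by simp) (by simp) hab hb
  simpa using this

theorem Pth.cons (h1 : r a q) (h2 : Pth r q l b) (haq : a ≠ q) (hab : a ≠ b) (ha : a ∉ l) :
    Pth r a (q :: l) b := by
  have := (Pth.single h1 haq).append h2 (by simp) ha hab (by simp)
  simpa using this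

theorem Pth.reflTransGen (h : Pth r a l b) : ReflTransGen r a b := by
  induction l generalizing a with
  | nil =>
    have := h.1
    simp at this
    exact ReflTransGen.single this
  | cons c l ih =>
    have h' := Pth.split (l₁ := []) (q := c) (l₂ := l) (by simpa using h)
    have h1 : r a c := by
      have := h'.1.1
      simpa using this
    exact ReflTransGen.head h1 (ih h'.2)

theorem exists_pth (h : ReflTransGen r a b) : a = b ∨ ∃ l, Pth r a l b := by
  induction h using ReflTransGen.head_induction_on with
  | refl => exact Or.inl rfl
  | @head p c hpc hcb ih =>
    classical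
    by_cases hpb : p = b
    · exact Or.inl hpb
    right
    by_cases hpc' : p = c
    · subst hpc'
      rcases ih with e | e
      · exact absurd e hpb
      · exact e
    rcases ih with rfl | ⟨l, hl⟩
    · exact ⟨[], Pth.single hpc hpc'⟩
    · by_cases hal : p ∈ l
      · obtain ⟨l₁, l₂, rfl⟩ := List.append_of_mem hal
        exact ⟨l₂, hl.split.2⟩
      · exact ⟨c :: l, Pth.cons hpc hl hpc' hpb hal⟩

theorem exists_pth' (h : ReflTransGen r a b) (hab : a ≠ b) : ∃ l, Pth r a l b := by
  rcases exists_pth h with e | e
  · exact absurd e hab
  · exact e

/-- First element satisfying `P`. -/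
theorem first_split (P : V → Prop) (L : List V) (h : ∃ z ∈ L, P z) :
    ∃ l₁ q l₂, L = l₁ ++ q :: l₂ ∧ P q ∧ ∀ z ∈ l₁, ¬ P z := by
  induction L with
  | nil => simp at h
  | cons c L ih =>
    by_cases hc : P c
    · exact ⟨[], c, L, by simp, hc, by simp⟩
    · have : ∃ z ∈ L, P z := by
        obtain ⟨z, hz, hp⟩ := h
        rcases mem_cons.1 hz with rfl | hz
        · exact absurd hp hc
        · exact ⟨z, hz, hp⟩
      obtain ⟨l₁, q, l₂, rfl, hq, hl⟩ := ih this
      refine ⟨c :: l₁, q, l₂, by simp, hq, ?_⟩
      intro z hz
      rcases mem_cons.1 hz with rfl | hz
      · exact hc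
      · exact hl z hz

/-- Last element satisfying `P`. -/
theorem last_split (P : V → Prop) (L : List V) (h : ∃ z ∈ L, P z) :
    ∃ l₁ q l₂, L = l₁ ++ q :: l₂ ∧ P q ∧ ∀ z ∈ l₂, ¬ P z := by
  obtain ⟨l₁, q, l₂, e, hq, hl⟩ := first_split P L.reverse (by simpa using h)
  refine ⟨l₂.reverse, q, l₁.reverse, ?_, hq, by simpa using hl⟩
  have := congrArg List.reverse e
  simpa using this

/-- The vertices of a path after the first one lie in every set that contains all arc heads. -/
theorem Pth.forall_int {P : V → Prop} (h : Pth r a l b) (hP : ∀ p q, r p q → P q) :
    ∀ z ∈ l, P z := by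
  intro z hz
  obtain ⟨l₁, l₂, rfl⟩ := List.append_of_mem hz
  have := h.split.1.1
  rcases List.eq_nil_or_concat l₁ with rfl | ⟨l', c, rfl⟩
  · simp at this; exact hP _ _ this
  · simp at this
    exact hP _ _ this.2

/-- The interior vertices of a path lie in every set that contains all arc tails. -/
theorem Pth.forall_int_tail {P : V → Prop} (h : Pth r a l b) (hP : ∀ p q, r p q → P p) :
    ∀ z ∈ l, P z := by
  intro z hz
  obtain ⟨l₁, l₂, rfl⟩ := List.append_of_mem hz
  have := h.split.2.1
  cases l₂ with
  | nil => simp at this; exact hP _ _ this
  | cons c l₂ => simp at this; exact hP _ _ this.1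

/-- A path that starts in a set closed under out-neighbours except for its end `b`. -/
theorem Pth.forall_int_of_closed {P : V → Prop} (h : Pth r a l b) (ha : P a)
    (hP : ∀ p q, P p → r p q → P q ∨ q = b) : ∀ z ∈ l, P z := by
  induction l generalizing a with
  | nil => simp
  | cons c l ih =>
    have h' := Pth.split (l₁ := []) (q := c) (l₂ := l) (by simpa using h)
    have h1 : r a c := by
      have := h'.1.1
      simpa using this
    have hc : P c := by
      rcases hP a c ha h1 with e | e
      · exact e
      · subst e
        exact absurd (mem_cons_self) h.not_mem_right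
    intro z hz
    rcases mem_cons.1 hz with rfl | hz
    · exact hc
    · exact ih h'.2 hc z hz

/-- A path that ends in a set closed under in-neighbours except for its start `a`. -/
theorem Pth.forall_int_of_coclosed {P : V → Prop} (h : Pth r a l b) (hb : P b)
    (hP : ∀ p q, P q → r p q → P p ∨ p = a) : ∀ z ∈ l, P z := by
  induction l using List.reverseRecOn generalizing b with
  | nil => simp
  | append_singleton l c ih =>
    have h' := Pth.split (l₁ := l) (q := c) (l₂ := []) (by simpa using h)
    have h1 : r c b := by
      have := h'.2.1
      simpa using this
    have hc : P c := by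
      rcases hP c b hb h1 with e | e
      · exact e
      · subst e
        exact absurd (by simp) h.not_mem_left
    intro z hz
    rcases mem_append.1 hz with hz | hz
    · exact ih h'.1 hc z hz
    · simp at hz; rw [hz]; exact hc

/-- Fan lemma: two paths from `v`, one to `x` and one to `a`, meeting only in `v`. -/
theorem fan (hvx : v ≠ x)
    (h1 : ∀ z, z ≠ v → z ≠ x → ReflTransGen (fun p q => r p q ∧ p ≠ z ∧ q ≠ z) v x)
    (h2 : ReflTransGen (fun p q => r p q ∧ p ≠ x ∧ q ≠ x) v a) (hav : a ≠ v) :
    ∃ l₁ l₂, Pth r v l₁ x ∧ Pth r v l₂ a ∧ a ∉ l₁ ∧ x ∉ l₂ ∧ (∀ z ∈ l₁, z ∉ l₂) ∧ a ≠ x := by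
  induction h2 with
  | refl => exact absurd rfl hav
  | tail hvc hca ih =>
    rename_i c a
    obtain ⟨hca, hcx, hax⟩ := hca
    have hr : ∀ z : V, ∀ p q, (r p q ∧ p ≠ z ∧ q ≠ z) → r p q := fun z p q h => h.1
    by_cases hcv : c = v
    · subst hcv
      obtain ⟨l, hl⟩ := exists_pth' (h1 a hav hax) hvx
      refine ⟨l, [], hl.mono (hr a), Pth.single hca hav.symm, ?_, by simp, by simp, hax⟩
      intro hal
      exact hl.forall_int (P := fun q => q ≠ a) (fun p q h => h.2.2) a hal rfl
    · obtain ⟨l₁, l₂, p1, p2, hc1, hx2, hd, _⟩ := ih hcv
      by_cases hac : a = c
      · subst hac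
        exact ⟨l₁, l₂, p1, p2, hc1, hx2, hd, hax⟩
      by_cases ha2 : a ∈ l₂
      · obtain ⟨m₁, m₂, rfl⟩ := List.append_of_mem ha2
        refine ⟨l₁, m₁, p1, p2.split.1, ?_, ?_, ?_, hax⟩
        · intro h; exact hd a h (by simp)
        · intro h; exact hx2 (by simp [h])
        · intro z hz h; exact hd z hz (by simp [h])
      by_cases ha1 : a ∈ l₁
      · obtain ⟨m₁, m₂, rfl⟩ := List.append_of_mem ha1
        obtain ⟨s, hs⟩ := exists_pth' (h1 a hav hax) hvx
        have has : a ∉ s := by
          intro hal
          exact hs.forall_int (P := fun q => q ≠ a) (fun p q h => h.2.2) a hal rfl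
        have hs' : Pth r v s x := hs.mono (hr a)
        have hx1 := p1.not_mem_right
        have hv1 := p1.not_mem_left
        have hv2 := p2.not_mem_left
        have hn1 := p1.nodup_int
        have hn2 := p2.nodup_int
        -- last vertex of `s` on `m₁ ∪ l₂ ∪ {c}`
        by_cases hex : ∃ z ∈ s, z ∈ m₁ ∨ z ∈ l₂ ∨ z = c
        · obtain ⟨s₁, q, s₂, rfl, hq, hs2⟩ :=
            last_split (fun z => z ∈ m₁ ∨ z ∈ l₂ ∨ z = c) s hex
          have hqx := hs'.split.2
          have hvs := hs'.not_mem_left
          have hxs := hs'.not_mem_right
          have hvs2 : v ∉ s₂ := fun h => hvs (by simp [h])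
          have has2 : a ∉ s₂ := fun h => has (by simp [h])
          rcases hq with hq | hq
          · -- `q ∈ m₁`
            obtain ⟨n₁, n₂, rfl⟩ := List.append_of_mem hq
            have hvq : Pth r v n₁ q := by
              have : Pth r v (n₁ ++ q :: (n₂ ++ a :: m₂)) x := by simpa using p1
              exact this.split.1
            refine ⟨n₁ ++ q :: s₂, l₂ ++ [c], ?_, ?_, ?_, ?_, ?_, hax⟩
            · refine hvq.append hqx ?_ hvs2 hvx ?_
              · intro z hz h
                exact hs2 z hz (Or.inl (by simp [h]))
              · intro h; exact hx1 (by simp [h])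
            · exact p2.snoc hca (Ne.symm hav) (Ne.symm hac) ha2
            · intro h
              simp only [mem_append, mem_cons] at h
              rcases h with h | h | h
              · have := nodup_append.1 hn1
                exact this.2.2 a (by simp [h]) a (by simp) rfl
              · have := nodup_append.1 hn1
                exact this.2.2 q (by simp) a (by simp) h.symm
              · exact has2 h
            · intro h
              simp only [mem_append, mem_cons, not_mem_nil, or_false] at h
              rcases h with h | h
              · exact hx2 h
              · exact hcx h.symm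
            · intro z hz h
              simp only [mem_append, mem_cons, not_mem_nil, or_false] at h hz
              rcases hz with hz | hz | hz
              · rcases h with h | h
                · exact hd z (by simp [hz]) h
                · subst h; exact hc1 (by simp [hz])
              · subst hz
                rcases h with h | h
                · exact hd z (by simp) h
                · subst h; exact hc1 (by simp)
              · exact hs2 z hz (Or.inr h)
          · -- `q ∈ l₂ ∪ {c}`
            have hq' : q ∈ l₂ ++ [c] := by simpa using hq
            obtain ⟨n₁, n₂, hn⟩ := List.append_of_mem hq'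
            have hvq : Pth r v n₁ q := by
              rcases hq with hq | hq
              · obtain ⟨k₁, k₂, hk⟩ := List.append_of_mem hq
                have hk1 : n₁ = k₁ := by
                  have hnd : (l₂ ++ [c]).Nodup := by
                    have := p2.2
                    rw [nodup_cons] at this
                    exact this.2
                  have e1 : n₁ ++ q :: n₂ = k₁ ++ q :: (k₂ ++ [c]) := by
                    rw [← hn, hk]; simp
                  have hq1 : q ∉ n₁ := by
                    rw [hn] at hnd
                    intro h
                    exact (nodup_append.1 hnd).2.2 q h q (by simp) rfl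
                  have hq2 : q ∉ k₁ := by
                    rw [hk] at hnd
                    rw [append_assoc] at hnd
                    intro h
                    exact (nodup_append.1 hnd).2.2 q h q (by simp) rfl
                  have key : ∀ (x y : List V) (s t : List V), q ∉ x → q ∉ y →
                      x ++ q :: s = y ++ q :: t → x = y := by
                    intro x
                    induction x with
                    | nil =>
                      intro y s t _ hy e
                      cases y with
                      | nil => rfl
                      | cons c y => simp at e; exact absurd e.1 (by intro h; exact hy (by simp [h]))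
                    | cons c x ih =>
                      intro y s t hx hy e
                      cases y with
                      | nil => simp at e; exact absurd e.1 (by intro h; exact hx (by simp [h]))
                      | cons d y =>
                        simp at e
                        rw [e.1, ih y s t (by simp at hx; exact hx.2) (by simp at hy; exact hy.2) e.2]
                  exact key _ _ _ _ hq1 hq2 e1
                subst hk1
                rw [hk] at p2
                exact p2.split.1
              · subst hq
                have hn2' : n₁ = l₂ := by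
                  have hnd : (l₂ ++ [q]).Nodup := by
                    have := p2.2
                    rw [nodup_cons] at this
                    exact this.2
                  rcases List.eq_nil_or_concat n₂ with rfl | ⟨k, t, rfl⟩
                  · have := List.append_inj_left' hn (by simp)
                    exact this.symm
                  · exfalso
                    have e : l₂ ++ [q] = (n₁ ++ q :: k) ++ [t] := by rw [hn]; simp
                    have e1 : l₂ = n₁ ++ q :: k := List.append_inj_left' e (by simp)
                    exact p2.not_mem_right (by rw [e1]; simp)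
                subst hn2'
                exact p2
            have hmem : ∀ z, z ∈ n₁ ∨ z = q → z ∈ l₂ ∨ z = c := by
              intro z hz
              have : z ∈ l₂ ++ [c] := by
                rw [hn]; simp; tauto
              simpa using this
            refine ⟨n₁ ++ q :: s₂, m₁, ?_, p1.split.1, ?_, ?_, ?_, hax⟩
            · refine hvq.append hqx ?_ hvs2 hvx ?_
              · intro z hz h
                exact hs2 z hz (Or.inr (hmem z (Or.inl h)))
              · intro h
                rcases hmem x (Or.inl h) with h | h
                · exact hx2 h
                · exact hcx h.symm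
            · intro h
              simp only [mem_append, mem_cons] at h
              rcases h with h | h | h
              · rcases hmem a (Or.inl h) with h | h
                · exact ha2 h
                · exact hac h
              · rcases hmem a (Or.inr h) with h | h
                · exact ha2 h
                · exact hac h
              · exact has2 h
            · intro h; exact hx1 (by simp [h])
            · intro z hz h
              simp only [mem_append, mem_cons] at hz
              have hz1 : z ∈ m₁ ++ a :: m₂ := by simp [h]
              rcases hz with hz | hz | hz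
              · rcases hmem z (Or.inl hz) with h' | h'
                · exact hd z hz1 h'
                · subst h'; exact hc1 hz1
              · rcases hmem z (Or.inr hz) with h' | h'
                · exact hd z hz1 h'
                · subst h'; exact hc1 hz1
              · exact hs2 z hz (Or.inl h)
        · push Not at hex
          refine ⟨s, m₁, hs', p1.split.1, has, ?_, ?_, hax⟩
          · intro h; exact hx1 (by simp [h])
          · intro z hz h; exact (hex z hz).1 h
      · refine ⟨l₁, l₂ ++ [c], p1, p2.snoc hca (Ne.symm hav) (Ne.symm hac) ha2, ha1, ?_, ?_, hax⟩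
        · intro h
          simp only [mem_append, mem_cons, not_mem_nil, or_false] at h
          rcases h with h | h
          · exact hx2 h
          · exact hcx h.symm
        · intro z hz h
          simp only [mem_append, mem_cons, not_mem_nil, or_false] at h
          rcases h with h | h
          · exact hd z hz h
          · subst h; exact hc1 hz

end Pool.Agent.Mader
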