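import Mathlib

set_option autoImplicit false

namespace Pool.Agent.Mader

open List Relation

variable {V : Type*}

/-- `a`, `b` are consecutive entries of `L`. -/
def Nxt (L : List V) (a b : V) : Prop := ∃ l₁ l₂, L = l₁ ++ a :: b :: l₂

theorem isChain_iff_nxt {R : V → V → Prop} {L : List V} :
    L.IsChain R ↔ ∀ a b, Nxt L a b → R a b := by
  rw [isChain_iff_forall_rel_of_append_cons_cons]
  constructor
  · rintro h a b ⟨l₁, l₂, e⟩
    exact h e
  · intro h a b l₁ l₂ e
    exact h a b ⟨l₁, l₂, e⟩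

theorem Nxt.left_mem {L : List V} {a b : V} (h : Nxt L a b) : a ∈ L := by
  obtain ⟨l₁, l₂, rfl⟩ := h
  simp

theorem Nxt.right_mem {L : List V} {a b : V} (h : Nxt L a b) : b ∈ L := by
  obtain ⟨l₁, l₂, rfl⟩ := h
  simp

theorem Nxt.unique {L : List V} {a b c : V} (hL : L.Nodup) (h : Nxt L a b) (h' : Nxt L a c) :
    b = c := by
  obtain ⟨l₁, l₂, rfl⟩ := h
  obtain ⟨m₁, m₂, e⟩ := h'
  have h1 : l₁ = m₁ := by
    have ha : a ∉ l₁ := by
      intro h
      rw [nodup_append] at hL
      exact hL.2.2 a h a (by simp) rfl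
    have ha' : a ∉ m₁ := by
      rw [e] at hL
      intro h
      rw [nodup_append] at hL
      exact hL.2.2 a h a (by simp) rfl
    have key : ∀ (x y : List V) (s t : List V), a ∉ x → a ∉ y → x ++ a :: s = y ++ a :: t → x = y := by
      intro x
      induction x with
      | nil =>
        intro y s t _ hy e
        cases y with
        | nil => rfl
        | cons c y => simp at e; exact absurd e.1 (by intro h; exact hy (by simp [h]))
      | cons c x ih =>
        intro y s t hx hy e
        cases y with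
        | nil => simp at e; exact absurd e.1 (by intro h; exact hx (by simp [h]))
        | cons d y =>
          simp at e
          rw [e.1, ih y s t (by simp at hx; exact hx.2) (by simp at hy; exact hy.2) e.2]
    exact key _ _ _ _ ha ha' e
  subst h1
  simp at e
  exact e.1

theorem Nxt.ne {L : List V} {a b : V} (hL : L.Nodup) (h : Nxt L a b) : a ≠ b := by
  obtain ⟨l₁, l₂, rfl⟩ := h
  intro hab
  subst hab
  simp [nodup_append] at hL

theorem Nxt.ne_last {L : List V} {a b z : V} (hL : L.Nodup) (hz : L.getLast? = some z)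
    (h : Nxt L a b) : a ≠ z := by
  obtain ⟨l₁, l₂, rfl⟩ := h
  rintro rfl
  have h1 : a ∈ b :: l₂ := by
    rw [show l₁ ++ a :: b :: l₂ = (l₁ ++ [a]) ++ (b :: l₂) by simp,
      getLast?_append_of_ne_nil _ (by simp)] at hz
    exact mem_of_getLast? hz
  rw [nodup_append] at hL
  have := hL.2.1
  rw [nodup_cons] at this
  exact this.1 h1

theorem Nxt.ne_head {L : List V} {a b z : V} (hL : L.Nodup) (hz : L.head? = some z)
    (h : Nxt L a b) : b ≠ z := by
  obtain ⟨l₁, l₂, rfl⟩ := h
  rintro rfl
  have h1 : b ∈ l₁ ++ [a] := by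
    rw [show l₁ ++ a :: b :: l₂ = (l₁ ++ [a]) ++ (b :: l₂) by simp,
      head?_append_of_ne_nil _ (by simp)] at hz
    exact mem_of_head? hz
  rw [show l₁ ++ a :: b :: l₂ = (l₁ ++ [a]) ++ (b :: l₂) by simp, nodup_append] at hL
  exact hL.2.2 b h1 b (by simp) rfl

/-- A subdivision of the bioriented triangle: branch vertices `β 0, β 1, β 2` and, for
`i ≠ j`, the vertex list `L i j` of a directed path from `β i` to `β j`. -/
structure IsK3 (E : V → V → Prop) (S : Set V) (β : Fin 3 → V) (L : Fin 3 → Fin 3 → List V) :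
    Prop where
  inj : Function.Injective β
  chain : ∀ i j, i ≠ j → (L i j).IsChain E
  nodup : ∀ i j, i ≠ j → (L i j).Nodup
  head : ∀ i j, i ≠ j → (L i j).head? = some (β i)
  last : ∀ i j, i ≠ j → (L i j).getLast? = some (β j)
  br : ∀ i j k, i ≠ j → β k ∈ L i j → k = i ∨ k = j
  disj : ∀ i j k l v, i ≠ j → k ≠ l → (i, j) ≠ (k, l) → v ∈ L i j → v ∈ L k l → ∃ m, v = β m
  mem : ∀ i j, i ≠ j → ∀ v ∈ L i j, v ∈ S

/-- The relation `E` has a subdivision of the bioriented triangle with all vertices in `S`. -/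
def HasK3 (E : V → V → Prop) (S : Set V) : Prop := ∃ β L, IsK3 E S β L

variable {E E' : V → V → Prop} {S S' : Set V} {β : Fin 3 → V} {L : Fin 3 → Fin 3 → List V}

theorem IsK3.imp (h : IsK3 E S β L)
    (hE : ∀ i j, i ≠ j → ∀ a b, Nxt (L i j) a b → E a b → E' a b) (hS : S ⊆ S') :
    IsK3 E' S' β L where
  inj := h.inj
  chain i j hij := by
    rw [isChain_iff_nxt]
    intro a b hab
    exact hE i j hij a b hab (isChain_iff_nxt.1 (h.chain i j hij) a b hab)
  nodup := h.nodup
  head := h.head
  last := h.last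
  br := h.br
  disj := h.disj
  mem i j hij v hv := hS (h.mem i j hij v hv)

theorem HasK3.mono (h : HasK3 E S) (hE : ∀ a b, a ∈ S → b ∈ S → a ≠ b → E a b → E' a b)
    (hS : S ⊆ S') : HasK3 E' S' := by
  obtain ⟨β, L, h⟩ := h
  exact ⟨β, L, h.imp (fun i j hij a b hab => hE a b (h.mem i j hij a hab.left_mem)
    (h.mem i j hij b hab.right_mem) (hab.ne (h.nodup i j hij))) hS⟩

/-- Two different paths of a subdivision with a common arc tail `u` start in `u`. -/
theorem IsK3.tail_shared (h : IsK3 E S β L) {i j k l : Fin 3} (hij : i ≠ j) (hkl : k ≠ l)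
    {u b c : V} (h1 : Nxt (L i j) u b) (h2 : Nxt (L k l) u c) (hne : (i, j) ≠ (k, l)) :
    u = β i ∧ i = k := by
  obtain ⟨m, rfl⟩ := h.disj i j k l u hij hkl hne h1.left_mem h2.left_mem
  have hm1 : m = i := by
    rcases h.br i j m hij h1.left_mem with e | e
    · exact e
    · subst e
      exact absurd rfl (h1.ne_last (h.nodup i m hij) (h.last i m hij))
  have hm2 : m = k := by
    rcases h.br k l m hkl h2.left_mem with e | e
    · exact e
    · subst e
      exact absurd rfl (h2.ne_last (h.nodup k m hkl) (h.last k m hkl))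
  subst hm1
  exact ⟨rfl, hm2⟩

/-- An arc lies on only one path of the subdivision. -/
theorem IsK3.arc_shared (h : IsK3 E S β L) {i j k l : Fin 3} (hij : i ≠ j) (hkl : k ≠ l)
    {u w : V} (h1 : Nxt (L i j) u w) (h2 : Nxt (L k l) u w) : (i, j) = (k, l) := by
  by_contra hne
  obtain ⟨hu, hik⟩ := h.tail_shared hij hkl h1 h2 hne
  obtain ⟨m, rfl⟩ := h.disj i j k l w hij hkl hne h1.right_mem h2.right_mem
  have hm1 : m = j := by
    rcases h.br i j m hij h1.right_mem with e | e
    · subst e
      exact absurd rfl (h1.ne_head (h.nodup m j hij) (h.head m j hij))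
    · exact e
  have hm2 : m = l := by
    rcases h.br k l m hkl h2.right_mem with e | e
    · subst e
      exact absurd rfl (h2.ne_head (h.nodup m l hkl) (h.head m l hkl))
    · exact e
  exact hne (by rw [← hm1, ← hm2, hik])

theorem fin3_cases : ∀ m j : Fin 3, m ≠ j → j = m + 1 ∨ j = m + 2 := by decide

/-- Every vertex is the tail of at most two arcs of a subdivision. -/
theorem IsK3.out_two (h : IsK3 E S β L) (v : V) :
    ∃ b₁ b₂, IsK3 (fun p q => E p q ∧ (p = v → q = b₁ ∨ q = b₂)) S β L := by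
  by_cases hv : ∃ m, v = β m
  · obtain ⟨m, rfl⟩ := hv
    have key : ∀ j, j ≠ m → ∃ b, ∀ q, Nxt (L m j) (β m) q → q = b := by
      intro j hj
      by_cases hb : ∃ b, Nxt (L m j) (β m) b
      · obtain ⟨b, hb⟩ := hb
        exact ⟨b, fun q hq => hq.unique (h.nodup m j hj.symm) hb⟩
      · exact ⟨β m, fun q hq => absurd ⟨q, hq⟩ hb⟩
    have h1 : m + 1 ≠ m := by fin_cases m <;> decide
    have h2 : m + 2 ≠ m := by fin_cases m <;> decide
    obtain ⟨b₁, hb₁⟩ := key (m + 1) h1
    obtain ⟨b₂, hb₂⟩ := key (m + 2) h2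
    refine ⟨b₁, b₂, h.imp ?_ (subset_refl _)⟩
    intro i j hij a b hab hE
    refine ⟨hE, ?_⟩
    rintro rfl
    have hi : m = i := by
      rcases h.br i j m hij hab.left_mem with e | e
      · exact e
      · subst e
        exact absurd rfl (hab.ne_last (h.nodup i m hij) (h.last i m hij))
    subst hi
    have hj : j = m + 1 ∨ j = m + 2 := fin3_cases m j hij
    rcases hj with rfl | rfl
    · exact Or.inl (hb₁ b hab)
    · exact Or.inr (hb₂ b hab)
  · by_cases hb : ∃ i j b, i ≠ j ∧ Nxt (L i j) v b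
    · obtain ⟨i₀, j₀, b₀, hij₀, hb₀⟩ := hb
      refine ⟨b₀, b₀, h.imp ?_ (subset_refl _)⟩
      intro i j hij a b hab hE
      refine ⟨hE, ?_⟩
      rintro rfl
      left
      by_cases e : (i, j) = (i₀, j₀)
      · obtain ⟨rfl, rfl⟩ := Prod.mk.inj e
        exact hab.unique (h.nodup i j hij) hb₀
      · exact absurd (h.disj i j i₀ j₀ a hij hij₀ e hab.left_mem hb₀.left_mem) hv
    · refine ⟨v, v, h.imp ?_ (subset_refl _)⟩
      intro i j hij a b hab hE
      refine ⟨hE, ?_⟩
      rintro rfl
      exact absurd ⟨i, j, b, hij, hab⟩ hb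

/-- Replace one arc `(u,w)` of a subdivision by a path with interior `l` outside `S`. -/
theorem HasK3.lift {u w : V} (h : HasK3 (fun p q => E p q ∨ (p = u ∧ q = w)) S)
    (hE : ∀ a b, a ∈ S → b ∈ S → a ≠ b → E a b → E' a b) (l : List V)
    (hl : (u :: (l ++ [w])).IsChain E') (hnd : l.Nodup) (hS : ∀ z ∈ l, z ∉ S)
    (hSS : S ⊆ S') (hlS : ∀ z ∈ l, z ∈ S') : HasK3 E' S' := by
  classical
  obtain ⟨β, L, h⟩ := h
  by_cases hn : ∃ i j, i ≠ j ∧ Nxt (L i j) u w
  · obtain ⟨i₀, j₀, hij₀, hn₀⟩ := hn
    have hn₁ := hn₀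
    obtain ⟨L₁, L₂, hL⟩ := hn₀
    let L' : Fin 3 → Fin 3 → List V := fun i j =>
      if i = i₀ ∧ j = j₀ then L₁ ++ u :: (l ++ w :: L₂) else L i j
    have hL'0 : L' i₀ j₀ = L₁ ++ u :: (l ++ w :: L₂) := by simp [L']
    have hL'1 : ∀ i j, ¬ (i = i₀ ∧ j = j₀) → L' i j = L i j := by
      intro i j hij; simp only [L']; rw [if_neg hij]
    have hmem : ∀ i j z, z ∈ L' i j → z ∈ L i j ∨ ((i = i₀ ∧ j = j₀) ∧ z ∈ l) := by
      intro i j z hz
      by_cases hij : i = i₀ ∧ j = j₀
      · obtain ⟨rfl, rfl⟩ := hij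
        rw [hL'0] at hz
        rw [hL]
        simp only [mem_append, mem_cons] at hz ⊢
        tauto
      · rw [hL'1 i j hij] at hz
        exact Or.inl hz
    have hlβ : ∀ z ∈ l, ∀ i j, i ≠ j → z ∉ L i j := fun z hz i j hij hz' =>
      hS z hz (h.mem i j hij z hz')
    have hβS : ∀ m, β m ∈ S := by
      intro m
      have h1 : m ≠ m + 1 := by fin_cases m <;> decide
      exact h.mem m (m + 1) h1 (β m) (mem_of_head? (h.head m (m + 1) h1))
    have hnd0 := h.nodup i₀ j₀ hij₀
    have hch : ∀ i j, i ≠ j → ∀ a b, Nxt (L i j) a b → ¬ (a = u ∧ b = w) → E' a b := by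
      intro i j hij a b hab hne
      have := isChain_iff_nxt.1 (h.chain i j hij) a b hab
      rcases this with e | e
      · exact hE a b (h.mem i j hij a hab.left_mem) (h.mem i j hij b hab.right_mem)
          (hab.ne (h.nodup i j hij)) e
      · exact absurd e hne
    refine ⟨β, L', ?_⟩
    constructor
    · exact h.inj
    · intro i j hij
      by_cases e : i = i₀ ∧ j = j₀
      · obtain ⟨rfl, rfl⟩ := e
        rw [hL'0]
        have c1 : (L₁ ++ [u]).IsChain E' := by
          rw [isChain_iff_nxt]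
          rintro a b ⟨m₁, m₂, e⟩
          have hab : Nxt (L i j) a b := ⟨m₁, m₂ ++ w :: L₂, by
            rw [hL, show L₁ ++ u :: w :: L₂ = (L₁ ++ [u]) ++ w :: L₂ by simp, e]; simp⟩
          refine hch i j hij a b hab ?_
          rintro ⟨rfl, rfl⟩
          rw [hL, show L₁ ++ a :: b :: L₂ = (L₁ ++ [a]) ++ b :: L₂ by simp, e] at hnd0
          rw [nodup_append] at hnd0
          exact hnd0.2.2 b (by simp) b (by simp) rfl
        have c2 : (w :: L₂).IsChain E' := by
          rw [isChain_iff_nxt]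
          rintro a b ⟨m₁, m₂, e⟩
          have hab : Nxt (L i j) a b := ⟨L₁ ++ u :: m₁, m₂, by
            rw [hL, e]; simp⟩
          refine hch i j hij a b hab ?_
          rintro ⟨rfl, rfl⟩
          rw [hL, e] at hnd0
          rw [nodup_append] at hnd0
          have := hnd0.2.1
          rw [nodup_cons] at this
          exact this.1 (by simp)
        rw [isChain_split]
        refine ⟨c1, ?_⟩
        rw [show u :: (l ++ w :: L₂) = (u :: l) ++ w :: L₂ by simp, isChain_split]
        exact ⟨by simpa using hl, c2⟩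
      · rw [hL'1 i j e, isChain_iff_nxt]
        intro a b hab
        refine hch i j hij a b hab ?_
        rintro ⟨rfl, rfl⟩
        have := h.arc_shared hij hij₀ hab hn₁
        exact e (Prod.mk.inj this)
    · intro i j hij
      by_cases e : i = i₀ ∧ j = j₀
      · obtain ⟨rfl, rfl⟩ := e
        rw [hL'0]
        have hx : ∀ z ∈ l, z ∉ L₁ ++ u :: w :: L₂ := by
          intro z hz; rw [← hL]; exact hlβ z hz i j hij
        rw [hL] at hnd0
        have hp : (L₁ ++ u :: (l ++ w :: L₂)) ~ (l ++ (L₁ ++ u :: w :: L₂)) := by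
          have : (L₁ ++ u :: (l ++ w :: L₂)) = (L₁ ++ [u]) ++ (l ++ (w :: L₂)) := by simp
          rw [this]
          have : (l ++ (L₁ ++ u :: w :: L₂)) = l ++ ((L₁ ++ [u]) ++ (w :: L₂)) := by simp
          rw [this, ← append_assoc, ← append_assoc l]
          exact (perm_append_comm (l₁ := L₁ ++ [u]) (l₂ := l)).append_right _
        rw [hp.nodup_iff, nodup_append]
        refine ⟨hnd, hnd0, ?_⟩
        intro a ha b hb
        rintro rfl
        exact hx a ha hb
      · rw [hL'1 i j e]; exact h.nodup i j hij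
    · intro i j hij
      by_cases e : i = i₀ ∧ j = j₀
      · obtain ⟨rfl, rfl⟩ := e
        rw [hL'0]
        have := h.head i j hij
        rw [hL] at this
        cases L₁ with
        | nil => simpa using this
        | cons c L₁ => simpa using this
      · rw [hL'1 i j e]; exact h.head i j hij
    · intro i j hij
      by_cases e : i = i₀ ∧ j = j₀
      · obtain ⟨rfl, rfl⟩ := e
        rw [hL'0]
        have := h.last i j hij
        rw [hL] at this
        rw [show L₁ ++ u :: w :: L₂ = (L₁ ++ [u]) ++ (w :: L₂) by simp,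
          getLast?_append_of_ne_nil _ (by simp)] at this
        rw [show L₁ ++ u :: (l ++ w :: L₂) = (L₁ ++ u :: l) ++ (w :: L₂) by simp,
          getLast?_append_of_ne_nil _ (by simp)]
        exact this
      · rw [hL'1 i j e]; exact h.last i j hij
    · intro i j k hij hk
      rcases hmem i j _ hk with h1 | h1
      · exact h.br i j k hij h1
      · exact absurd (hβS k) (hS _ h1.2)
    · intro i j k l' v hij hkl hne hv1 hv2
      rcases hmem i j _ hv1 with h1 | h1
      · rcases hmem k l' _ hv2 with h2 | h2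
        · exact h.disj i j k l' v hij hkl hne h1 h2
        · exact absurd (h.mem i j hij v h1) (hS v h2.2)
      · rcases hmem k l' _ hv2 with h2 | h2
        · exact absurd (h.mem k l' hkl v h2) (hS v h1.2)
        · exfalso
          apply hne
          rw [h1.1.1, h1.1.2, h2.1.1, h2.1.2]
    · intro i j hij v hv
      rcases hmem i j _ hv with h1 | h1
      · exact hSS (h.mem i j hij v h1)
      · exact hlS v h1.2
  · refine ⟨β, L, h.imp ?_ hSS⟩
    intro i j hij a b hab he
    rcases he with e | e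
    · exact hE a b (h.mem i j hij a hab.left_mem) (h.mem i j hij b hab.right_mem)
        (hab.ne (h.nodup i j hij)) e
    · obtain ⟨rfl, rfl⟩ := e
      exact absurd ⟨i, j, hij, hab⟩ hn

end Pool.Agent.Mader
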