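import Pool.Agent.Mader.Main

set_option autoImplicit false

namespace Pool.Agent.Mader

open List Relation

variable {V : Type*}

variable {E : V → V → Prop}

/-- Vertices reachable from `r` in exactly `n` steps. -/
def Rn (E : V → V → Prop) (r : V) : ℕ → Set V
  | 0 => {r}
  | n + 1 => {q | ∃ p ∈ Rn E r n, E p q}

theorem exists_Rn {r p : V} (h : ReflTransGen E r p) : ∃ n, p ∈ Rn E r n := by
  induction h with
  | refl => exact ⟨0, rfl⟩
  | tail _ h ih =>
    obtain ⟨n, hn⟩ := ih
    exact ⟨n + 1, _, hn, h⟩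

/-- Distance from `r`. -/
noncomputable def dst (E : V → V → Prop) (r p : V) : ℕ := sInf {n | p ∈ Rn E r n}

theorem mem_Rn_dst {r p : V} (h : ReflTransGen E r p) : p ∈ Rn E r (dst E r p) :=
  Nat.sInf_mem (s := {n | p ∈ Rn E r n}) (exists_Rn h)

theorem dst_le {r p : V} {n : ℕ} (h : p ∈ Rn E r n) : dst E r p ≤ n :=
  Nat.sInf_le (s := {n | p ∈ Rn E r n}) h

theorem dst_succ {r p q : V} (h : ReflTransGen E r p) (hpq : E p q) :
    dst E r q ≤ dst E r p + 1 := dst_le ⟨p, mem_Rn_dst h, hpq⟩

theorem dst_self (r : V) : dst E r r = 0 := Nat.le_zero.1 (dst_le (n := 0) rfl)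

theorem reach_layer {r : V} : ∀ (i : ℕ) (p : V), ReflTransGen E r p → dst E r p = i →
    ReflTransGen (fun a b => E a b ∧ dst E r a < i) r p := by
  intro i
  induction i with
  | zero =>
    intro p hp h0
    have := mem_Rn_dst hp
    rw [h0] at this
    have : p = r := this
    subst this
    exact ReflTransGen.refl
  | succ i ih =>
    intro p hp hi
    have hmem := mem_Rn_dst hp
    rw [hi] at hmem
    obtain ⟨p', hp', hpp'⟩ := hmem
    have h1 : dst E r p' ≤ i := dst_le hp'
    have hreach : ReflTransGen E r p' := by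
      have : ∀ n t, t ∈ Rn E r n → ReflTransGen E r t := by
        intro n
        induction n with
        | zero => intro t ht; have : t = r := ht; subst this; exact ReflTransGen.refl
        | succ n ih' => rintro t ⟨s, hs, hst⟩; exact (ih' s hs).tail hst
      exact this i p' hp'
    have h2 := dst_succ hreach hpp'
    have h3 : dst E r p' = i := by omega
    refine (ReflTransGen.mono ?_ _ _ (ih p' hreach h3)).tail ⟨hpp', by omega⟩
    intro a b hab
    exact ⟨hab.1, by omega⟩

/-- Layered colouring. -/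
theorem col_layers {r : V} (hr : ∀ p q, E p q → ReflTransGen E r p)
    (h : ∀ i, Col (Res E {p | dst E r p = i}) 2) : Col E 4 := by
  choose f hf using h
  let F : V → Fin 4 := fun p =>
    finProdFinEquiv (m := 2) (n := 2) (⟨dst E r p % 2, Nat.mod_lt _ (by norm_num)⟩, f (dst E r p) p)
  have hF : ∀ p q, F p = F q → dst E r p % 2 = dst E r q % 2 ∧ f (dst E r p) p = f (dst E r q) q := by
    intro p q h
    have := (finProdFinEquiv (m := 2) (n := 2)).injective h
    have h1 := congrArg Prod.fst this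
    have h2 := congrArg Prod.snd this
    simp only [Fin.mk.injEq] at h1
    exact ⟨h1, h2⟩
  refine ⟨F, ?_⟩
  intro u hu
  have key : ∀ p, TransGen (fun p q => E p q ∧ F p = F q) u p → dst E r p ≤ dst E r u ∧
      (dst E r p = dst E r u → TransGen (fun p q => Res E {p | dst E r p = dst E r u} p q ∧
        f (dst E r u) p = f (dst E r u) q) u p) := by
    intro p hp
    induction hp with
    | @single p hp =>
      obtain ⟨h1, h2⟩ := hF u p hp.2
      have h3 := dst_succ (hr u p hp.1) hp.1
      refine ⟨by omega, fun h => TransGen.single ⟨⟨hp.1, rfl, h⟩, ?_⟩⟩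
      rw [h] at h2
      exact h2
    | @tail c p _ hp ih =>
      obtain ⟨h1, h2⟩ := hF c p hp.2
      have h3 := dst_succ (hr c p hp.1) hp.1
      obtain ⟨ih1, ih2⟩ := ih
      refine ⟨by omega, fun h => ?_⟩
      have hc : dst E r c = dst E r u := by omega
      refine TransGen.tail (ih2 hc) ⟨⟨hp.1, hc, h⟩, ?_⟩
      rw [h, hc] at h2
      exact h2
  exact hf (dst E r u) u ((key u hu).2 rfl)

/-- **Main theorem**: a digraph without a subdivision of the bioriented triangle has an acyclic
colouring with four colours. -/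
theorem col_four [Finite V] (hloop : ∀ p, ¬ E p p) (hno : ¬ HasK3 E Set.univ) : Col E 4 := by
  classical
  by_contra hcol
  have hcol' : ¬ Col (Res E Set.univ) 4 :=
    fun h => hcol (h.mono (fun p q hpq => ⟨hpq, trivial, trivial⟩))
  obtain ⟨T, _, hTc, hTcrit⟩ := exists_critical E Set.univ hcol'
  have hTne : T.Nonempty := by
    by_contra h
    rw [Set.not_nonempty_iff_eq_empty] at h
    subst h
    apply hTc
    refine ⟨fun _ => 0, fun v hv => ?_⟩
    obtain ⟨c, hc, _⟩ := TransGen.head'_iff.1 hv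
    exact hc.1.2.1
  obtain ⟨r, hr⟩ := hTne
  set E' : V → V → Prop := Res E T with hE'
  have hcrit' : ∀ U, U ⊂ T → Col (Res E' U) 4 := fun U hU =>
    (hTcrit U hU).mono (fun p q h => ⟨h.1.1, h.2⟩)
  have hstrong : ∀ {p q : V}, p ∈ T → q ∈ T → ReflTransGen E' p q := fun hp hq =>
    strong_of_critical (fun p q h => h.2) hTc hcrit' hp hq
  -- a layer that is not 2-colourable
  obtain ⟨i, hi⟩ : ∃ i, ¬ Col (Res E' {p | dst E' r p = i}) 2 := by
    by_contra h
    push Not at h
    exact hTc (col_layers (fun p q hpq => hstrong hr hpq.2.1) h)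
  obtain ⟨Y, hYi, hYc, hYcrit⟩ := exists_critical E' _ hi
  have hYT : ∀ p q, Res E' Y p q → p ∈ T ∧ q ∈ T := fun p q h => h.1.2
  -- `Y` is contained in `T`
  have hYsub : Y ⊆ T := by
    intro y hy
    by_contra hyT
    have : Y \ {y} ⊂ Y := ⟨fun s hs => hs.1, fun h => (h hy).2 rfl⟩
    apply hYc
    refine (hYcrit _ this).mono ?_
    rintro p q ⟨hpq, hp, hq⟩
    exact ⟨hpq, ⟨hp, fun e => hyT (e ▸ hpq.2.1)⟩, ⟨hq, fun e => hyT (e ▸ hpq.2.2)⟩⟩
  have hYne : Y.Nonempty := by
    by_contra h
    rw [Set.not_nonempty_iff_eq_empty] at h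
    subst h
    apply hYc
    refine ⟨fun _ => 0, fun v hv => ?_⟩
    obtain ⟨c, hc, _⟩ := TransGen.head'_iff.1 hv
    exact hc.1.2.1
  have hrY : r ∉ Y := by
    intro hrY
    have hi0 : i = 0 := by
      have : dst E' r r = i := hYi hrY
      rw [dst_self] at this
      exact this.symm
    have hY1 : ∀ y ∈ Y, y = r := by
      intro y hy
      have h1 : dst E' r y = i := hYi hy
      have h2 := mem_Rn_dst (hstrong hr (hYsub hy))
      rw [h1, hi0] at h2
      exact h2
    apply hYc
    refine ⟨fun _ => 0, fun v hv => ?_⟩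
    obtain ⟨c, hc, _⟩ := TransGen.head'_iff.1 hv
    have h1 := hY1 v hc.1.2.1
    have h2 := hY1 c hc.1.2.2
    have h3 := hc.1.1.1
    rw [h1, h2] at h3
    exact hloop r h3
  obtain ⟨s, hs⟩ := hYne
  have hsr : s ≠ r := fun h => hrY (h ▸ hs)
  obtain ⟨l, hl⟩ := exists_pth' (hstrong (hYsub hs) hr) hsr
  obtain ⟨s₁, x, l', e, hx, hl'⟩ := last_split (fun z => z ∈ Y) (s :: l) ⟨s, by simp, hs⟩
  have hpx : Pth E' x l' r := by
    cases s₁ with
    | nil =>
      simp at e
      obtain ⟨rfl, rfl⟩ := e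
      exact hl
    | cons t s₁ =>
      simp at e
      obtain ⟨rfl, rfl⟩ := e
      exact hl.split.2
  -- the rooted lemma
  have hgood : Good (Res E' Y) Y x := by
    refine rooted _ (Res E' Y) Y x rfl (fun p q h => h.2) (fun p h => hloop p h.1.1) hx hYc ?_
    have : Y \ {x} ⊂ Y := ⟨fun s hs => hs.1, fun h => (h hx).2 rfl⟩
    refine (hYcrit _ this).mono ?_
    rintro p q ⟨hpq, hp, hq⟩
    exact ⟨hpq.1, hp, hq⟩
  obtain ⟨w, hw⟩ := hgood
  apply hno
  by_cases hwY : w ∈ Y ∧ w ≠ x
  · obtain ⟨hwY, hwx⟩ := hwY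
    set ρ : V → V → Prop := fun a b => E a b ∧ (a = x ∨ a ∉ Y) with hρ
    have h1 : ReflTransGen ρ x r := by
      have : Pth ρ x l' r := by
        refine ⟨?_, hpx.2⟩
        rw [List.isChain_iff_forall_rel_of_append_cons_cons]
        intro p q m₁ m₂ e
        have h1 := List.isChain_iff_forall_rel_of_append_cons_cons.1 hpx.1 e
        refine ⟨h1.1, ?_⟩
        have hmem : p ∈ x :: (l' ++ [r]) := by rw [e]; simp
        simp only [mem_cons, mem_append, not_mem_nil, or_false] at hmem
        rcases hmem with h | h | h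
        · exact Or.inl h
        · exact Or.inr (hl' p h)
        · exact Or.inr (h ▸ hrY)
      exact this.reflTransGen
    have h2 : ReflTransGen ρ r w := by
      refine ReflTransGen.mono ?_ _ _ (reach_layer i w (hstrong hr (hYsub hwY)) (hYi hwY))
      rintro a b ⟨hab, ha⟩
      refine ⟨hab.1, Or.inr fun haY => ?_⟩
      have : dst E' r a = i := hYi haY
      omega
    obtain ⟨m, hm⟩ := exists_pth' (h1.trans h2) hwx.symm
    have hmY : ∀ z ∈ m, z ∉ Y := by
      intro z hz
      have := hm.forall_int_tail (P := fun z => z = x ∨ z ∉ Y) (fun p q h => h.2) z hz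
      rcases this with h | h
      · exact absurd (h ▸ hz) hm.not_mem_left
      · exact h
    exact hw.lift (E' := E) (fun _ _ _ _ _ h => h.1.1) m (hm.1.imp (fun _ _ h => h.1))
      hm.nodup_int hmY (fun _ _ => trivial) (fun _ _ => trivial)
  · refine hw.mono ?_ (fun _ _ => trivial)
    rintro p q _ hq hpq (h | h)
    · exact h.1.1
    · exfalso
      apply hwY
      rw [← h.2]
      exact ⟨hq, fun e => hpq (h.1.trans e.symm)⟩

end Pool.Agent.Mader
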