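import Pool.Agent.Mader.Rooted

set_option autoImplicit false

namespace Pool.Agent.Mader

open List Relation

variable {V : Type*}

variable {E : V → V → Prop} {S : Set V} {x : V}

/-- Build a subdivision from branch vertices and interior lists. -/
theorem HasK3.of_int (β : Fin 3 → V) (p : Fin 3 → Fin 3 → List V) (hinj : Function.Injective β)
    (hch : ∀ i j, i ≠ j → (β i :: (p i j ++ [β j])).IsChain E)
    (hnd : ∀ i j, i ≠ j → (p i j).Nodup)
    (hav : ∀ i j k, i ≠ j → β k ∉ p i j)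
    (hdj : ∀ i j k l, i ≠ j → k ≠ l → (i, j) ≠ (k, l) → ∀ z ∈ p i j, z ∉ p k l)
    (hS1 : ∀ k, β k ∈ S) (hS2 : ∀ i j, i ≠ j → ∀ z ∈ p i j, z ∈ S) : HasK3 E S := by
  refine ⟨β, fun i j => β i :: (p i j ++ [β j]), ?_⟩
  constructor
  · exact hinj
  · exact hch
  · intro i j hij
    rw [nodup_cons, nodup_append]
    refine ⟨?_, hnd i j hij, by simp, ?_⟩
    · intro h
      rcases mem_append.1 h with h | h
      · exact hav i j i hij h
      · simp at h; exact hij (hinj h)
    · intro a ha b hb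
      simp at hb
      rintro rfl
      exact hav i j j hij (hb ▸ ha)
  · intro i j _; simp
  · intro i j _
    rw [show β i :: (p i j ++ [β j]) = (β i :: p i j) ++ [β j] by simp,
      getLast?_append_of_ne_nil _ (by simp)]
    simp
  · intro i j k hij hk
    rcases mem_cons.1 hk with h | h
    · exact Or.inl (hinj h)
    · rcases mem_append.1 h with h | h
      · exact absurd h (hav i j k hij)
      · simp at h; exact Or.inr (hinj h)
  · intro i j k l v hij hkl hne h1 h2
    rcases mem_cons.1 h1 with h | h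
    · exact ⟨i, h⟩
    · rcases mem_append.1 h with h | h
      · rcases mem_cons.1 h2 with h' | h'
        · exact ⟨k, h'⟩
        · rcases mem_append.1 h' with h' | h'
          · exact absurd h' (hdj i j k l hij hkl hne v h)
          · simp at h'; exact ⟨l, h'⟩
      · simp at h; exact ⟨j, h⟩
  · intro i j hij v hv
    rcases mem_cons.1 hv with h | h
    · rw [h]; exact hS1 i
    · rcases mem_append.1 h with h | h
      · exact hS2 i j hij v h
      · simp at h; rw [h]; exact hS1 j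

/-- The final configuration. -/
theorem final_config {y q : V} {m₁ m₂ l s : List V} (hsupp : ∀ p q, E p q → p ∈ S ∧ q ∈ S)
    (hxy : E x y) (hxyn : x ≠ y)
    (p1 : Pth E y (m₁ ++ q :: m₂) x) (p2 : Pth E y l x)
    (hd : ∀ z ∈ m₁ ++ q :: m₂, z ∉ l) (ps : Pth E q s y)
    (hs : ∀ z ∈ s, z ∉ m₁ ++ q :: m₂ ∧ z ∉ l ∧ z ≠ x) : Good E S x := by
  have hn1 := p1.nodup_int
  have hx1 := p1.not_mem_right
  have hy1 := p1.not_mem_left
  have hx2 := p2.not_mem_right
  have hy2 := p2.not_mem_left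
  have hn2 := p2.nodup_int
  have hns := ps.nodup_int
  have hys := ps.not_mem_right
  have hqs := ps.not_mem_left
  have hqy := ps.ne
  have hqx : q ≠ x := fun h => hx1 (by simp [h])
  have hql : q ∉ l := hd q (by simp)
  have hq1 : q ∉ m₁ := by
    intro h; exact (nodup_append.1 hn1).2.2 q h q (by simp) rfl
  have hq2 : q ∉ m₂ := by
    have := (nodup_append.1 hn1).2.1
    rw [nodup_cons] at this
    exact this.1
  have hm12 : ∀ z ∈ m₁, z ∉ m₂ := by
    intro z h h'; exact (nodup_append.1 hn1).2.2 z h z (by simp [h']) rfl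
  have hm1l : ∀ z ∈ m₁, z ∉ l := fun z h => hd z (by simp [h])
  have hm2l : ∀ z ∈ m₂, z ∉ l := fun z h => hd z (by simp [h])
  have hsm1 : ∀ z ∈ s, z ∉ m₁ := fun z h h' => (hs z h).1 (by simp [h'])
  have hsm2 : ∀ z ∈ s, z ∉ m₂ := fun z h h' => (hs z h).1 (by simp [h'])
  have hsl : ∀ z ∈ s, z ∉ l := fun z h => (hs z h).2.1
  have hxs : x ∉ s := fun h => (hs x h).2.2 rfl
  have hxm1 : x ∉ m₁ := fun h => hx1 (by simp [h])
  have hxm2 : x ∉ m₂ := fun h => hx1 (by simp [h])
  have hym1 : y ∉ m₁ := fun h => hy1 (by simp [h])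
  have hym2 : y ∉ m₂ := fun h => hy1 (by simp [h])
  have hnm1 : m₁.Nodup := (nodup_append.1 hn1).1
  have hnm2 : m₂.Nodup := by
    have := (nodup_append.1 hn1).2.1
    rw [nodup_cons] at this
    exact this.2
  obtain ⟨pyq, pqx⟩ := p1.split
  have hSx : x ∈ S := (hsupp _ _ hxy).1
  have hSy : y ∈ S := (hsupp _ _ hxy).2
  have hSq : q ∈ S := by
    have h := p1.forall_int (P := fun z => z ∈ S) (fun p q h => (hsupp p q h).2)
    exact h q (by simp)
  have hSm1 : ∀ z ∈ m₁, z ∈ S := fun z hz =>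
    p1.forall_int (P := fun z => z ∈ S) (fun p q h => (hsupp p q h).2) z (by simp [hz])
  have hSm2 : ∀ z ∈ m₂, z ∈ S := fun z hz =>
    p1.forall_int (P := fun z => z ∈ S) (fun p q h => (hsupp p q h).2) z (by simp [hz])
  have hSl : ∀ z ∈ l, z ∈ S := p2.forall_int (fun p q h => (hsupp p q h).2)
  have hSs : ∀ z ∈ s, z ∈ S := ps.forall_int (fun p q h => (hsupp p q h).2)
  refine ⟨q, ?_⟩
  refine HasK3.of_int ![x, y, q] ![![[], [], []], ![l, [], m₁], ![m₂, s, []]] ?_ ?_ ?_ ?_ ?_ ?_ ?_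
  · intro i j hij
    fin_cases i <;> fin_cases j <;> simp_all
  · intro i j hij
    fin_cases i <;> fin_cases j
    · exact absurd rfl hij
    · simpa using Or.inl hxy
    · simp
    · exact p2.1.imp (fun _ _ h => Or.inl h)
    · exact absurd rfl hij
    · exact pyq.1.imp (fun _ _ h => Or.inl h)
    · exact pqx.1.imp (fun _ _ h => Or.inl h)
    · exact ps.1.imp (fun _ _ h => Or.inl h)
    · exact absurd rfl hij
  · intro i j _
    fin_cases i <;> fin_cases j <;> simp <;> assumption
  · intro i j k _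
    fin_cases i <;> fin_cases j <;> fin_cases k <;> simp <;> assumption
  · intro i j k l' hij hkl hne
    fin_cases i <;> fin_cases j <;> first | exact absurd rfl hij | skip
    all_goals fin_cases k <;> fin_cases l' <;> first | exact absurd rfl hkl | exact absurd rfl hne | skip
    all_goals simp
    all_goals first
      | assumption
      | (intro z hz hz'; exact hm12 z hz hz')
      | (intro z hz hz'; exact hm12 z hz' hz)
      | (intro z hz hz'; exact hm1l z hz hz')
      | (intro z hz hz'; exact hm1l z hz' hz)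
      | (intro z hz hz'; exact hm2l z hz hz')
      | (intro z hz hz'; exact hm2l z hz' hz)
      | (intro z hz hz'; exact hsm1 z hz hz')
      | (intro z hz hz'; exact hsm1 z hz' hz)
      | (intro z hz hz'; exact hsm2 z hz hz')
      | (intro z hz hz'; exact hsm2 z hz' hz)
      | (intro z hz hz'; exact hsl z hz hz')
      | (intro z hz hz'; exact hsl z hz' hz)
  · intro k
    fin_cases k <;> simp <;> assumption
  · intro i j _
    fin_cases i <;> fin_cases j <;> simp <;> assumption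

/-- The inductive step. -/
theorem Ctx.false [Finite V] (c : Ctx E S x) (hng : ¬ Good E S x) : False := by
  classical
  -- a vertex different from `x` and `w`
  have hthird : ∀ w, ∃ z ∈ S, z ≠ x ∧ z ≠ w := by
    intro w
    by_contra hcon
    push Not at hcon
    apply c.ncol
    refine ⟨fun p => if p = x then 0 else 1, ?_⟩
    intro u hu
    obtain ⟨t, ⟨hut, hft⟩, _⟩ := TransGen.head'_iff.1 hu
    obtain ⟨hu1, ht1⟩ := c.supp u t hut
    by_cases h1 : u = x
    · by_cases h2 : t = x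
      · rw [h1, h2] at hut; exact c.loop x hut
      · simp [h1, h2] at hft
    · by_cases h2 : t = x
      · simp [h1, h2] at hft
      · rw [hcon u hu1 h1, hcon t ht1 h2] at hut
        exact c.loop w hut
  obtain ⟨s₀, hs₀, hs₀x, _⟩ := hthird x
  obtain ⟨y, hxy⟩ : ∃ y, E x y := by
    rcases ReflTransGen.cases_head (c.strong c.hx hs₀) with h | ⟨y, hy, _⟩
    · exact absurd h.symm hs₀x
    · exact ⟨y, hy⟩
  have hyS : y ∈ S := (c.supp x y hxy).2
  have hyx : y ≠ x := by rintro rfl; exact c.loop _ hxy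
  have h2 : ∀ w, E w x → w ≠ x → ∃ l, l ≠ [] ∧ Pth E w l x := by
    intro w hwx hwne
    have hwS := (c.supp w x hwx).1
    obtain ⟨z, hz, hzx, hzw⟩ := hthird w
    have hreach := c.step2 hng hz hzx hwne hzw
    obtain ⟨u, _, ⟨hux, huw, _⟩⟩ : ∃ u, ReflTransGen (fun a b => E a b ∧ a ≠ w ∧ b ≠ w) z u ∧
        (E u x ∧ u ≠ w ∧ x ≠ w) := by
      rcases ReflTransGen.cases_tail hreach with h | ⟨u, h1, h2⟩
      · exact absurd h.symm hzx
      · exact ⟨u, h1, h2⟩
    have hux' : u ≠ x := by rintro rfl; exact c.loop _ hux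
    have huS := (c.supp u x hux).1
    obtain ⟨l, hl⟩ := exists_pth' (c.step1 hng hwS huS hwne hux') huw.symm
    have hxl : x ∉ l := fun h =>
      hl.forall_int (P := fun q => q ≠ x) (fun p q h => h.2.2) x h rfl
    exact ⟨l ++ [u], by simp, (hl.mono (fun _ _ h => h.1)).snoc hux hwne hux' hxl⟩
  obtain ⟨l₁, l₂, p1, p2, hd, hne⟩ := two_paths (P := fun z => z ∈ S) c.supp
    (fun w z hw hwx hzx hwz => c.step2 hng hw hwx hzx hwz) h2 (c.strong hyS c.hx) hyx
  obtain ⟨d, hdl⟩ := List.exists_mem_of_ne_nil l₂ hne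
  have hdS : d ∈ S := p2.forall_int (P := fun z => z ∈ S) (fun p q h => (c.supp p q h).2) d hdl
  have hdx : d ≠ x := fun h => p2.not_mem_right (h ▸ hdl)
  have hdy : d ≠ y := fun h => p2.not_mem_left (h ▸ hdl)
  obtain ⟨s, hs⟩ := exists_pth' (c.step1 hng hdS hyS hdx hyx) hdy
  have hxs : x ∉ s := fun h =>
    hs.forall_int (P := fun q => q ≠ x) (fun p q h => h.2.2) x h rfl
  have hs' : Pth E d s y := hs.mono (fun _ _ h => h.1)
  obtain ⟨s₁, q, s₂, e, hq, hs2⟩ := last_split (fun z => z ∈ l₁ ∨ z ∈ l₂) (d :: s)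
    ⟨d, by simp, Or.inr hdl⟩
  have hps : Pth E q s₂ y ∧ x ∉ s₂ := by
    cases s₁ with
    | nil =>
      simp at e
      obtain ⟨rfl, rfl⟩ := e
      exact ⟨hs', hxs⟩
    | cons t s₁ =>
      simp at e
      obtain ⟨rfl, rfl⟩ := e
      exact ⟨hs'.split.2, fun h => hxs (by simp [h])⟩
  obtain ⟨ps, hxs2⟩ := hps
  apply hng
  rcases hq with hq | hq
  · obtain ⟨m₁, m₂, rfl⟩ := List.append_of_mem hq
    refine final_config c.supp hxy hyx.symm p1 p2 hd ps ?_
    intro z hz
    exact ⟨fun h => hs2 z hz (Or.inl h), fun h => hs2 z hz (Or.inr h), fun h => hxs2 (h ▸ hz)⟩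
  · obtain ⟨m₁, m₂, rfl⟩ := List.append_of_mem hq
    refine final_config c.supp hxy hyx.symm p2 p1 (fun z hz h => hd z h hz) ps ?_
    intro z hz
    exact ⟨fun h => hs2 z hz (Or.inr h), fun h => hs2 z hz (Or.inl h), fun h => hxs2 (h ▸ hz)⟩

/-- Rooted lemma. -/
theorem rooted [Finite V] : ∀ (n : ℕ) (E : V → V → Prop) (S : Set V) (x : V), S.ncard = n →
    (∀ p q, E p q → p ∈ S ∧ q ∈ S) → (∀ p, ¬ E p p) → x ∈ S → ¬ Col E 2 →
    Col (Res E (S \ {x})) 2 → Good E S x := by
  intro n
  induction n using Nat.strong_induction_on with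
  | _ n IH =>
    intro E S x hn hsupp hloop hx hcol hres
    have hcol' : ¬ Col (Res E S) 2 := fun h => hcol (h.mono (fun p q hpq => ⟨hpq, hsupp p q hpq⟩))
    obtain ⟨T, hTS, hTc, hTcrit⟩ := exists_critical E S hcol'
    have hxT : x ∈ T := by
      by_contra h
      apply hTc
      refine hres.mono ?_
      rintro p q ⟨hpq, hp, hq⟩
      exact ⟨hpq, ⟨hTS hp, fun e => h (e ▸ hp)⟩, ⟨hTS hq, fun e => h (e ▸ hq)⟩⟩
    by_cases hlt : T.ncard < S.ncard
    · have hg : Good (Res E T) T x := by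
        refine IH T.ncard (hn ▸ hlt) (Res E T) T x rfl (fun p q h => h.2) (fun p h => hloop p h.1) hxT
          hTc ?_
        refine hres.mono ?_
        rintro p q ⟨hpq, hp, hq⟩
        exact ⟨hpq.1, ⟨hTS hp.1, hp.2⟩, ⟨hTS hq.1, hq.2⟩⟩
      obtain ⟨w, hw⟩ := hg
      refine ⟨w, hw.mono ?_ hTS⟩
      rintro p q _ _ _ (h | h)
      · exact Or.inl h.1
      · exact Or.inr h
    · have hTeq : T = S := Set.eq_of_subset_of_ncard_le hTS (not_lt.1 hlt) (Set.toFinite _)
      subst hTeq
      by_contra hng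
      refine Ctx.false (E := E) (S := T) (x := x) ⟨hsupp, hloop, hx, hcol, hTcrit, ?_⟩ hng
      intro E' S' x' hlt' h1 h2 h3 h4 h5
      exact IH S'.ncard (hn ▸ hlt') E' S' x' rfl h1 h2 h3 h4 h5

end Pool.Agent.Mader
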