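import Pool.Agent.Mader.Paths

set_option autoImplicit false

namespace Pool.Agent.Mader

open List Relation

variable {V : Type*}

variable {r s : V → V → Prop} {a b c q x y v w z : V} {l m l₁ l₂ m₁ m₂ : List V}

theorem two_paths_aux {s₁ : List V} (p1 : Pth r c (m₁ ++ q :: m₂) x) (p2 : Pth r c l₂ x)
    (hd : ∀ z ∈ m₁ ++ q :: m₂, z ∉ l₂) (hwc : r w c) (hw1 : w ∉ m₁ ++ q :: m₂) (hw2 : w ∉ l₂)
    (hwne : w ≠ c) (hwx : w ≠ x) (pq : Pth r w s₁ q)
    (hs : ∀ z ∈ s₁, z ∉ m₁ ++ q :: m₂ ∧ z ∉ l₂ ∧ z ≠ c ∧ z ≠ x) :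
    Pth r w (s₁ ++ q :: m₂) x ∧ Pth r w (c :: l₂) x ∧ (∀ z ∈ s₁ ++ q :: m₂, z ∉ c :: l₂) := by
  refine ⟨?_, ?_, ?_⟩
  · refine pq.append p1.split.2 ?_ ?_ hwx ?_
    · intro z hz h
      exact (hs z h).1 (by simp [hz])
    · intro h; exact hw1 (by simp [h])
    · intro h; exact (hs x h).2.2.2 rfl
  · exact Pth.cons hwc p2 hwne hwx hw2
  · intro z hz h
    have hc1 := p1.not_mem_left
    simp only [mem_append, mem_cons] at hz h
    rcases h with rfl | h
    · rcases hz with hz | rfl | hz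
      · exact (hs z hz).2.2.1 rfl
      · exact hc1 (by simp)
      · exact hc1 (by simp [hz])
    · rcases hz with hz | rfl | hz
      · exact (hs z hz).2.1 h
      · exact hd z (by simp) h
      · exact hd z (by simp [hz]) h

theorem two_paths {P : V → Prop} (hP : ∀ p q, r p q → P p ∧ P q)
    (h1 : ∀ w z, P w → w ≠ x → z ≠ x → w ≠ z →
      ReflTransGen (fun p q => r p q ∧ p ≠ z ∧ q ≠ z) w x)
    (h2 : ∀ w, r w x → w ≠ x → ∃ l, l ≠ [] ∧ Pth r w l x)
    (hw : ReflTransGen r w x) (hwx : w ≠ x) :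
    ∃ l₁ l₂, Pth r w l₁ x ∧ Pth r w l₂ x ∧ (∀ z ∈ l₁, z ∉ l₂) ∧ l₂ ≠ [] := by
  induction hw using ReflTransGen.head_induction_on with
  | refl => exact absurd rfl hwx
  | @head w c hwc hcx ih =>
    by_cases hc : c = x
    · subst hc
      obtain ⟨l, hl, hp⟩ := h2 w hwc hwx
      exact ⟨[], l, Pth.single hwc hwx, hp, by simp, hl⟩
    obtain ⟨l₁, l₂, p1, p2, hd, hne⟩ := ih hc
    by_cases hwce : w = c
    · subst hwce
      exact ⟨l₁, l₂, p1, p2, hd, hne⟩
    have hc1 := p1.not_mem_left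
    have hc2 := p2.not_mem_left
    by_cases hw1 : w ∈ l₁
    · obtain ⟨m₁, m₂, rfl⟩ := List.append_of_mem hw1
      have hw2 : w ∉ l₂ := hd w hw1
      refine ⟨m₂, c :: l₂, p1.split.2, Pth.cons hwc p2 hwce hwx hw2, ?_, by simp⟩
      intro z hz h
      rcases mem_cons.1 h with rfl | h
      · exact hc1 (by simp [hz])
      · exact hd z (by simp [hz]) h
    by_cases hw2 : w ∈ l₂
    · obtain ⟨m₁, m₂, rfl⟩ := List.append_of_mem hw2
      refine ⟨m₂, c :: l₁, p2.split.2, Pth.cons hwc p1 hwce hwx hw1, ?_, by simp⟩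
      intro z hz h
      rcases mem_cons.1 h with rfl | h
      · exact hc2 (by simp [hz])
      · exact hd z h (by simp [hz])
    obtain ⟨s, hs⟩ := exists_pth' (h1 w c (hP w c hwc).1 hwx hc hwce) hwx
    have hcs : c ∉ s := by
      intro hal
      exact hs.forall_int (P := fun q => q ≠ c) (fun p q h => h.2.2) c hal rfl
    have hs' : Pth r w s x := hs.mono (fun p q h => h.1)
    have hxs := hs'.not_mem_right
    by_cases hex : ∃ z ∈ s, z ∈ l₁ ∨ z ∈ l₂
    · obtain ⟨s₁, q, s₂, rfl, hq, hs1⟩ := first_split (fun z => z ∈ l₁ ∨ z ∈ l₂) s hex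
      have pq := hs'.split.1
      have hs1' : ∀ z ∈ s₁, z ∉ l₁ ∧ z ∉ l₂ ∧ z ≠ c ∧ z ≠ x := by
        intro z hz
        refine ⟨fun h => hs1 z hz (Or.inl h), fun h => hs1 z hz (Or.inr h), ?_, ?_⟩
        · rintro rfl; exact hcs (by simp [hz])
        · rintro rfl; exact hxs (by simp [hz])
      rcases hq with hq | hq
      · obtain ⟨m₁, m₂, rfl⟩ := List.append_of_mem hq
        obtain ⟨a1, a2, a3⟩ := two_paths_aux p1 p2 hd hwc hw1 hw2 hwce hwx pq hs1'
        exact ⟨_, _, a1, a2, a3, by simp⟩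
      · obtain ⟨m₁, m₂, rfl⟩ := List.append_of_mem hq
        obtain ⟨a1, a2, a3⟩ := two_paths_aux p2 p1 (fun z hz h => hd z h hz) hwc hw2 hw1 hwce hwx pq
          (fun z hz => ⟨(hs1' z hz).2.1, (hs1' z hz).1, (hs1' z hz).2.2⟩)
        exact ⟨_, _, a1, a2, a3, by simp⟩
    · push Not at hex
      refine ⟨s, c :: l₁, hs', Pth.cons hwc p1 hwce hwx hw1, ?_, by simp⟩
      intro z hz h
      rcases mem_cons.1 h with rfl | h
      · exact hcs hz
      · exact (hex z hz).1 h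

end Pool.Agent.Mader
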