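import Pool.Agent.Mader.Basic
import Pool.Agent.Mader.TwoPaths
import Pool.Agent.Mader.Color

set_option autoImplicit false

namespace Pool.Agent.Mader

open List Relation

variable {V : Type*}

/-- Adding a single arc from the root `x` creates a subdivision of the bioriented triangle. -/
def Good (E : V → V → Prop) (S : Set V) (x : V) : Prop :=
  ∃ w, HasK3 (fun p q => E p q ∨ (p = x ∧ q = w)) S

theorem HasK3.out_two {E : V → V → Prop} {S : Set V} (h : HasK3 E S) (v : V) :
    ∃ b₁ b₂, HasK3 (fun p q => E p q ∧ (p = v → q = b₁ ∨ q = b₂)) S := by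
  obtain ⟨β, L, h⟩ := h
  obtain ⟨b₁, b₂, h⟩ := h.out_two v
  exact ⟨b₁, b₂, β, L, h⟩

/-- The context of the inductive proof. -/
structure Ctx (E : V → V → Prop) (S : Set V) (x : V) : Prop where
  supp : ∀ p q, E p q → p ∈ S ∧ q ∈ S
  loop : ∀ p, ¬ E p p
  hx : x ∈ S
  ncol : ¬ Col E 2
  crit : ∀ T, T ⊂ S → Col (Res E T) 2
  ih : ∀ (E' : V → V → Prop) (S' : Set V) (x' : V), S'.ncard < S.ncard →
    (∀ p q, E' p q → p ∈ S' ∧ q ∈ S') → (∀ p, ¬ E' p p) → x' ∈ S' → ¬ Col E' 2 →
    Col (Res E' (S' \ {x'})) 2 → Good E' S' x'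

variable {E : V → V → Prop} {S : Set V} {x : V}

theorem Ctx.strong (c : Ctx E S x) {p q : V} (hp : p ∈ S) (hq : q ∈ S) : ReflTransGen E p q :=
  strong_of_critical c.supp c.ncol c.crit hp hq

/-- The root is not a cut vertex. -/
theorem Ctx.step1 [Finite V] (c : Ctx E S x) (hng : ¬ Good E S x) {p₀ q₀ : V} (hp₀ : p₀ ∈ S)
    (hq₀ : q₀ ∈ S) (hpx : p₀ ≠ x) (hqx : q₀ ≠ x) :
    ReflTransGen (fun a b => E a b ∧ a ≠ x ∧ b ≠ x) p₀ q₀ := by
  classical
  by_contra hcon
  set R : V → V → Prop := fun a b => E a b ∧ a ≠ x ∧ b ≠ x with hR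
  set A : Set V := {a | a ∈ S ∧ a ≠ x ∧ ¬ ReflTransGen R p₀ a} with hA
  set B : Set V := {b | b ∈ S ∧ b ≠ x ∧ ReflTransGen R p₀ b} with hB
  have hpB : p₀ ∈ B := ⟨hp₀, hpx, ReflTransGen.refl⟩
  have hqA : q₀ ∈ A := ⟨hq₀, hqx, hcon⟩
  have hxA : x ∉ A := fun h => h.2.1 rfl
  have hxB : x ∉ B := fun h => h.2.1 rfl
  have hAB : ∀ p, p ∈ A → p ∉ B := fun p h h' => h.2.2 h'.2.2
  have hpart : ∀ s, s ∈ S → s ∈ A ∨ s ∈ B ∨ s = x := by
    intro s hs
    by_cases h1 : s = x
    · exact Or.inr (Or.inr h1)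
    · by_cases h2 : ReflTransGen R p₀ s
      · exact Or.inr (Or.inl ⟨hs, h1, h2⟩)
      · exact Or.inl ⟨hs, h1, h2⟩
  have hBcl : ∀ b q, b ∈ B → E b q → q ∈ B ∨ q = x := by
    intro b q hb hbq
    by_cases h1 : q = x
    · exact Or.inr h1
    · exact Or.inl ⟨(c.supp b q hbq).2, h1, hb.2.2.tail ⟨hbq, hb.2.1, h1⟩⟩
  have hBA : ∀ p q, p ∈ B → E p q → q ∉ A := by
    intro p q hp hpq hq
    rcases hBcl p q hp hpq with h | h
    · exact hAB q hq h
    · exact hq.2.1 h
  set D : V → V → Prop := fun p q => (E p q ∧ (p ∈ B ∨ p = x) ∧ (q ∈ B ∨ q = x)) ∨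
      (p = x ∧ q ∈ B ∧ ∃ a ∈ A, True ∧ E a q) with hD
  set S' : Set V := {s | s ∈ B ∨ s = x} with hS'
  have hS'S : S' ⊂ S := by
    refine ⟨?_, ?_⟩
    · rintro s (hs | rfl)
      · exact hs.1
      · exact c.hx
    · intro h
      rcases h hqA.1 with h | h
      · exact hAB _ hqA h
      · exact hqx h
  have hDcol : ¬ Col D 2 := by
    intro h
    have hT : {s | s ∈ A ∨ s = x} ⊂ S := by
      refine ⟨?_, ?_⟩
      · rintro s (hs | rfl)
        · exact hs.1
        · exact c.hx
      · intro h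
        rcases h hpB.1 with h | h
        · exact hAB _ h hpB
        · exact hpx h
    obtain ⟨g, hg⟩ := h
    obtain ⟨f, hfx, hf⟩ := (c.crit _ hT).exists_eq x (g x)
    exact c.ncol (glue hxA hxB hAB
      (fun p q hpq => ⟨hpart p (c.supp p q hpq).1, hpart q (c.supp p q hpq).2⟩)
      hBA (fun _ => True) f g hfx hf hg (fun a _ h => absurd trivial h))
  have hres : Col (Res D (S' \ {x})) 2 := by
    have hBS : B ⊂ S := ⟨fun s hs => hs.1, fun h => hxB (h c.hx)⟩
    refine (c.crit B hBS).mono ?_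
    rintro p q ⟨hpq, ⟨hp1, hp2⟩, ⟨hq1, hq2⟩⟩
    have hpx' : p ≠ x := hp2
    have hqx' : q ≠ x := hq2
    have hpB : p ∈ B := by
      rcases hp1 with h | h
      · exact h
      · exact absurd h hpx'
    have hqB : q ∈ B := by
      rcases hq1 with h | h
      · exact h
      · exact absurd h hqx'
    rcases hpq with h | h
    · exact ⟨h.1, hpB, hqB⟩
    · exact absurd h.1 hpx'
  have hgood : Good D S' x := by
    refine c.ih D S' x (Set.ncard_lt_ncard hS'S (Set.toFinite _)) ?_ ?_ (Or.inr rfl) hDcol hres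
    · rintro p q (h | h)
      · exact ⟨h.2.1, h.2.2⟩
      · exact ⟨Or.inr h.1, Or.inl h.2.1⟩
    · rintro p (h | h)
      · exact c.loop p h.1
      · have := h.2.1
        rw [h.1] at this
        exact hxB this
  -- path from `x` through `A` to a vertex of `B`
  have hpath : ∀ b, b ∈ B → (∃ a ∈ A, True ∧ E a b) → ∃ l, Pth E x l b ∧ ∀ z ∈ l, z ∈ A := by
    rintro b hb ⟨a, ha, _, hab⟩
    obtain ⟨l, hl⟩ := exists_pth' (c.strong c.hx ha.1) (fun h => hxA (h ▸ ha))
    have hlA : ∀ z ∈ l, z ∈ A := by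
      refine hl.forall_int_of_coclosed (P := fun z => z ∈ A) ha ?_
      intro p q hq hpq
      rcases hpart p (c.supp p q hpq).1 with h | h | h
      · exact Or.inl h
      · exact absurd hq (hBA p q h hpq)
      · exact Or.inr h
    refine ⟨l ++ [a], hl.snoc hab (fun h => hxB (h ▸ hb)) (fun h => hAB a ha (h ▸ hb))
      (fun h => hAB b (hlA b h) hb), ?_⟩
    intro z hz
    rcases mem_append.1 hz with h | h
    · exact hlA z h
    · simp at h; rw [h]; exact ha
  have hAS' : ∀ z, z ∈ A → z ∉ S' := by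
    rintro z hz (h | h)
    · exact hAB z hz h
    · exact hxA (h ▸ hz)
  obtain ⟨w, hw⟩ := hgood
  obtain ⟨b₁, b₂, hK⟩ := hw.out_two x
  apply hng
  -- main case distinction
  have main : ∀ b₁ b₂, HasK3 (fun p q => (D p q ∨ (p = x ∧ q = w)) ∧ (p = x → q = b₁ ∨ q = b₂)) S' →
      (b₁ ∈ B ∧ ∃ a ∈ A, True ∧ E a b₁) → Good E S x := by
    intro b₁ b₂ hK hb
    obtain ⟨l, hl, hlA⟩ := hpath b₁ hb.1 hb.2
    have hK' : HasK3 (fun p q => (E p q ∨ (p = x ∧ q = b₂)) ∨ (p = x ∧ q = b₁)) S' := by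
      refine hK.mono ?_ (subset_refl _)
      rintro p q _ _ _ ⟨h1, h2⟩
      by_cases hp : p = x
      · rcases h2 hp with h | h
        · exact Or.inr ⟨hp, h⟩
        · exact Or.inl (Or.inr ⟨hp, h⟩)
      · rcases h1 with (h1 | h1) | h1
        · exact Or.inl (Or.inl h1.1)
        · exact absurd h1.1 hp
        · exact absurd h1.1 hp
    refine ⟨b₂, hK'.lift (E' := fun p q => E p q ∨ (p = x ∧ q = b₂)) (fun _ _ _ _ _ h => h) l
      (hl.1.imp (fun _ _ h => Or.inl h)) hl.nodup_int (fun z hz => hAS' z (hlA z hz))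
      hS'S.1 (fun z hz => (hlA z hz).1)⟩
  by_cases c1 : b₁ ∈ B ∧ ∃ a ∈ A, True ∧ E a b₁
  · exact main b₁ b₂ hK c1
  by_cases c2 : b₂ ∈ B ∧ ∃ a ∈ A, True ∧ E a b₂
  · refine main b₂ b₁ (hK.mono ?_ (subset_refl _)) c2
    rintro p q _ _ _ ⟨h1, h2⟩
    exact ⟨h1, fun h => (h2 h).symm⟩
  · refine ⟨w, hK.mono ?_ hS'S.1⟩
    rintro p q _ _ _ ⟨h1, h2⟩
    rcases h1 with (h1 | h1) | h1
    · exact Or.inl h1.1
    · exfalso
      rcases h2 h1.1 with h | h
      · exact c1 (h ▸ h1.2)
      · exact c2 (h ▸ h1.2)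
    · exact Or.inr h1

/-- No vertex separates a nonempty set from the root. -/
theorem Ctx.step2 [Finite V] (c : Ctx E S x) (hng : ¬ Good E S x) {w₀ z₀ : V} (hw₀ : w₀ ∈ S)
    (hwx : w₀ ≠ x) (hzx : z₀ ≠ x) (hwz : w₀ ≠ z₀) :
    ReflTransGen (fun a b => E a b ∧ a ≠ z₀ ∧ b ≠ z₀) w₀ x := by
  classical
  by_cases hz₀ : z₀ ∈ S
  swap
  · have := c.strong hw₀ c.hx
    refine ReflTransGen.mono ?_ _ _ this
    intro a b hab
    obtain ⟨ha, hb⟩ := c.supp a b hab
    exact ⟨hab, fun h => hz₀ (h ▸ ha), fun h => hz₀ (h ▸ hb)⟩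
  by_contra hcon
  let Valid : V × Set V → Prop := fun t => t.1 ∈ S ∧ t.1 ≠ x ∧ t.2 ⊆ S ∧ t.2.Nonempty ∧ t.1 ∉ t.2 ∧
    x ∉ t.2 ∧ ∀ b ∈ t.2, ∀ q, E b q → q ∈ t.2 ∨ q = t.1
  have hfin : ({t | Valid t} : Set (V × Set V)).Finite := Set.toFinite _
  have hne : ({t | Valid t} : Set (V × Set V)).Nonempty := by
    refine ⟨(z₀, {b | b ∈ S ∧ b ≠ z₀ ∧ ReflTransGen (fun a b => E a b ∧ a ≠ z₀ ∧ b ≠ z₀) w₀ b}), ?_⟩
    refine ⟨hz₀, hzx, fun s hs => hs.1, ⟨w₀, hw₀, hwz, ReflTransGen.refl⟩, fun h => h.2.1 rfl,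
      fun h => hcon h.2.2, ?_⟩
    intro b hb q hbq
    by_cases h1 : q = z₀
    · exact Or.inr h1
    · exact Or.inl ⟨(c.supp b q hbq).2, h1, hb.2.2.tail ⟨hbq, hb.2.1, h1⟩⟩
  obtain ⟨⟨v, B⟩, hvalid, hmax⟩ := Set.exists_max_image _ (fun t => t.2.ncard) hfin hne
  obtain ⟨hv, hvx, hBS, hBne, hvB, hxB, hBcl⟩ := hvalid
  simp only at hv hvx hBS hBne hvB hxB hBcl
  set A : Set V := {a | a ∈ S ∧ a ≠ v ∧ a ∉ B} with hA
  have hxA : x ∈ A := ⟨c.hx, fun h => hvx h.symm, hxB⟩
  have hvA : v ∉ A := fun h => h.2.1 rfl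
  have hAB : ∀ p, p ∈ A → p ∉ B := fun p h => h.2.2
  have hpart : ∀ s, s ∈ S → s ∈ A ∨ s ∈ B ∨ s = v := by
    intro s hs
    by_cases h1 : s = v
    · exact Or.inr (Or.inr h1)
    · by_cases h2 : s ∈ B
      · exact Or.inr (Or.inl h2)
      · exact Or.inl ⟨hs, h1, h2⟩
  have hBA : ∀ p q, p ∈ B → E p q → q ∉ A := by
    intro p q hp hpq hq
    rcases hBcl p hp q hpq with h | h
    · exact hAB q hq h
    · exact hq.2.1 h
  have hAcl : ∀ p q, q ∈ A → E p q → p ∈ A ∨ p = v := by
    intro p q hq hpq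
    rcases hpart p (c.supp p q hpq).1 with h | h | h
    · exact Or.inl h
    · exact absurd hq (hBA p q h hpq)
    · exact Or.inr h
  obtain ⟨b', hb'⟩ := hBne
  -- the two sides are proper subsets
  have hTA : {s | s ∈ A ∨ s = v} ⊂ S := by
    refine ⟨?_, ?_⟩
    · rintro s (hs | rfl)
      · exact hs.1
      · exact hv
    · intro h
      rcases h (hBS hb') with h | h
      · exact hAB _ h hb'
      · exact hvB (h ▸ hb')
  have hTB : {s | s ∈ B ∨ s = v} ⊂ S := by
    refine ⟨?_, ?_⟩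
    · rintro s (hs | rfl)
      · exact hBS hs
      · exact hv
    · intro h
      rcases h hxA.1 with h | h
      · exact hxB h
      · exact hvx h.symm
  -- path from `v` to `x` through `A`
  obtain ⟨lx, hlx⟩ := exists_pth' (c.strong hv c.hx) hvx
  have hlxA : ∀ z ∈ lx, z ∈ A :=
    hlx.forall_int_of_coclosed (P := fun z => z ∈ A) hxA hAcl
  set F : V → V → Prop := fun p q => (E p q ∧ (p ∈ A ∨ p = v) ∧ (q ∈ A ∨ q = v)) ∨
    (p = x ∧ q = v) with hF
  by_cases hβ : ¬ Col F 2 ∧ ∃ b ∈ B, E x b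
  · -- case β
    obtain ⟨hFcol, b₀, hb₀, hxb₀⟩ := hβ
    have hgood : Good F {s | s ∈ A ∨ s = v} x := by
      refine c.ih F _ x (Set.ncard_lt_ncard hTA (Set.toFinite _)) ?_ ?_ (Or.inl hxA) hFcol ?_
      · rintro p q (h | h)
        · exact ⟨h.2.1, h.2.2⟩
        · exact ⟨Or.inl (h.1 ▸ hxA), Or.inr h.2⟩
      · rintro p (h | h)
        · exact c.loop p h.1
        · exact hvx (h.2.symm.trans h.1)
      · refine (c.crit _ hTA).mono ?_
        rintro p q ⟨hpq, ⟨hp1, hp2⟩, ⟨hq1, hq2⟩⟩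
        rcases hpq with h | h
        · exact ⟨h.1, hp1, hq1⟩
        · exact absurd h.1 hp2
    obtain ⟨w, hw⟩ := hgood
    have hxb₀' : x ≠ b₀ := fun h => hxB (h ▸ hb₀)
    have hb₀v : b₀ ≠ v := fun h => hvB (h ▸ hb₀)
    obtain ⟨l, hl⟩ := exists_pth' (c.strong (hBS hb₀) hv) hb₀v
    have hlB : ∀ z ∈ l, z ∈ B :=
      hl.forall_int_of_closed (P := fun z => z ∈ B) hb₀ (fun p q hp hpq => hBcl p hp q hpq)
    have hl' : Pth E x (b₀ :: l) v :=
      Pth.cons hxb₀ hl hxb₀' hvx.symm (fun h => hxB (hlB x h))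
    have hl'B : ∀ z ∈ b₀ :: l, z ∈ B := by
      intro z hz
      rcases mem_cons.1 hz with rfl | hz
      · exact hb₀
      · exact hlB z hz
    have hK' : HasK3 (fun p q => (E p q ∨ (p = x ∧ q = w)) ∨ (p = x ∧ q = v))
        {s | s ∈ A ∨ s = v} := by
      refine hw.mono ?_ (subset_refl _)
      rintro p q _ _ _ ((h | h) | h)
      · exact Or.inl (Or.inl h.1)
      · exact Or.inr h
      · exact Or.inl (Or.inr h)
    apply hng
    refine ⟨w, hK'.lift (E' := fun p q => E p q ∨ (p = x ∧ q = w)) (fun _ _ _ _ _ h => h) (b₀ :: l)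
      (hl'.1.imp (fun _ _ h => Or.inl h)) hl'.nodup_int ?_ hTA.1 (fun z hz => hBS (hl'B z hz))⟩
    rintro z hz (h | h)
    · exact hAB z h (hl'B z hz)
    · exact hvB (h ▸ hl'B z hz)
  · -- case α
    set D : V → V → Prop := fun p q => (E p q ∧ (p ∈ B ∨ p = v) ∧ (q ∈ B ∨ q = v)) ∨
      (p = v ∧ q ∈ B ∧ ∃ a ∈ A, a ≠ x ∧ E a q) with hD
    have hDcol : ¬ Col D 2 := by
      intro h
      obtain ⟨g, hg⟩ := h
      have hfex : ∃ f : V → Fin 2, f v = g v ∧
          (∀ u, ¬ TransGen (fun p q => (E p q ∧ (p ∈ A ∨ p = v) ∧ (q ∈ A ∨ q = v)) ∧ f p = f q) u u) ∧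
          ((∃ b ∈ B, E x b) →
            ¬ TransGen (fun p q => (E p q ∧ (p ∈ A ∨ p = v) ∧ (q ∈ A ∨ q = v)) ∧ f p = f q) v x) := by
        by_cases hxb : ∃ b ∈ B, E x b
        · have hFc : Col F 2 := by
            by_contra h
            exact hβ ⟨h, hxb⟩
          obtain ⟨f, hfv, hf⟩ := hFc.exists_eq v (g v)
          have hle : (fun p q => (E p q ∧ (p ∈ A ∨ p = v) ∧ (q ∈ A ∨ q = v)) ∧ f p = f q) ≤
              (fun p q => F p q ∧ f p = f q) := fun p q h => ⟨Or.inl h.1, h.2⟩
          refine ⟨f, hfv, ?_, ?_⟩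
          · intro u hu
            exact hf u (TransGen.mono hle u u hu)
          · intro _ hu
            have h1 : f v = f x := mono_const (fun p q h => h.2) hu
            exact hf v (TransGen.tail (TransGen.mono hle v x hu) ⟨Or.inr ⟨rfl, rfl⟩, h1.symm⟩)
        · obtain ⟨f, hfv, hf⟩ := (c.crit _ hTA).exists_eq v (g v)
          exact ⟨f, hfv, hf, fun h => absurd h hxb⟩
      obtain ⟨f, hfv, hf, hfx⟩ := hfex
      refine c.ncol (glue hvA hvB hAB
        (fun p q hpq => ⟨hpart p (c.supp p q hpq).1, hpart q (c.supp p q hpq).2⟩)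
        hBA (fun a => a ≠ x) f g hfv hf hg ?_)
      intro a _ ha hb
      have ha' : a = x := not_not.1 ha
      subst ha'
      exact hfx hb
    have hres : Col (Res D ({s | s ∈ B ∨ s = v} \ {v})) 2 := by
      refine (c.crit _ hTB).mono ?_
      rintro p q ⟨hpq, ⟨hp1, hp2⟩, ⟨hq1, hq2⟩⟩
      rcases hpq with h | h
      · exact ⟨h.1, hp1, hq1⟩
      · exact absurd h.1 hp2
    have hgood : Good D {s | s ∈ B ∨ s = v} v := by
      refine c.ih D _ v (Set.ncard_lt_ncard hTB (Set.toFinite _)) ?_ ?_ (Or.inr rfl) hDcol hres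
      · rintro p q (h | h)
        · exact ⟨h.2.1, h.2.2⟩
        · exact ⟨Or.inr h.1, Or.inl h.2.1⟩
      · rintro p (h | h)
        · exact c.loop p h.1
        · have := h.2.1
          rw [h.1] at this
          exact hvB this
    have hAS' : ∀ z, z ∈ A → z ∉ {s | s ∈ B ∨ s = v} := by
      rintro z hz (h | h)
      · exact hAB z hz h
      · exact hvA (h ▸ hz)
    -- single lift
    have single : ∀ b, HasK3 (fun p q => E p q ∨ (p = v ∧ q = b)) {s | s ∈ B ∨ s = v} →
        Good E S x := by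
      intro b hK
      by_cases hb : b ∈ B
      · have hxb : x ≠ b := fun h => hxB (h ▸ hb)
        have hvb : v ≠ b := fun h => hvB (h ▸ hb)
        have hp : Pth (fun p q => E p q ∨ (p = x ∧ q = b)) v (lx ++ [x]) b := by
          refine (hlx.mono (fun _ _ h => Or.inl h)).snoc (Or.inr ⟨rfl, rfl⟩) hvb hxb ?_
          intro h; exact hAB b (hlxA b h) hb
        have hpA : ∀ z ∈ lx ++ [x], z ∈ A := by
          intro z hz
          rcases mem_append.1 hz with h | h
          · exact hlxA z h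
          · simp at h; rw [h]; exact hxA
        exact ⟨b, hK.lift (E' := fun p q => E p q ∨ (p = x ∧ q = b)) (fun _ _ _ _ _ h => Or.inl h)
          (lx ++ [x]) hp.1 hp.nodup_int (fun z hz => hAS' z (hpA z hz)) hTB.1
          (fun z hz => (hpA z hz).1)⟩
      · refine ⟨x, hK.mono ?_ hTB.1⟩
        rintro p q _ hq hpq (h | h)
        · exact Or.inl h
        · rcases hq with hq | hq
          · exact absurd (h.2 ▸ hq) hb
          · exact absurd (h.1.trans hq.symm) hpq
    obtain ⟨w, hw⟩ := hgood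
    obtain ⟨b₁, b₂, hK⟩ := hw.out_two v
    apply hng
    have main : ∀ b₁ b₂, HasK3 (fun p q => (D p q ∨ (p = v ∧ q = w)) ∧ (p = v → q = b₁ ∨ q = b₂))
        {s | s ∈ B ∨ s = v} → (b₁ ∈ B ∧ ∃ a ∈ A, a ≠ x ∧ E a b₁) → Good E S x := by
      rintro b₁ b₂ hK ⟨hb₁, a, haA, hax, hab⟩
      have hvb₁ : v ≠ b₁ := fun h => hvB (h ▸ hb₁)
      have hav : a ≠ v := fun h => hvA (h ▸ haA)
      have hab' : a ≠ b₁ := fun h => hAB a haA (h ▸ hb₁)
      -- fan
      set r : V → V → Prop := fun p q => E p q ∧ (p ∈ A ∨ p = v) ∧ (q ∈ A ∨ q = v) with hr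
      have hfan := fan (r := r) (v := v) (x := x) (a := a) hvx ?_ ?_ hav
      · obtain ⟨l₁, l₂, p1, p2, ha1, hx2, hd, _⟩ := hfan
        have p1E : Pth E v l₁ x := p1.mono (fun _ _ h => h.1)
        have p2E : Pth E v l₂ a := p2.mono (fun _ _ h => h.1)
        have hl1A : ∀ z ∈ l₁, z ∈ A :=
          p1E.forall_int_of_coclosed (P := fun z => z ∈ A) hxA hAcl
        have hl2A : ∀ z ∈ l₂, z ∈ A :=
          p2E.forall_int_of_coclosed (P := fun z => z ∈ A) haA hAcl
        have q2 : Pth E v (l₂ ++ [a]) b₁ :=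
          p2E.snoc hab hvb₁ hab' (fun h => hAB b₁ (hl2A b₁ h) hb₁)
        have q2A : ∀ z ∈ l₂ ++ [a], z ∈ A := by
          intro z hz
          rcases mem_append.1 hz with h | h
          · exact hl2A z h
          · simp at h; rw [h]; exact haA
        have hK' : HasK3 (fun p q => (E p q ∨ (p = v ∧ q = b₂)) ∨ (p = v ∧ q = b₁))
            {s | s ∈ B ∨ s = v} := by
          refine hK.mono ?_ (subset_refl _)
          rintro p q _ _ _ ⟨h1, h2⟩
          by_cases hp : p = v
          · rcases h2 hp with h | h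
            · exact Or.inr ⟨hp, h⟩
            · exact Or.inl (Or.inr ⟨hp, h⟩)
          · rcases h1 with (h1 | h1) | h1
            · exact Or.inl (Or.inl h1.1)
            · exact absurd h1.1 hp
            · exact absurd h1.1 hp
        by_cases hb₂ : b₂ ∈ B
        · have hxb₂ : x ≠ b₂ := fun h => hxB (h ▸ hb₂)
          have hvb₂ : v ≠ b₂ := fun h => hvB (h ▸ hb₂)
          have hK2 : HasK3 (fun p q => E p q ∨ (p = v ∧ q = b₂))
              {s | (s ∈ B ∨ s = v) ∨ s ∈ l₂ ++ [a]} :=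
            hK'.lift (E' := fun p q => E p q ∨ (p = v ∧ q = b₂)) (fun _ _ _ _ _ h => h)
              (l₂ ++ [a]) (q2.1.imp (fun _ _ h => Or.inl h)) q2.nodup_int
              (fun z hz => hAS' z (q2A z hz)) (fun s hs => Or.inl hs) (fun z hz => Or.inr hz)
          have hp : Pth (fun p q => E p q ∨ (p = x ∧ q = b₂)) v (l₁ ++ [x]) b₂ := by
            refine (p1E.mono (fun _ _ h => Or.inl h)).snoc (Or.inr ⟨rfl, rfl⟩) hvb₂ hxb₂ ?_
            intro h; exact hAB b₂ (hl1A b₂ h) hb₂
          refine ⟨b₂, hK2.lift (E' := fun p q => E p q ∨ (p = x ∧ q = b₂))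
            (fun _ _ _ _ _ h => Or.inl h) (l₁ ++ [x]) hp.1 hp.nodup_int ?_ ?_ ?_⟩
          · rintro z hz ((h | h) | h)
            · rcases mem_append.1 hz with hz | hz
              · exact hAB z (hl1A z hz) h
              · simp at hz; rw [hz] at h; exact hxB h
            · rcases mem_append.1 hz with hz | hz
              · exact hvA (h ▸ hl1A z hz)
              · simp at hz; exact hvx (h.symm.trans hz)
            · rcases mem_append.1 hz with hz | hz
              · rcases mem_append.1 h with h | h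
                · exact hd z hz h
                · simp at h; rw [h] at hz; exact ha1 hz
              · simp at hz
                rcases mem_append.1 h with h | h
                · rw [hz] at h; exact hx2 h
                · simp at h; exact hax (h.symm.trans hz)
          · rintro s (h | h)
            · exact hTB.1 h
            · exact (q2A s h).1
          · intro z hz
            rcases mem_append.1 hz with hz | hz
            · exact (hl1A z hz).1
            · simp at hz; rw [hz]; exact c.hx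
        · refine ⟨x, hK'.lift (E' := fun p q => E p q ∨ (p = x ∧ q = x)) ?_
            (l₂ ++ [a]) (q2.1.imp (fun _ _ h => Or.inl h)) q2.nodup_int
            (fun z hz => hAS' z (q2A z hz)) hTB.1 (fun z hz => (q2A z hz).1)⟩
          rintro p q _ hq hpq (h | h)
          · exact Or.inl h
          · rcases hq with hq | hq
            · exact absurd (h.2 ▸ hq) hb₂
            · exact absurd (h.1.trans hq.symm) hpq
      · -- no vertex `z` of `A` separates `v` from `x`
        intro z hzv hzx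
        by_cases hzA : z ∈ A
        swap
        · have hmono : ∀ z' ∈ lx, z' ∈ A := hlxA
          have hrx : Pth r v lx x := by
            refine ⟨?_, hlx.2⟩
            rw [List.isChain_iff_forall_rel_of_append_cons_cons]
            intro p q m₁ m₂ e
            have h1 := List.isChain_iff_forall_rel_of_append_cons_cons.1 hlx.1 e
            have hmem : ∀ t ∈ v :: (lx ++ [x]), t ∈ A ∨ t = v := by
              intro t ht
              simp only [mem_cons, mem_append, not_mem_nil, or_false] at ht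
              rcases ht with h | h | h
              · exact Or.inr h
              · exact Or.inl (hlxA t h)
              · exact Or.inl (h ▸ hxA)
            refine ⟨h1, hmem p ?_, hmem q ?_⟩
            · rw [e]; simp
            · rw [e]; simp
          refine ReflTransGen.mono ?_ _ _ hrx.reflTransGen
          intro p q h
          refine ⟨h, ?_, ?_⟩
          · rintro rfl
            rcases h.2.1 with h | h
            · exact hzA h
            · exact hzv h
          · rintro rfl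
            rcases h.2.2 with h | h
            · exact hzA h
            · exact hzv h
        by_contra hcon
        set B' : Set V := {s | s ∈ B ∨ s = v ∨ (s ∈ A ∧ s ≠ z ∧
          ReflTransGen (fun p q => r p q ∧ p ≠ z ∧ q ≠ z) v s)} with hB'
        have hval : Valid (z, B') := by
          refine ⟨hzA.1, hzx, ?_, ⟨v, Or.inr (Or.inl rfl)⟩, ?_, ?_, ?_⟩
          · rintro s (h | h | h)
            · exact hBS h
            · rw [h]; exact hv
            · exact h.1.1
          · rintro (h | h | h)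
            · exact hAB z hzA h
            · exact hzv h
            · exact h.2.1 rfl
          · rintro (h | h | h)
            · exact hxB h
            · exact hvx h.symm
            · exact hcon h.2.2
          · rintro b hb q hbq
            by_cases hqz : q = z
            · exact Or.inr hqz
            left
            rcases hpart q (c.supp b q hbq).2 with h | h | h
            · -- q ∈ A
              have hbA : b ∈ A ∨ b = v := hAcl b q h hbq
              rcases hb with hb | hb | hb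
              · exact absurd h (hBA b q hb hbq)
              · subst hb
                refine Or.inr (Or.inr ⟨h, hqz, ReflTransGen.single
                  ⟨⟨hbq, Or.inr rfl, Or.inl h⟩, fun e => hzv e.symm, hqz⟩⟩)
              · exact Or.inr (Or.inr ⟨h, hqz, hb.2.2.tail ⟨⟨hbq, hbA, Or.inl h⟩, hb.2.1, hqz⟩⟩)
            · exact Or.inl h
            · exact Or.inr (Or.inl h)
        have hlt : B.ncard < B'.ncard := by
          refine Set.ncard_lt_ncard ⟨fun s hs => Or.inl hs, fun h => hvB (h (Or.inr (Or.inl rfl)))⟩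
            (Set.toFinite _)
        exact absurd (hmax (z, B') hval) (not_le.2 hlt)
      · -- `v` reaches `a` avoiding `x` inside `A ∪ {v}`
        have h0 := c.step1 hng hv haA.1 hvx hax
        have hgen : ∀ t, ReflTransGen (fun p q => E p q ∧ p ≠ x ∧ q ≠ x) v t →
            (t ∈ A ∨ t = v) → ReflTransGen (fun p q => r p q ∧ p ≠ x ∧ q ≠ x) v t := by
          intro t ht
          induction ht with
          | refl => intro _; exact ReflTransGen.refl
          | @tail s t _ hst ih =>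
            intro htA
            rcases htA with htA | rfl
            · have hs := hAcl s t htA hst.1
              exact (ih hs).tail ⟨⟨hst.1, hs, Or.inl htA⟩, hst.2⟩
            · exact ReflTransGen.refl
        exact hgen a h0 (Or.inl haA)
    by_cases c1 : b₁ ∈ B ∧ ∃ a ∈ A, a ≠ x ∧ E a b₁
    · exact main b₁ b₂ hK c1
    by_cases c2 : b₂ ∈ B ∧ ∃ a ∈ A, a ≠ x ∧ E a b₂
    · refine main b₂ b₁ (hK.mono ?_ (subset_refl _)) c2
      rintro p q _ _ _ ⟨h1, h2⟩
      exact ⟨h1, fun h => (h2 h).symm⟩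
    · refine single w (hK.mono ?_ (subset_refl _))
      rintro p q _ _ _ ⟨h1, h2⟩
      rcases h1 with (h1 | h1) | h1
      · exact Or.inl h1.1
      · exfalso
        rcases h2 h1.1 with h | h
        · exact c1 (h ▸ h1.2)
        · exact c2 (h ▸ h1.2)
      · exact Or.inr h1

end Pool.Agent.Mader
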