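import Pool.Agent.Mader.Main

set_option autoImplicit false

namespace Pool.Agent.Mader

open List Relation

variable {V : Type*}

theorem Pth.res {r : V → V → Prop} {a b : V} {l : List V} {P : V → Prop} (h : Pth r a l b)
    (ha : P a) (hl : ∀ z ∈ l, P z) (hb : P b) : Pth (fun p q => r p q ∧ P p ∧ P q) a l b := by
  refine ⟨?_, h.2⟩
  rw [isChain_iff_nxt]
  intro p q hpq
  have hm : ∀ z, z ∈ a :: (l ++ [b]) → P z := by
    intro z hz
    simp only [mem_cons, mem_append, not_mem_nil, or_false] at hz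
    rcases hz with rfl | hz | rfl
    · exact ha
    · exact hl z hz
    · exact hb
  exact ⟨isChain_iff_nxt.1 h.1 p q hpq, hm p hpq.left_mem, hm q hpq.right_mem⟩

/-- The first arc of a path from `v` to `a`, and the rest, which does not come back to `v`. -/
theorem exists_first {E : V → V → Prop} {v a : V} (h : ReflTransGen E v a) (hva : v ≠ a) :
    ∃ w, E v w ∧ w ≠ v ∧ ReflTransGen (fun p q => E p q ∧ p ≠ v ∧ q ≠ v) w a := by
  obtain ⟨l, hl⟩ := exists_pth' h hva
  cases l with
  | nil =>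
    refine ⟨a, ?_, hva.symm, ReflTransGen.refl⟩
    have := hl.1
    simpa using this
  | cons c l =>
    have h' := Pth.split (l₁ := []) (q := c) (l₂ := l) (by simpa using hl)
    have h1 : E v c := by
      have := h'.1.1
      simpa using this
    have hvl := hl.not_mem_left
    simp only [mem_cons, not_or] at hvl
    refine ⟨c, h1, Ne.symm hvl.1, ?_⟩
    have h2 := h'.2.res (P := fun z => z ≠ v) (Ne.symm hvl.1)
      (fun z hz e => hvl.2 (e ▸ hz)) hva.symm
    exact h2.reflTransGen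

/-- The hypotheses of the degree theorem: every vertex reaches `a`, all vertices except `a` have
out-degree at least two, and `a` has an out-neighbour. -/
structure T6H (E : V → V → Prop) (S : Set V) (a : V) : Prop where
  supp : ∀ p q, E p q → p ∈ S ∧ q ∈ S
  loop : ∀ p, ¬ E p p
  ha : a ∈ S
  reach : ∀ v ∈ S, ReflTransGen E v a
  deg : ∀ v ∈ S, v ≠ a → ∃ p q, p ≠ q ∧ E v p ∧ E v q
  dega : ∃ p, E a p

theorem T6H.exists_min [Finite V] {E : V → V → Prop} {S : Set V} {a : V} (h : T6H E S a) :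
    ∃ E' : V → V → Prop, (∀ p q, E' p q → E p q) ∧ T6H E' S a ∧
      (∀ v ∈ S, v ≠ a → ∃ p q, ∀ z, E' v z → z = p ∨ z = q) ∧ (∃ p, ∀ z, E' a z → z = p) := by
  classical
  have hfin : ({E' : V → V → Prop | E' ≤ E ∧ T6H E' S a}).Finite := Set.toFinite _
  obtain ⟨E', hE'⟩ := hfin.exists_minimal ⟨E, le_refl _, h⟩
  obtain ⟨⟨hle, hT⟩, hmin⟩ := hE'
  refine ⟨E', fun p q hpq => hle p q hpq, hT, ?_, ?_⟩
  swap
  · obtain ⟨w, haw⟩ := hT.dega
    refine ⟨w, ?_⟩
    let E2 : V → V → Prop := fun p q => E' p q ∧ (p = a → q = w)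
    have hle2 : E2 ≤ E' := fun p q h => h.1
    have hT2 : T6H E2 S a := by
      refine ⟨fun p q h => hT.supp p q h.1, fun p h => hT.loop p h.1, hT.ha, ?_, ?_, ?_⟩
      · intro u hu
        have hua := hT.reach u hu
        induction hua using ReflTransGen.head_induction_on with
        | refl => exact ReflTransGen.refl
        | @head p c hpc _ ih =>
          by_cases e : p = a
          · rw [e]
          · exact ReflTransGen.head (show E2 p c from ⟨hpc, fun e' => absurd e' e⟩)
              (ih (hT.supp p c hpc).2)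
      · intro u hu hua
        obtain ⟨p, q, hpq, h1, h2⟩ := hT.deg u hu hua
        exact ⟨p, q, hpq, ⟨h1, fun e' => absurd e' hua⟩, ⟨h2, fun e' => absurd e' hua⟩⟩
      · exact ⟨w, haw, fun _ => rfl⟩
    have hge : E' ≤ E2 := hmin ⟨le_trans hle2 hle, hT2⟩ hle2
    intro z hz
    exact (hge a z hz).2 rfl
  intro v hv hva
  obtain ⟨w, hvw, hwv, hwa⟩ := exists_first (hT.reach v hv) hva
  obtain ⟨p, q, hpq, hvp, hvq⟩ := hT.deg v hv hva
  obtain ⟨x, hxw, hvx⟩ : ∃ x, x ≠ w ∧ E' v x := by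
    by_cases e : p = w
    · exact ⟨q, fun e' => hpq (e.trans e'.symm), hvq⟩
    · exact ⟨p, e, hvp⟩
  refine ⟨w, x, ?_⟩
  let E2 : V → V → Prop := fun p q => E' p q ∧ (p = v → q = w ∨ q = x)
  have hle2 : E2 ≤ E' := fun p q h => h.1
  have hva2 : ReflTransGen E2 v a := by
    refine ReflTransGen.head (show E2 v w from ⟨hvw, fun _ => Or.inl rfl⟩) ?_
    have hle' : (fun p q => E' p q ∧ p ≠ v ∧ q ≠ v) ≤ E2 :=
      fun p q h => ⟨h.1, fun e => absurd e h.2.1⟩
    exact ReflTransGen.mono hle' w a hwa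
  have hT2 : T6H E2 S a := by
    refine ⟨fun p q h => hT.supp p q h.1, fun p h => hT.loop p h.1, hT.ha, ?_, ?_, ?_⟩
    · intro u hu
      have hua := hT.reach u hu
      induction hua using ReflTransGen.head_induction_on with
      | refl => exact ReflTransGen.refl
      | @head p c hpc _ ih =>
        by_cases e : p = v
        · rw [e]; exact hva2
        · exact ReflTransGen.head (show E2 p c from ⟨hpc, fun e' => absurd e' e⟩)
            (ih (hT.supp p c hpc).2)
    · intro u hu hua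
      by_cases e : u = v
      · subst e
        exact ⟨w, x, hxw.symm, ⟨hvw, fun _ => Or.inl rfl⟩, ⟨hvx, fun _ => Or.inr rfl⟩⟩
      · obtain ⟨p, q, hpq, h1, h2⟩ := hT.deg u hu hua
        exact ⟨p, q, hpq, ⟨h1, fun e' => absurd e' e⟩, ⟨h2, fun e' => absurd e' e⟩⟩
    · obtain ⟨p, hp⟩ := hT.dega
      exact ⟨p, hp, fun e => absurd e.symm hva⟩
  have hge : E' ≤ E2 := hmin ⟨le_trans hle2 hle, hT2⟩ hle2
  intro z hz
  exact (hge v z hz).2 rfl

/-- `E` avoiding the vertex `z`. -/
def Av (E : V → V → Prop) (z : V) : V → V → Prop := fun p q => E p q ∧ p ≠ z ∧ q ≠ z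

variable {E : V → V → Prop} {S : Set V} {a : V}

/-- Vertices that do not reach `a` when `s` is deleted. -/
def Wd (E : V → V → Prop) (S : Set V) (a s : V) : Set V :=
  {v | v ∈ S ∧ v ≠ s ∧ ¬ ReflTransGen (Av E s) v a}

theorem Wd.closed (h : T6H E S a) {s v q : V} (hv : v ∈ Wd E S a s) (hvq : E v q) :
    q ∈ Wd E S a s ∨ q = s := by
  by_cases hqs : q = s
  · exact Or.inr hqs
  · left
    refine ⟨(h.supp v q hvq).2, hqs, ?_⟩
    intro hqa
    exact hv.2.2 (ReflTransGen.head (show Av E s v q from ⟨hvq, hv.2.1, hqs⟩) hqa)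

theorem Wd.reach (h : T6H E S a) {s v : V} (hv : v ∈ Wd E S a s) :
    ReflTransGen (fun p q => E p q ∧ p ∈ Wd E S a s ∧ (q ∈ Wd E S a s ∨ q = s)) v s := by
  have hva := h.reach v hv.1
  induction hva using ReflTransGen.head_induction_on with
  | refl => exact absurd ReflTransGen.refl hv.2.2
  | @head p c hpc _ ih =>
    rcases Wd.closed h hv hpc with hc | hc
    · exact ReflTransGen.head ⟨hpc, hv, Or.inl hc⟩ (ih hc)
    · subst hc
      exact ReflTransGen.single ⟨hpc, hv, Or.inr rfl⟩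

theorem Av.swap (h : T6H E S a) {s z : V} (hs : s ∈ S) (hsa : s ≠ a) (hzs : z ≠ s) (hza : z ≠ a)
    (hsz : ¬ ReflTransGen (Av E z) s a) : Wd E S a s ⊆ Wd E S a z ∧ s ∈ Wd E S a z ∧ s ∉ Wd E S a s := by
  -- `s` reaches `a` without meeting `Wd s`
  have hsW : z ∉ Wd E S a s := by
    intro hz
    obtain ⟨w, hsw, hws, hwa⟩ := exists_first (h.reach s hs) hsa
    apply hsz
    refine ReflTransGen.head (b := w) ?_ ?_
    · refine ⟨hsw, hzs.symm, ?_⟩
      rintro rfl
      exact hz.2.2 hwa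
    · -- the path from `w` to `a` avoids `s`, hence `Wd s`, hence `z`
      clear hsw hws
      induction hwa using ReflTransGen.head_induction_on with
      | refl => exact ReflTransGen.refl
      | @head p c hpc hca ih =>
        refine ReflTransGen.head (b := c) ⟨hpc.1, ?_, ?_⟩ ih
        · rintro rfl
          exact hz.2.2 (ReflTransGen.head hpc hca)
        · rintro rfl
          exact hz.2.2 hca
  refine ⟨?_, ⟨hs, hzs.symm, hsz⟩, fun h' => h'.2.1 rfl⟩
  intro v hv
  refine ⟨hv.1, ?_, ?_⟩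
  · rintro rfl
    exact hsW hv
  · intro hva
    apply hsz
    -- `v` reaches `a` avoiding `z`, so it passes through `s`
    clear hsz
    induction hva using ReflTransGen.head_induction_on with
    | refl => exact absurd ReflTransGen.refl hv.2.2
    | @head p c hpc hca ih =>
      rcases Wd.closed h hv hpc.1 with hc | hc
      · exact ih hc
      · rw [← hc]; exact hca

theorem Pth.tail_av {l : List V} {s z b : V} (h : Pth E s l b) (hz : z ∈ l) :
    ReflTransGen (Av E s) z b := by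
  obtain ⟨l₁, l₂, rfl⟩ := List.append_of_mem hz
  have hs := h.not_mem_left
  have hne := h.ne
  have h2 := h.split.2.res (P := fun y => y ≠ s) (by rintro rfl; exact hs (by simp))
    (fun y hy => by rintro rfl; exact hs (by simp [hy])) hne.symm
  exact h2.reflTransGen

theorem Pth.mem_supp (hsupp : ∀ p q, E p q → p ∈ S ∧ q ∈ S) {l : List V} {s b : V}
    (h : Pth E s l b) : ∀ z ∈ l, z ∈ S :=
  h.forall_int (P := fun z => z ∈ S) (fun p q hpq => (hsupp p q hpq).2)

theorem T6H.step1_fan [Finite V] (h : T6H E S a)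
    (ih : ∀ (E' : V → V → Prop) (S' : Set V) (a' : V), S'.ncard < S.ncard → T6H E' S' a' →
      Good E' S' a') {s w : V} {l₁ l₂ : List V} (hs : s ∈ S) (hsa : s ≠ a)
    (hw : w ∈ Wd E S a s) (p1 : Pth E s l₁ a) (p2 : Pth E s l₂ w) (hw1 : w ∉ l₁) (ha2 : a ∉ l₂)
    (hd : ∀ z ∈ l₁, z ∉ l₂) : Good E S a := by
  classical
  have haW : a ∉ Wd E S a s := fun h' => h'.2.2 ReflTransGen.refl
  have hsW : s ∉ Wd E S a s := fun h' => h'.2.1 rfl
  obtain ⟨m₁, w₀, m₂, hm, hw₀, hm₁⟩ := first_split (fun z => z ∈ Wd E S a s) (l₂ ++ [w])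
    ⟨w, by simp, hw⟩
  have hmem : ∀ z, z ∈ m₁ ∨ z = w₀ → z ∈ l₂ ∨ z = w := by
    intro z hz
    have : z ∈ l₂ ++ [w] := by
      rw [hm]
      rcases hz with hz | hz
      · simp [hz]
      · simp [hz]
    simpa using this
  have p3 : Pth E s m₁ w₀ := by
    obtain ⟨hc, hn⟩ := p2
    have e : s :: (l₂ ++ [w]) = (s :: (m₁ ++ [w₀])) ++ m₂ := by rw [hm]; simp
    rw [e] at hc hn
    exact ⟨hc.left_of_append, (nodup_append.1 hn).1⟩
  have hm1l : ∀ z ∈ m₁, z ∉ l₁ := by
    intro z hz hz1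
    rcases hmem z (Or.inl hz) with e | e
    · exact hd z hz1 e
    · exact hw1 (e ▸ hz1)
  have ham : a ∉ m₁ := by
    intro hz
    rcases hmem a (Or.inl hz) with e | e
    · exact ha2 e
    · exact haW (e ▸ hw)
  have hl1W : ∀ z ∈ l₁, z ∉ Wd E S a s := fun z hz hzW => hzW.2.2 (p1.tail_av hz)
  have hl1s : s ∉ l₁ := p1.not_mem_left
  have hm1s : s ∉ m₁ := p3.not_mem_left
  set W : Set V := Wd E S a s with hWdef
  have hWS : W ⊆ S := fun z hz => hz.1
  have hsub : insert s W ⊆ S := by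
    intro z hz
    rcases hz with rfl | hz
    · exact hs
    · exact hWS hz
  have haS' : a ∉ insert s W := by
    rintro (e | e)
    · exact hsa e.symm
    · exact haW e
  have hcard : (insert s W).ncard < S.ncard :=
    Set.ncard_lt_ncard ⟨hsub, fun h' => haS' (h' h.ha)⟩ (Set.toFinite _)
  let E' : V → V → Prop := fun p q =>
    (E p q ∧ p ∈ insert s W ∧ q ∈ insert s W) ∨ (p = s ∧ q = w₀)
  have hclos : ∀ v q, v ∈ W → E v q → q ∈ insert s W := by
    intro v q hv hvq
    rcases Wd.closed h hv hvq with e | e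
    · exact Or.inr e
    · exact Or.inl e
  have hT : T6H E' (insert s W) s := by
    refine ⟨?_, ?_, Or.inl rfl, ?_, ?_, ⟨w₀, Or.inr ⟨rfl, rfl⟩⟩⟩
    · rintro p q (h' | ⟨rfl, rfl⟩)
      · exact h'.2
      · exact ⟨Or.inl rfl, Or.inr hw₀⟩
    · rintro p (h' | ⟨h1, h2⟩)
      · exact h.loop p h'.1
      · apply hsW; rw [← h1, h2]; exact hw₀
    · rintro v (rfl | hv)
      · exact ReflTransGen.refl
      · have hle : (fun p q => E p q ∧ p ∈ Wd E S a s ∧ (q ∈ Wd E S a s ∨ q = s)) ≤ E' := by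
          rintro p q ⟨h1, h2, h3⟩
          refine Or.inl ⟨h1, Or.inr h2, ?_⟩
          rcases h3 with h3 | h3
          · exact Or.inr h3
          · exact Or.inl h3
        exact ReflTransGen.mono hle v s (Wd.reach h hv)
    · rintro v (rfl | hv) hvs
      · exact absurd rfl hvs
      · have hva : v ≠ a := by rintro rfl; exact haW hv
        obtain ⟨p, q, hpq, h1, h2⟩ := h.deg v (hWS hv) hva
        exact ⟨p, q, hpq, Or.inl ⟨h1, Or.inr hv, hclos v p hv h1⟩,
          Or.inl ⟨h2, Or.inr hv, hclos v q hv h2⟩⟩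
  obtain ⟨b, hK⟩ := ih E' (insert s W) s hcard hT
  refine ⟨b, ?_⟩
  let S1 : Set V := {z | z ∈ insert s W ∨ z ∈ l₁ ∨ z = a}
  have hl1S := p1.mem_supp h.supp
  have hm1S := p3.mem_supp h.supp
  have hK1 : HasK3 (fun p q => (E p q ∨ (p = a ∧ q = b)) ∨ (p = s ∧ q = w₀)) S1 := by
    refine HasK3.lift (E := E') (u := s) (w := b) hK ?_ (l₁ ++ [a]) ?_ ?_ ?_ ?_ ?_
    · rintro p q _ _ _ (h' | h')
      · exact Or.inl (Or.inl h'.1)
      · exact Or.inr h'
    · have e : s :: ((l₁ ++ [a]) ++ [b]) = (s :: l₁) ++ a :: [b] := by simp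
      rw [e, isChain_split]
      refine ⟨?_, ?_⟩
      · have := p1.1
        have e2 : (s :: l₁) ++ [a] = s :: (l₁ ++ [a]) := by simp
        rw [e2]
        exact this.imp (fun p q hpq => Or.inl (Or.inl hpq))
      · simp
    · rw [nodup_append]
      refine ⟨p1.nodup_int, by simp, ?_⟩
      intro x hx y hy
      simp at hy
      rintro rfl
      exact p1.not_mem_right (hy ▸ hx)
    · intro z hz
      rcases mem_append.1 hz with hz | hz
      · rintro (e | e)
        · exact hl1s (e ▸ hz)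
        · exact hl1W z hz e
      · simp at hz
        rw [hz]; exact haS'
    · intro z hz; exact Or.inl hz
    · intro z hz
      rcases mem_append.1 hz with hz | hz
      · exact Or.inr (Or.inl hz)
      · simp at hz; exact Or.inr (Or.inr hz)
  refine HasK3.lift (u := s) (w := w₀) hK1 (fun p q _ _ _ h' => h') m₁ ?_ p3.nodup_int ?_ ?_ hm1S
  · exact p3.1.imp (fun p q hpq => Or.inl hpq)
  · rintro z hz ((e | e) | e | e)
    · exact hm1s (e ▸ hz)
    · exact hm₁ z hz e
    · exact hm1l z hz e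
    · exact ham (e ▸ hz)
  · rintro z (e | e | e)
    · exact hsub e
    · exact hl1S z e
    · rw [e]; exact h.ha

theorem T6H.step1_cut [Finite V] (h : T6H E S a)
    (ih : ∀ (E' : V → V → Prop) (S' : Set V) (a' : V), S'.ncard < S.ncard → T6H E' S' a' →
      Good E' S' a') {s w : V} (hs : s ∈ S) (hsa : s ≠ a) (hstr : ReflTransGen E a w)
    (hw : w ∈ Wd E S a s) (hno : ∀ z ∈ Wd E S a s, ¬ ReflTransGen (Av E a) s z) :
    Good E S a := by
  classical
  have haW : a ∉ Wd E S a s := fun h' => h'.2.2 ReflTransGen.refl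
  have hwa : a ≠ w := by rintro rfl; exact haW hw
  let T : Set V := {v | v ∈ S ∧ ReflTransGen (Av E a) s v}
  have hsT : s ∈ T := ⟨hs, ReflTransGen.refl⟩
  have haT : a ∉ T := by
    rintro ⟨_, h2⟩
    rcases ReflTransGen.cases_tail h2 with e | ⟨c, _, hc⟩
    · exact hsa e.symm
    · exact hc.2.2 rfl
  have hTcl : ∀ p q, p ∈ T → E p q → q ≠ a → q ∈ T := by
    intro p q hp hpq hqa
    refine ⟨(h.supp p q hpq).2, hp.2.tail ⟨hpq, ?_, hqa⟩⟩
    rintro rfl; exact haT hp
  have hTW : ∀ z ∈ Wd E S a s, z ∉ T := fun z hz hzT => hno z hz hzT.2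
  -- a path from `a` to `s` outside `T`
  obtain ⟨l, hl⟩ := exists_pth' hstr hwa
  have hlT : ∀ z ∈ l, z ∉ T := by
    intro z hz hzT
    have := hl.tail_av hz
    exact hno w hw (hzT.2.trans this)
  let G : V → V → Prop := fun p q => E p q ∧ p ∉ T ∧ (q = s ∨ q ∉ T)
  have hG1 : ReflTransGen G a w := by
    have h1 := hl.res (P := fun z => z ∉ T) haT hlT (hTW w hw)
    have hle : (fun p q => E p q ∧ p ∉ T ∧ q ∉ T) ≤ G := fun p q h => ⟨h.1, h.2.1, Or.inr h.2.2⟩
    exact ReflTransGen.mono hle a w h1.reflTransGen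
  have hG2 : ReflTransGen G w s := by
    have hle : (fun p q => E p q ∧ p ∈ Wd E S a s ∧ (q ∈ Wd E S a s ∨ q = s)) ≤ G := by
      rintro p q ⟨h1, h2, h3⟩
      refine ⟨h1, hTW p h2, ?_⟩
      rcases h3 with h3 | h3
      · exact Or.inr (hTW q h3)
      · exact Or.inl h3
    exact ReflTransGen.mono hle w s (Wd.reach h hw)
  obtain ⟨m, hm⟩ := exists_pth' (hG1.trans hG2) (Ne.symm hsa)
  have hmE : Pth E a m s := hm.mono (fun p q h => h.1)
  have hmT : ∀ z ∈ m, z ∉ insert a T := by
    intro z hz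
    have h1 := hm.forall_int (P := fun z => z = s ∨ z ∉ T) (fun p q h => h.2.2) z hz
    rintro (e | e)
    · exact hm.not_mem_left (e ▸ hz)
    · rcases h1 with h1 | h1
      · exact hm.not_mem_right (h1 ▸ hz)
      · exact h1 e
  have hsub : insert a T ⊆ S := by
    rintro z (rfl | hz)
    · exact h.ha
    · exact hz.1
  have hcard : (insert a T).ncard < S.ncard := by
    refine Set.ncard_lt_ncard ⟨hsub, fun h' => ?_⟩ (Set.toFinite _)
    rcases h' hw.1 with e | e
    · exact hwa e.symm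
    · exact hTW w hw e
  let E' : V → V → Prop := fun p q =>
    (E p q ∧ p ∈ insert a T ∧ q ∈ insert a T) ∨ (p = a ∧ q = s)
  have hclos : ∀ v q, v ∈ T → E v q → q ∈ insert a T := by
    intro v q hv hvq
    by_cases e : q = a
    · exact Or.inl e
    · exact Or.inr (hTcl v q hv hvq e)
  have hT : T6H E' (insert a T) a := by
    refine ⟨?_, ?_, Or.inl rfl, ?_, ?_, ⟨s, Or.inr ⟨rfl, rfl⟩⟩⟩
    · rintro p q (h' | ⟨rfl, rfl⟩)
      · exact h'.2
      · exact ⟨Or.inl rfl, Or.inr hsT⟩
    · rintro p (h' | ⟨h1, h2⟩)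
      · exact h.loop p h'.1
      · exact hsa (h2.symm.trans h1)
    · intro v hv
      have hvS : v ∈ S := hsub hv
      have hva := h.reach v hvS
      induction hva using ReflTransGen.head_induction_on with
      | refl => exact ReflTransGen.refl
      | @head p c hpc _ ihc =>
        by_cases e : p = a
        · rw [e]
        · have hpT : p ∈ T := by
            rcases hv with hv | hv
            · exact absurd hv e
            · exact hv
          have hc := hclos p c hpT hpc
          exact ReflTransGen.head (show E' p c from Or.inl ⟨hpc, Or.inr hpT, hc⟩) (ihc hc (hsub hc))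
    · rintro v (rfl | hv) hva
      · exact absurd rfl hva
      · obtain ⟨p, q, hpq, h1, h2⟩ := h.deg v hv.1 hva
        exact ⟨p, q, hpq, Or.inl ⟨h1, Or.inr hv, hclos v p hv h1⟩,
          Or.inl ⟨h2, Or.inr hv, hclos v q hv h2⟩⟩
  obtain ⟨b, hK⟩ := ih E' (insert a T) a hcard hT
  refine ⟨b, ?_⟩
  have hK' : HasK3 (fun p q => (E p q ∨ (p = a ∧ q = b)) ∨ (p = a ∧ q = s)) (insert a T) := by
    refine hK.mono ?_ (subset_refl _)
    rintro p q _ _ _ ((h' | h') | h')
    · exact Or.inl (Or.inl h'.1)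
    · exact Or.inr h'
    · exact Or.inl (Or.inr h')
  refine HasK3.lift (u := a) (w := s) hK' (fun p q _ _ _ h' => h') m ?_ hm.nodup_int hmT hsub
    (hmE.mem_supp h.supp)
  exact hmE.1.imp (fun p q hpq => Or.inl hpq)

/-- If some vertex other than `a` separates something from `a`, then we are done by induction. -/
theorem T6H.step1 [Finite V] (h : T6H E S a)
    (ih : ∀ (E' : V → V → Prop) (S' : Set V) (a' : V), S'.ncard < S.ncard → T6H E' S' a' →
      Good E' S' a') (hstr : ∀ v ∈ S, ReflTransGen E a v) (hng : ¬ Good E S a) :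
    ∀ s, s ≠ a → ∀ v ∈ S, v ≠ s → ReflTransGen (Av E s) v a := by
  classical
  intro s₀ hs₀a v₀ hv₀ hv₀s
  have hout : ∀ z, z ∉ S → ∀ v ∈ S, ReflTransGen (Av E z) v a := by
    intro z hz v hv
    have hle : E ≤ Av E z := by
      intro p q hpq
      refine ⟨hpq, ?_, ?_⟩
      · rintro rfl; exact hz (h.supp _ _ hpq).1
      · rintro rfl; exact hz (h.supp _ _ hpq).2
    exact ReflTransGen.mono hle v a (h.reach v hv)
  by_cases hs₀ : s₀ ∈ S
  swap
  · exact hout s₀ hs₀ v₀ hv₀
  by_contra hcon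
  obtain ⟨s, ⟨hs, hsa⟩, hmax⟩ := Set.exists_max_image {s | s ∈ S ∧ s ≠ a}
    (fun s => (Wd E S a s).ncard) (Set.toFinite _) ⟨s₀, hs₀, hs₀a⟩
  have hne0 : 0 < (Wd E S a s₀).ncard := by
    rw [Set.ncard_pos (Set.toFinite _)]
    exact ⟨v₀, hv₀, hv₀s, hcon⟩
  have hne : (Wd E S a s).Nonempty := by
    rw [← Set.ncard_pos (Set.toFinite _)]
    exact lt_of_lt_of_le hne0 (hmax s₀ ⟨hs₀, hs₀a⟩)
  have key : ∀ z, z ≠ s → z ≠ a → ReflTransGen (fun p q => E p q ∧ p ≠ z ∧ q ≠ z) s a := by
    intro z hzs hza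
    by_cases hz : z ∈ S
    swap
    · exact hout z hz s hs
    by_contra hcz
    obtain ⟨h1, h2, h3⟩ := Av.swap h hs hsa hzs hza hcz
    have := hmax z ⟨hz, hza⟩
    have h4 : (Wd E S a s).ncard < (Wd E S a z).ncard :=
      Set.ncard_lt_ncard ⟨h1, fun h' => h3 (h' h2)⟩ (Set.toFinite _)
    omega
  by_cases hcase : ∃ w ∈ Wd E S a s, ReflTransGen (Av E a) s w
  · obtain ⟨w, hw, hsw⟩ := hcase
    obtain ⟨l₁, l₂, p1, p2, hw1, ha2, hd, _⟩ := fan hsa key hsw hw.2.1
    exact hng (h.step1_fan ih hs hsa hw p1 p2 hw1 ha2 hd)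
  · push Not at hcase
    obtain ⟨w, hw⟩ := hne
    exact hng (h.step1_cut ih hs hsa (hstr w hw.1) hw hcase)

/-- Some vertex has at most one in-neighbour. -/
theorem exists_indeg_one [Finite V] (h : T6H E S a)
    (h2 : ∀ v ∈ S, v ≠ a → ∃ p q, ∀ z, E v z → z = p ∨ z = q) (h1 : ∃ p, ∀ z, E a z → z = p) :
    ∃ u ∈ S, ∀ p q, E p u → E q u → p = q := by
  classical
  by_contra hcon
  push Not at hcon
  have := Fintype.ofFinite V
  let s : Finset V := Finset.univ.filter (fun v => v ∈ S)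
  have hmems : ∀ v, v ∈ s ↔ v ∈ S := by intro v; simp [s]
  have hsum := Finset.sum_card_bipartiteAbove_eq_sum_card_bipartiteBelow (s := s) (t := s) E
  have hbelow : ∀ u ∈ s, 2 ≤ (s.bipartiteBelow E u).card := by
    intro u hu
    obtain ⟨p, q, hp, hq, hpq⟩ := hcon u ((hmems u).1 hu)
    have hsub : ({p, q} : Finset V) ⊆ s.bipartiteBelow E u := by
      intro z hz
      simp only [Finset.mem_insert, Finset.mem_singleton] at hz
      rw [Finset.mem_bipartiteBelow, hmems]
      rcases hz with rfl | rfl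
      · exact ⟨(h.supp _ _ hp).1, hp⟩
      · exact ⟨(h.supp _ _ hq).1, hq⟩
    have := Finset.card_le_card hsub
    rwa [Finset.card_pair hpq] at this
  have habove : ∀ v ∈ s, (s.bipartiteAbove E v).card ≤ if v = a then 1 else 2 := by
    intro v hv
    split_ifs with hva
    · obtain ⟨p, hp⟩ := h1
      have hsub : s.bipartiteAbove E v ⊆ {p} := by
        intro z hz
        rw [Finset.mem_bipartiteAbove] at hz
        rw [hva] at hz
        simp [hp z hz.2]
      simpa using Finset.card_le_card hsub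
    · obtain ⟨p, q, hpq⟩ := h2 v ((hmems v).1 hv) hva
      have hsub : s.bipartiteAbove E v ⊆ {p, q} := by
        intro z hz
        rw [Finset.mem_bipartiteAbove] at hz
        simp only [Finset.mem_insert, Finset.mem_singleton]
        exact hpq z hz.2
      exact (Finset.card_le_card hsub).trans Finset.card_le_two
  have e1 : s.card * 2 ≤ ∑ u ∈ s, (s.bipartiteBelow E u).card := by
    have := Finset.card_nsmul_le_sum s (fun u => (s.bipartiteBelow E u).card) 2 hbelow
    simpa using this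
  have e2 : ∑ v ∈ s, (s.bipartiteAbove E v).card < s.card * 2 := by
    have ha : a ∈ s := (hmems a).2 h.ha
    have e3 := Finset.sum_lt_sum (s := s) (f := fun v => (s.bipartiteAbove E v).card)
      (g := fun _ => 2) (fun v hv => (habove v hv).trans (by split_ifs <;> omega))
      ⟨a, ha, lt_of_le_of_lt (habove a ha) (by simp)⟩
    simpa using e3
  omega

theorem third {x y : V} (p q : V) (hpq : p ≠ q) (hx : p ≠ x) (hx' : q ≠ x) :
    ∃ z, (z = p ∨ z = q) ∧ z ≠ x ∧ z ≠ y := by
  by_cases e : p = y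
  · exact ⟨q, Or.inr rfl, hx', fun e' => hpq (e.trans e'.symm)⟩
  · exact ⟨p, Or.inl rfl, hx, e⟩

/-- The last configuration: `t ↔ u`, `t → a`, `u → a`, a path from `a` to `t` avoiding `u`. -/
theorem last_config {t u : V} {l : List V} (hsupp : ∀ p q, E p q → p ∈ S ∧ q ∈ S)
    (htu : E t u) (hut : E u t) (hta : E t a) (hua : E u a) (hl : Pth E a l t) (hul : u ∉ l)
    (h1 : t ≠ u) (h2 : u ≠ a) : Good E S a := by
  refine ⟨u, ?_⟩
  have hta' := hl.ne
  have hlS := hl.mem_supp hsupp
  have hal := hl.not_mem_left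
  have htl := hl.not_mem_right
  let β : Fin 3 → V := ![a, t, u]
  let p : Fin 3 → Fin 3 → List V := fun i j => if i = 0 ∧ j = 1 then l else []
  have hβ0 : β 0 = a := rfl
  have hβ1 : β 1 = t := rfl
  have hβ2 : β 2 = u := rfl
  have hp01 : p 0 1 = l := rfl
  have hp : ∀ i j, ¬ (i = 0 ∧ j = 1) → p i j = [] := fun i j hij => by simp only [p]; rw [if_neg hij]
  refine HasK3.of_int β p ?_ ?_ ?_ ?_ ?_ ?_ ?_
  · intro i j hij
    fin_cases i <;> fin_cases j <;> simp_all [β]
  · intro i j hij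
    by_cases e : i = 0 ∧ j = 1
    · obtain ⟨rfl, rfl⟩ := e
      rw [hp01, hβ0, hβ1]
      exact hl.1.imp (fun p q hpq => Or.inl hpq)
    · rw [hp i j e]
      fin_cases i <;> fin_cases j <;> simp_all [β]
  · intro i j hij
    by_cases e : i = 0 ∧ j = 1
    · obtain ⟨rfl, rfl⟩ := e
      rw [hp01]; exact hl.nodup_int
    · rw [hp i j e]; simp
  · intro i j k hij
    by_cases e : i = 0 ∧ j = 1
    · obtain ⟨rfl, rfl⟩ := e
      rw [hp01]
      fin_cases k
      · exact hal
      · exact htl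
      · exact hul
    · rw [hp i j e]; simp
  · intro i j k l' hij hkl hne z hz
    by_cases e : k = 0 ∧ l' = 1
    · have e' : ¬ (i = 0 ∧ j = 1) := by
        rintro ⟨rfl, rfl⟩
        obtain ⟨rfl, rfl⟩ := e
        exact hne rfl
      rw [hp i j e'] at hz
      simp at hz
    · rw [hp k l' e]; simp
  · intro k
    fin_cases k
    · exact (hsupp t a hta).2
    · exact (hsupp t a hta).1
    · exact (hsupp u a hua).1
  · intro i j hij z hz
    by_cases e : i = 0 ∧ j = 1
    · obtain ⟨rfl, rfl⟩ := e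
      rw [hp01] at hz; exact hlS z hz
    · rw [hp i j e] at hz; simp at hz

/-- Delete a vertex `u` all of whose in-arcs come from `t`, and add an arc `t → w`, where
`u → w`. -/
theorem T6H.delete [Finite V] (h : T6H E S a)
    (ih : ∀ (E' : V → V → Prop) (S' : Set V) (a' : V), S'.ncard < S.ncard → T6H E' S' a' →
      Good E' S' a') {u t w : V} (hu : u ∈ S) (hua : u ≠ a) (htu : E t u) (huw : E u w)
    (hwt : w ≠ t) (hNu : ∀ p, E p u → p = t)
    (hav : ∀ v ∈ S, v ≠ u → ReflTransGen (Av E u) v a)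
    (ht : t = a ∨ ∃ s, s ≠ u ∧ s ≠ w ∧ E t s) : Good E S a := by
  classical
  have htS := (h.supp t u htu).1
  have hwS := (h.supp u w huw).2
  have htu' : t ≠ u := by rintro rfl; exact h.loop _ htu
  have huw' : w ≠ u := by rintro rfl; exact h.loop _ huw
  let S' : Set V := S \ {u}
  have hS' : ∀ z, z ∈ S' ↔ z ∈ S ∧ z ≠ u := by intro z; simp [S']
  let E' : V → V → Prop := fun p q => (E p q ∧ p ≠ u ∧ q ≠ u) ∨ (p = t ∧ q = w)
  have hcard : S'.ncard < S.ncard :=
    Set.ncard_lt_ncard ⟨fun z hz => hz.1, fun h' => ((hS' u).1 (h' hu)).2 rfl⟩ (Set.toFinite _)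
  have hT : T6H E' S' a := by
    refine ⟨?_, ?_, ?_, ?_, ?_, ?_⟩
    · rintro p q (h' | ⟨rfl, rfl⟩)
      · exact ⟨(hS' p).2 ⟨(h.supp p q h'.1).1, h'.2.1⟩, (hS' q).2 ⟨(h.supp p q h'.1).2, h'.2.2⟩⟩
      · exact ⟨(hS' _).2 ⟨htS, htu'⟩, (hS' _).2 ⟨hwS, huw'⟩⟩
    · rintro p (h' | ⟨h1, h2⟩)
      · exact h.loop p h'.1
      · exact hwt (h2.symm.trans h1)
    · exact (hS' a).2 ⟨h.ha, hua.symm⟩
    · intro v hv
      rw [hS'] at hv
      have hle : Av E u ≤ E' := fun p q h' => Or.inl h'
      exact ReflTransGen.mono hle v a (hav v hv.1 hv.2)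
    · intro v hv hva
      rw [hS'] at hv
      by_cases e : v = t
      · rcases ht with ht | ⟨s, hsu, hsw, hts⟩
        · exact absurd (e.trans ht) hva
        · subst e
          exact ⟨s, w, hsw, Or.inl ⟨hts, htu', hsu⟩, Or.inr ⟨rfl, rfl⟩⟩
      · obtain ⟨p, q, hpq, h1, h2⟩ := h.deg v hv.1 hva
        refine ⟨p, q, hpq, Or.inl ⟨h1, hv.2, ?_⟩, Or.inl ⟨h2, hv.2, ?_⟩⟩
        · rintro rfl; exact e (hNu v h1)
        · rintro rfl; exact e (hNu v h2)
    · by_cases e : a = t
      · exact ⟨w, Or.inr ⟨e, rfl⟩⟩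
      · obtain ⟨p, hp⟩ := h.dega
        refine ⟨p, Or.inl ⟨hp, hua.symm, ?_⟩⟩
        rintro rfl; exact e (hNu a hp)
  obtain ⟨b, hK⟩ := ih E' S' a hcard hT
  refine ⟨b, ?_⟩
  have hK' : HasK3 (fun p q => (E p q ∨ (p = a ∧ q = b)) ∨ (p = t ∧ q = w)) S' := by
    refine hK.mono ?_ (subset_refl _)
    rintro p q _ _ _ ((h' | h') | h')
    · exact Or.inl (Or.inl h'.1)
    · exact Or.inr h'
    · exact Or.inl (Or.inr h')
  refine HasK3.lift (u := t) (w := w) hK' (fun p q _ _ _ h' => h') [u] ?_ (by simp) ?_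
    (fun z hz => hz.1) ?_
  · simp only [singleton_append, isChain_cons_cons, isChain_singleton, and_true]
    exact ⟨Or.inl htu, Or.inl huw⟩
  · intro z hz
    simp only [mem_singleton] at hz
    rw [hz, hS']
    exact fun h' => h'.2 rfl
  · intro z hz
    simp only [mem_singleton] at hz
    rw [hz]; exact hu

/-- The degree theorem: if every vertex reaches `a`, every vertex except `a` has out-degree at
least two and `a` has an out-neighbour, then adding one arc at `a` creates a subdivision of the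
bioriented triangle. -/
theorem t6_aux [Finite V] : ∀ (n : ℕ) (E : V → V → Prop) (S : Set V) (a : V), S.ncard = n →
    T6H E S a → Good E S a := by
  classical
  intro n
  induction n using Nat.strong_induction_on with
  | _ n IH =>
  intro E₀ S a hn h₀
  by_contra hng₀
  obtain ⟨E, hle, h, hex, hexa⟩ := h₀.exists_min
  have hng : ¬ Good E S a := by
    rintro ⟨b, hb⟩
    refine hng₀ ⟨b, hb.mono ?_ (subset_refl _)⟩
    rintro p q _ _ _ (h' | h')
    · exact Or.inl (hle p q h')
    · exact Or.inr h'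
  have ih : ∀ (E' : V → V → Prop) (S' : Set V) (a' : V), S'.ncard < S.ncard → T6H E' S' a' →
      Good E' S' a' := by
    intro E' S' a' hlt hT
    exact IH S'.ncard (hn ▸ hlt) E' S' a' rfl hT
  -- every vertex is reachable from `a`
  have hstr : ∀ v ∈ S, ReflTransGen E a v := by
    by_contra hcon
    push Not at hcon
    obtain ⟨v₀, hv₀, hv₀a⟩ := hcon
    let S' : Set V := {v | v ∈ S ∧ ReflTransGen E a v}
    have hcl : ∀ p q, p ∈ S' → E p q → q ∈ S' :=
      fun p q hp hpq => ⟨(h.supp p q hpq).2, hp.2.tail hpq⟩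
    have hcard : S'.ncard < S.ncard :=
      Set.ncard_lt_ncard ⟨fun z hz => hz.1, fun h' => hv₀a (h' hv₀).2⟩ (Set.toFinite _)
    have haS' : a ∈ S' := ⟨h.ha, ReflTransGen.refl⟩
    let E' : V → V → Prop := fun p q => E p q ∧ p ∈ S' ∧ q ∈ S'
    have hT : T6H E' S' a := by
      refine ⟨fun p q h' => h'.2, fun p h' => h.loop p h'.1, haS', ?_, ?_, ?_⟩
      · intro v hv
        have hva := h.reach v hv.1
        induction hva using ReflTransGen.head_induction_on with
        | refl => exact ReflTransGen.refl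
        | @head p c hpc _ ihc =>
          have hc := hcl p c hv hpc
          exact ReflTransGen.head (show E' p c from ⟨hpc, hv, hc⟩) (ihc hc)
      · intro v hv hva
        obtain ⟨p, q, hpq, h1, h2⟩ := h.deg v hv.1 hva
        exact ⟨p, q, hpq, ⟨h1, hv, hcl v p hv h1⟩, ⟨h2, hv, hcl v q hv h2⟩⟩
      · obtain ⟨p, hp⟩ := h.dega
        exact ⟨p, hp, haS', hcl a p haS' hp⟩
    obtain ⟨b, hb⟩ := ih E' S' a hcard hT
    refine hng ⟨b, hb.mono ?_ (fun z hz => hz.1)⟩
    rintro p q _ _ _ (h' | h')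
    · exact Or.inl h'.1
    · exact Or.inr h'
  have hsep := h.step1 ih hstr hng
  obtain ⟨u, hu, hu1⟩ := exists_indeg_one h hex hexa
  -- an in-neighbour `t` of `u`
  obtain ⟨x₀, hax₀⟩ := h.dega
  have hx₀S := (h.supp a x₀ hax₀).2
  have hx₀a : x₀ ≠ a := by rintro rfl; exact h.loop _ hax₀
  obtain ⟨t, htu⟩ : ∃ t, E t u := by
    by_cases hua : u = a
    · rcases ReflTransGen.cases_tail (h.reach x₀ hx₀S) with e | ⟨c, _, hc⟩
      · exact absurd e.symm hx₀a
      · exact ⟨c, hua ▸ hc⟩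
    · rcases ReflTransGen.cases_tail (hstr u hu) with e | ⟨c, _, hc⟩
      · exact absurd e hua
      · exact ⟨c, hc⟩
  have hNu : ∀ p, E p u → p = t := fun p hp => hu1 p t hp htu
  have htS := (h.supp t u htu).1
  have htu' : t ≠ u := by rintro rfl; exact h.loop _ htu
  by_cases hua : u = a
  · -- `N-(a) = {t}`
    subst hua
    obtain ⟨p, q, hpq, h1, h2⟩ := h.deg t htS htu'
    obtain ⟨v, hv, hvt, hvu⟩ := third (x := t) (y := u) p q hpq
      (by rintro rfl; exact h.loop _ h1) (by rintro rfl; exact h.loop _ h2)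
    have hvS : v ∈ S := by
      rcases hv with rfl | rfl
      · exact (h.supp _ _ h1).2
      · exact (h.supp _ _ h2).2
    rcases ReflTransGen.cases_tail (hsep t htu' v hvS hvt) with e | ⟨c, _, hc⟩
    · exact hvu e.symm
    · exact hc.2.1 (hNu c hc.1)
  have hav : ∀ v ∈ S, v ≠ u → ReflTransGen (Av E u) v a := hsep u hua
  obtain ⟨p, q, hpq, hup, huq⟩ := h.deg u hu hua
  have hpu : p ≠ u := by rintro rfl; exact h.loop _ hup
  have hqu : q ≠ u := by rintro rfl; exact h.loop _ huq
  by_cases hta : t = a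
  · obtain ⟨w, huw, hwt⟩ : ∃ w, E u w ∧ w ≠ t := by
      by_cases e : p = t
      · exact ⟨q, huq, fun e' => hpq (e.trans e'.symm)⟩
      · exact ⟨p, hup, e⟩
    exact hng (h.delete ih hu hua htu huw hwt hNu hav (Or.inl hta))
  -- the second out-neighbour `s` of `t`
  obtain ⟨s, hts, hsu, hst⟩ : ∃ s, E t s ∧ s ≠ u ∧ ∀ z, E t z → z = u ∨ z = s := by
    obtain ⟨p', q', hpq', h1, h2⟩ := h.deg t htS hta
    obtain ⟨p'', q'', h3⟩ := hex t htS hta
    by_cases e : p' = u
    · refine ⟨q', h2, fun e' => hpq' (e.trans e'.symm), ?_⟩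
      intro z hz
      have a1 := h3 u htu
      have a2 := h3 q' h2
      have a3 := h3 z hz
      have a4 : q' ≠ u := fun e' => hpq' (e.trans e'.symm)
      by_contra hcon
      push Not at hcon
      rcases a1 with a1 | a1 <;> rcases a2 with a2 | a2 <;> rcases a3 with a3 | a3 <;>
        simp_all
    · refine ⟨p', h1, e, ?_⟩
      intro z hz
      have a1 := h3 u htu
      have a2 := h3 p' h1
      have a3 := h3 z hz
      by_contra hcon
      push Not at hcon
      rcases a1 with a1 | a1 <;> rcases a2 with a2 | a2 <;> rcases a3 with a3 | a3 <;>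
        simp_all
  by_cases hw : ∃ w, E u w ∧ w ≠ t ∧ w ≠ s
  · obtain ⟨w, huw, hwt, hws⟩ := hw
    exact hng (h.delete ih hu hua htu huw hwt hNu hav (Or.inr ⟨s, hsu, hws.symm, hts⟩))
  push Not at hw
  have hst' : s ≠ t := by rintro rfl; exact h.loop _ hts
  -- `N+(u) = {t, s}`
  have hut : E u t ∧ E u s := by
    by_cases e : p = t
    · have e2 : q ≠ t := fun e' => hpq (e.trans e'.symm)
      exact ⟨e ▸ hup, hw q huq e2 ▸ huq⟩
    · have e2 := hw p hup e
      by_cases e3 : q = t
      · exact ⟨e3 ▸ huq, e2 ▸ hup⟩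
      · exact absurd (e2.trans (hw q huq e3).symm) hpq
  have hsa : s = a := by
    by_contra hsa
    have h1 := hsep s hsa t htS hst'.symm
    have h2 : ∀ v, ReflTransGen (Av E s) t v → v = t ∨ v = u := by
      intro v hv
      induction hv with
      | refl => exact Or.inl rfl
      | @tail b c _ hbc ihb =>
        rcases ihb with rfl | rfl
        · rcases hst c hbc.1 with e | e
          · exact Or.inr e
          · exact absurd e hbc.2.2
        · by_cases e : c = t
          · exact Or.inl e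
          · exact absurd (hw c hbc.1 e) hbc.2.2
    rcases h2 a h1 with e | e
    · exact hta e.symm
    · exact hua e.symm
  subst hsa
  obtain ⟨l, hl⟩ := exists_pth' (hstr t htS) hst'
  have hul : u ∉ l := by
    intro hul
    obtain ⟨l₁, l₂, rfl⟩ := List.append_of_mem hul
    have p1 := hl.split.1
    rcases List.eq_nil_or_concat l₁ with rfl | ⟨l', c, rfl⟩
    · have : E s u := by simpa using p1.1
      exact hst' (hNu s this)
    · have hcu : E c u := by
        have := p1.1
        simp at this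
        exact this.2
      have : c = t := hNu c hcu
      subst this
      exact hl.not_mem_right (by simp)
  exact hng (last_config h.supp htu hut.1 hts hut.2 hl hul htu' hua)

/-- The degree theorem (note 298), in the form used later. -/
theorem t6 [Finite V] (E : V → V → Prop) (S : Set V) (a : V)
    (hsupp : ∀ p q, E p q → p ∈ S ∧ q ∈ S) (hloop : ∀ p, ¬ E p p) (ha : a ∈ S)
    (hreach : ∀ v ∈ S, ReflTransGen E v a)
    (hdeg : ∀ v ∈ S, v ≠ a → ∃ p q, p ≠ q ∧ E v p ∧ E v q) (hdega : ∃ p, E a p) :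
    Good E S a :=
  t6_aux S.ncard E S a rfl ⟨hsupp, hloop, ha, hreach, hdeg, hdega⟩

end Pool.Agent.Mader
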