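import Pool.Agent.Mader.Rooted

set_option autoImplicit false

namespace Pool.Agent.Mader

open List Relation

variable {V : Type*}

variable {E : V → V → Prop} {S : Set V}

/-- Reversal of all arcs. -/
theorem HasK3.rev (h : HasK3 E S) : HasK3 (fun p q => E q p) S := by
  obtain ⟨β, L, h⟩ := h
  refine ⟨β, fun i j => (L j i).reverse, ?_⟩
  constructor
  · exact h.inj
  · intro i j hij
    rw [List.isChain_reverse]
    exact h.chain j i hij.symm
  · intro i j hij
    exact List.nodup_reverse.2 (h.nodup j i hij.symm)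
  · intro i j hij
    rw [List.head?_reverse]
    exact h.last j i hij.symm
  · intro i j hij
    rw [List.getLast?_reverse]
    exact h.head j i hij.symm
  · intro i j k hij hk
    exact (h.br j i k hij.symm (by simpa using hk)).symm
  · intro i j k l v hij hkl hne h1 h2
    refine h.disj j i l k v hij.symm hkl.symm ?_ (by simpa using h1) (by simpa using h2)
    intro e
    apply hne
    rw [Prod.mk.injEq] at e ⊢
    exact ⟨e.2, e.1⟩
  · intro i j hij v hv
    exact h.mem j i hij.symm v (by simpa using hv)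

theorem reach_of_chain {R : V → V → Prop} : ∀ (L : List V) (a z : V), L.IsChain R →
    L.head? = some a → L.getLast? = some z → ReflTransGen R a z := by
  intro L
  induction L with
  | nil => intro a z _ h; simp at h
  | cons c L ih =>
    intro a z hc ha hz
    simp at ha
    subst ha
    cases L with
    | nil =>
      simp at hz
      subst hz
      exact ReflTransGen.refl
    | cons d L =>
      rw [isChain_cons_cons] at hc
      exact ReflTransGen.head hc.1 (ih d z hc.2 (by simp) (by simpa using hz))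

theorem reach_of_chain' {R : V → V → Prop} {L : List V} {a z : V} (h : L.IsChain R)
    (ha : L.head? = some a) (hz : L.getLast? = some z) :
    ReflTransGen (fun p q => Nxt L p q ∧ R p q) a z := by
  refine reach_of_chain L a z ?_ ha hz
  rw [isChain_iff_nxt]
  intro p q hpq
  exact ⟨hpq, isChain_iff_nxt.1 h p q hpq⟩

/-- The arcs of a subdivision with tail `v`: at most one, or two and then `v` is a branch vertex
and there are two disjoint paths from the two heads back to `v`. -/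
theorem IsK3.out_cases {β : Fin 3 → V} {L : Fin 3 → Fin 3 → List V} (h : IsK3 E S β L) (v : V) :
    (∃ b, IsK3 (fun p q => E p q ∧ (p = v → q = b)) S β L) ∨
    (∃ b₁ b₂, b₁ ≠ b₂ ∧ E v b₁ ∧ E v b₂ ∧
      IsK3 (fun p q => E p q ∧ (p = v → q = b₁ ∨ q = b₂)) S β L ∧
      ∃ l₁ l₂, Pth (fun p q => E p q ∧ p ≠ v) b₁ l₁ v ∧ Pth (fun p q => E p q ∧ p ≠ v) b₂ l₂ v ∧
        b₁ ∉ l₂ ∧ b₂ ∉ l₁ ∧ ∀ z ∈ l₁, z ∉ l₂) := by
  by_cases hv : ∃ m, v = β m
  · obtain ⟨m, rfl⟩ := hv
    right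
    have key : ∀ j, j ≠ m → ∃ b t, L m j = β m :: b :: t := by
      intro j hj
      have h1 := h.head m j hj.symm
      have h2 := h.last m j hj.symm
      cases hL : L m j with
      | nil => rw [hL] at h1; simp at h1
      | cons c t =>
        rw [hL] at h1 h2
        simp at h1
        subst h1
        cases t with
        | nil =>
          simp at h2
          exact absurd (h.inj h2).symm hj
        | cons b t => exact ⟨b, t, rfl⟩
    have h1 : m + 1 ≠ m := by fin_cases m <;> decide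
    have h2 : m + 2 ≠ m := by fin_cases m <;> decide
    have h12 : m + 1 ≠ m + 2 := by fin_cases m <;> decide
    have path : ∀ j, j ≠ m → ∀ b t, L m j = β m :: b :: t →
        E (β m) b ∧ b ≠ β m ∧ b ∈ L m j ∧
        ∃ l, Pth (fun p q => E p q ∧ p ≠ β m) b l (β m) ∧
          ∀ z ∈ l, z ≠ β m ∧ (z ∈ L m j ∨ z ∈ L j m) := by
      intro j hj b t hL
      have hc := h.chain m j hj.symm
      have hn := h.nodup m j hj.symm
      have hl := h.last m j hj.symm
      rw [hL] at hc hn hl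
      rw [isChain_cons_cons] at hc
      have hm : β m ∉ b :: t := (nodup_cons.1 hn).1
      have hb : b ≠ β m := by
        intro e
        exact hm (by simp [e])
      have r1 := reach_of_chain' (L := b :: t) (a := b) (z := β j) hc.2 (by simp)
        (by simpa using hl)
      have r2 := reach_of_chain' (L := L j m) (h.chain j m hj) (h.head j m hj) (h.last j m hj)
      set Y : V → V → Prop := fun p q => (E p q ∧ p ≠ β m) ∧ (p ≠ β m ∧ (p ∈ L m j ∨ p ∈ L j m))
        with hY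
      have r1' : ReflTransGen Y b (β j) := by
        refine ReflTransGen.mono ?_ _ _ r1
        rintro p q ⟨h1, h2⟩
        have hp : p ≠ β m := by
          rintro rfl
          exact hm h1.left_mem
        have : p ∈ L m j := by
          rw [hL]
          exact mem_cons_of_mem _ h1.left_mem
        exact ⟨⟨h2, hp⟩, hp, Or.inl this⟩
      have r2' : ReflTransGen Y (β j) (β m) := by
        refine ReflTransGen.mono ?_ _ _ r2
        rintro p q ⟨h1, h2⟩
        have hp : p ≠ β m := h1.ne_last (h.nodup j m hj) (h.last j m hj)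
        exact ⟨⟨h2, hp⟩, hp, Or.inr h1.left_mem⟩
      obtain ⟨l, hl⟩ := exists_pth' (r1'.trans r2') hb
      refine ⟨hc.1, hb, by rw [hL]; simp, l, hl.mono (fun p q h => h.1), ?_⟩
      exact hl.forall_int_tail (fun p q h => h.2)
    obtain ⟨b₁, t₁, hL₁⟩ := key (m + 1) h1
    obtain ⟨b₂, t₂, hL₂⟩ := key (m + 2) h2
    obtain ⟨e1, n1, m1, l₁, p1, q1⟩ := path _ h1 _ _ hL₁
    obtain ⟨e2, n2, m2, l₂, p2, q2⟩ := path _ h2 _ _ hL₂
    have dis : ∀ z, z ≠ β m → (z ∈ L m (m + 1) ∨ z ∈ L (m + 1) m) →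
        (z ∈ L m (m + 2) ∨ z ∈ L (m + 2) m) → False := by
      intro z hz ha hb
      have hzb : ∃ k, z = β k := by
        rcases ha with ha | ha <;> rcases hb with hb | hb
        · exact h.disj _ _ _ _ z h1.symm h2.symm (by intro e; exact h12 (Prod.mk.inj e).2) ha hb
        · exact h.disj _ _ _ _ z h1.symm h2 (by intro e; exact h2 (Prod.mk.inj e).1.symm) ha hb
        · exact h.disj _ _ _ _ z h1 h2.symm (by intro e; exact h1 (Prod.mk.inj e).1) ha hb
        · exact h.disj _ _ _ _ z h1 h2 (by intro e; exact h12 (Prod.mk.inj e).1) ha hb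
      obtain ⟨k, rfl⟩ := hzb
      have k1 : k = m ∨ k = m + 1 := by
        rcases ha with ha | ha
        · exact h.br _ _ k h1.symm ha
        · exact (h.br _ _ k h1 ha).symm
      have k2 : k = m ∨ k = m + 2 := by
        rcases hb with hb | hb
        · exact h.br _ _ k h2.symm hb
        · exact (h.br _ _ k h2 hb).symm
      rcases k1 with rfl | rfl
      · exact hz rfl
      · rcases k2 with e | e
        · exact h1 e
        · exact h12 e
    have hne : b₁ ≠ b₂ := by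
      rintro rfl
      exact dis b₁ n1 (Or.inl m1) (Or.inl m2)
    refine ⟨b₁, b₂, hne, e1, e2, h.imp ?_ (subset_refl _), l₁, l₂, p1, p2, ?_, ?_, ?_⟩
    · intro i j hij a b hab hE
      refine ⟨hE, ?_⟩
      rintro rfl
      have hi : m = i := by
        rcases h.br i j m hij hab.left_mem with e | e
        · exact e
        · subst e
          exact absurd rfl (hab.ne_last (h.nodup i m hij) (h.last i m hij))
      subst hi
      have hj : j = m + 1 ∨ j = m + 2 := fin3_cases m j hij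
      rcases hj with rfl | rfl
      · exact Or.inl (hab.unique (h.nodup _ _ hij) ⟨[], t₁, by rw [hL₁]; rfl⟩)
      · exact Or.inr (hab.unique (h.nodup _ _ hij) ⟨[], t₂, by rw [hL₂]; rfl⟩)
    · intro hb
      exact dis b₁ n1 (Or.inl m1) (q2 b₁ hb).2
    · intro hb
      exact dis b₂ n2 (q1 b₂ hb).2 (Or.inl m2)
    · intro z hz hz'
      exact dis z (q1 z hz).1 (q1 z hz).2 (q2 z hz').2
  · left
    by_cases hb : ∃ i j b, i ≠ j ∧ Nxt (L i j) v b
    · obtain ⟨i₀, j₀, b₀, hij₀, hb₀⟩ := hb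
      refine ⟨b₀, h.imp ?_ (subset_refl _)⟩
      intro i j hij a b hab hE
      refine ⟨hE, ?_⟩
      rintro rfl
      by_cases e : (i, j) = (i₀, j₀)
      · obtain ⟨rfl, rfl⟩ := Prod.mk.inj e
        exact hab.unique (h.nodup i j hij) hb₀
      · exact absurd (h.disj i j i₀ j₀ a hij hij₀ e hab.left_mem hb₀.left_mem) hv
    · refine ⟨v, h.imp ?_ (subset_refl _)⟩
      intro i j hij a b hab hE
      refine ⟨hE, ?_⟩
      rintro rfl
      exact absurd ⟨i, j, b, hij, hab⟩ hb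

/-- Replace two arcs with the same tail by disjoint paths outside `S'`. -/
theorem HasK3.lift2 {S' : Set V} {c b₁ b₂ : V} {l₁ l₂ : List V}
    (h : HasK3 (fun p q => E p q ∨ (p = c ∧ q = b₁) ∨ (p = c ∧ q = b₂)) S')
    (p1 : Pth E c l₁ b₁) (p2 : Pth E c l₂ b₂) (h1 : ∀ z ∈ l₁, z ∉ S') (h2 : ∀ z ∈ l₂, z ∉ S')
    (hd : ∀ z ∈ l₁, z ∉ l₂) (hS : S' ⊆ S) (hs1 : ∀ z ∈ l₁, z ∈ S) (hs2 : ∀ z ∈ l₂, z ∈ S) :
    HasK3 E S := by
  have k1 : HasK3 (fun p q => (E p q ∨ (p = c ∧ q = b₂)) ∨ (p = c ∧ q = b₁)) S' := by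
    refine h.mono ?_ (subset_refl _)
    rintro p q _ _ _ (h | h | h)
    · exact Or.inl (Or.inl h)
    · exact Or.inr h
    · exact Or.inl (Or.inr h)
  have k2 : HasK3 (fun p q => E p q ∨ (p = c ∧ q = b₂)) {s | s ∈ S' ∨ s ∈ l₁} :=
    k1.lift (E' := fun p q => E p q ∨ (p = c ∧ q = b₂)) (fun _ _ _ _ _ h => h) l₁
      (p1.1.imp (fun _ _ h => Or.inl h)) p1.nodup_int h1 (fun s hs => Or.inl hs)
      (fun z hz => Or.inr hz)
  refine k2.lift (E' := E) (fun _ _ _ _ _ h => h) l₂ p2.1 p2.nodup_int ?_ ?_ hs2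
  · rintro z hz (h | h)
    · exact h2 z hz h
    · exact hd z h hz
  · rintro s (h | h)
    · exact hS h
    · exact hs1 s h

theorem HasK3.lift1 {S' : Set V} {c b₁ : V} {l₁ : List V}
    (h : HasK3 (fun p q => E p q ∨ (p = c ∧ q = b₁)) S')
    (p1 : Pth E c l₁ b₁) (h1 : ∀ z ∈ l₁, z ∉ S') (hS : S' ⊆ S) (hs1 : ∀ z ∈ l₁, z ∈ S) :
    HasK3 E S :=
  h.lift (E' := E) (fun _ _ _ _ _ h => h) l₁ p1.1 p1.nodup_int h1 hS hs1

/-- A counterexample to `Col E 3` for relations without a bioriented triangle, with the smallest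
number of vertices. -/
structure MinC (E : V → V → Prop) (S : Set V) : Prop where
  supp : ∀ p q, E p q → p ∈ S ∧ q ∈ S
  loop : ∀ p, ¬ E p p
  nk3 : ¬ HasK3 E S
  ncol : ¬ Col E 3
  ih : ∀ (E' : V → V → Prop) (S' : Set V), S'.ncard < S.ncard →
    (∀ p q, E' p q → p ∈ S' ∧ q ∈ S') → (∀ p, ¬ E' p p) → ¬ HasK3 E' S' → Col E' 3

theorem MinC.crit [Finite V] (c : MinC E S) : ∀ T, T ⊂ S → Col (Res E T) 3 := by
  intro T hT
  exact c.ih (Res E T) T (Set.ncard_lt_ncard hT (Set.toFinite _)) (fun p q h => h.2)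
    (fun p h => c.loop p h.1) (fun h => c.nk3 (h.mono (fun _ _ _ _ _ h => h.1) hT.1))

theorem MinC.strong [Finite V] (c : MinC E S) {p q : V} (hp : p ∈ S) (hq : q ∈ S) :
    ReflTransGen E p q :=
  strong_of_critical c.supp c.ncol c.crit hp hq

/-- `c` is a cut vertex, all arcs between the two sides `A`, `B` go from `A` to `B`. -/
structure Cut (E : V → V → Prop) (S : Set V) (c : V) (A B : Set V) : Prop where
  hc : c ∈ S
  hcA : c ∉ A
  hcB : c ∉ B
  hAB : ∀ p, p ∈ A → p ∉ B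
  hA : A.Nonempty
  hB : B.Nonempty
  part : ∀ s, s ∈ S ↔ s ∈ A ∨ s ∈ B ∨ s = c
  hBA : ∀ p q, p ∈ B → E p q → q ∉ A

theorem Cut.mem_left {c : V} {A B : Set V} (h : Cut E S c A B) {a : V} (ha : a ∈ A) : a ∈ S :=
  (h.part a).2 (Or.inl ha)

theorem Cut.mem_right {c : V} {A B : Set V} (h : Cut E S c A B) {a : V} (ha : a ∈ B) : a ∈ S :=
  (h.part a).2 (Or.inr (Or.inl ha))

theorem Cut.ssub_left {c : V} {A B : Set V} (h : Cut E S c A B) : {s | s ∈ A ∨ s = c} ⊂ S := by
  refine ⟨?_, ?_⟩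
  · rintro s (hs | rfl)
    · exact h.mem_left hs
    · exact h.hc
  · intro hle
    obtain ⟨b, hb⟩ := h.hB
    rcases hle (h.mem_right hb) with e | e
    · exact h.hAB b e hb
    · exact h.hcB (e ▸ hb)

theorem Cut.ssub_right {c : V} {A B : Set V} (h : Cut E S c A B) : {s | s ∈ B ∨ s = c} ⊂ S := by
  refine ⟨?_, ?_⟩
  · rintro s (hs | rfl)
    · exact h.mem_right hs
    · exact h.hc
  · intro hle
    obtain ⟨b, hb⟩ := h.hA
    rcases hle (h.mem_left hb) with e | e
    · exact h.hAB b hb e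
    · exact h.hcA (e ▸ hb)

theorem Cut.closed_left {c : V} {A B : Set V} (h : Cut E S c A B)
    (hs : ∀ p q, E p q → p ∈ S ∧ q ∈ S) {p q : V} (hq : q ∈ A) (hpq : E p q) :
    p ∈ A ∨ p = c := by
  rcases (h.part p).1 (hs p q hpq).1 with e | e | e
  · exact Or.inl e
  · exact absurd hq (h.hBA p q e hpq)
  · exact Or.inr e

/-- In a cut with `|A|` minimal no vertex separates `c` from a vertex of `A`. -/
theorem Cut.reach_left [Finite V] {c : V} {A B : Set V} (m : MinC E S) (h : Cut E S c A B)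
    (hmin : ∀ c' A' B', Cut E S c' A' B' → A.ncard ≤ A'.ncard) {a z : V} (ha : a ∈ A)
    (hzc : z ≠ c) (hza : z ≠ a) :
    ReflTransGen (fun p q => (E p q ∧ (p ∈ A ∨ p = c) ∧ (q ∈ A ∨ q = c)) ∧ p ≠ z ∧ q ≠ z) c a := by
  classical
  by_contra hcon
  set R : V → V → Prop :=
    fun p q => (E p q ∧ (p ∈ A ∨ p = c) ∧ (q ∈ A ∨ q = c)) ∧ p ≠ z ∧ q ≠ z with hR
  set A' : Set V := {s | s ∈ A ∧ s ≠ z ∧ ¬ ReflTransGen R c s} with hA'
  have haA' : a ∈ A' := ⟨ha, fun e => hza e.symm, hcon⟩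
  have hcl : ∀ p q, q ∈ A' → E p q → p ∈ A' ∨ p = z := by
    intro p q hq hpq
    by_cases hpz : p = z
    · exact Or.inr hpz
    left
    rcases h.closed_left m.supp hq.1 hpq with e | e
    · refine ⟨e, hpz, fun hr => hq.2.2 (hr.tail ⟨⟨hpq, Or.inl e, Or.inl hq.1⟩, hpz, hq.2.1⟩)⟩
    · subst e
      exact absurd (ReflTransGen.single ⟨⟨hpq, Or.inr rfl, Or.inl hq.1⟩, hpz, hq.2.1⟩) hq.2.2
  by_cases hzA : z ∈ A
  · have hcut : Cut E S z A' {s | s ∈ S ∧ s ≠ z ∧ s ∉ A'} := by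
      constructor
      · exact h.mem_left hzA
      · exact fun e => e.2.1 rfl
      · exact fun e => e.2.1 rfl
      · exact fun p hp hp' => hp'.2.2 hp
      · exact ⟨a, haA'⟩
      · exact ⟨c, h.hc, fun e => hzc e.symm, fun e => h.hcA e.1⟩
      · intro s
        constructor
        · intro hs
          by_cases h1 : s = z
          · exact Or.inr (Or.inr h1)
          · by_cases h2 : s ∈ A'
            · exact Or.inl h2
            · exact Or.inr (Or.inl ⟨hs, h1, h2⟩)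
        · rintro (hs | hs | hs)
          · exact h.mem_left hs.1
          · exact hs.1
          · rw [hs]; exact h.mem_left hzA
      · intro p q hp hpq hq
        rcases hcl p q hq hpq with e | e
        · exact hp.2.2 e
        · exact hp.2.1 e
    have h1 := hmin _ _ _ hcut
    have h2 : A'.ncard < A.ncard := by
      refine Set.ncard_lt_ncard ⟨fun s hs => hs.1, fun hle => ?_⟩ (Set.toFinite _)
      exact (hle hzA).2.1 rfl
    omega
  · have hall : ∀ t, ReflTransGen E c t → t ∉ A' := by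
      intro t ht
      induction ht with
      | refl => exact fun e => h.hcA e.1
      | @tail p q _ hpq ih =>
        intro hq
        rcases hcl p q hq hpq with e | e
        · exact ih e
        · rcases h.closed_left m.supp hq.1 hpq with e' | e'
          · exact hzA (e ▸ e')
          · exact hzc (e.symm.trans e')
    exact hall a (m.strong h.hc (h.mem_left ha)) haA'

theorem Cut.path_left [Finite V] {c : V} {A B : Set V} (m : MinC E S) (h : Cut E S c A B)
    {a : V} (ha : a ∈ A) : ∃ l, Pth E c l a ∧ ∀ z ∈ l, z ∈ A := by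
  obtain ⟨l, hl⟩ := exists_pth' (m.strong h.hc (h.mem_left ha)) (fun e => h.hcA (e ▸ ha))
  exact ⟨l, hl, hl.forall_int_of_coclosed (P := fun z => z ∈ A) ha
    (fun p q hq hpq => h.closed_left m.supp hq hpq)⟩

theorem Cut.fan_left [Finite V] {c : V} {A B : Set V} (m : MinC E S) (h : Cut E S c A B)
    (hmin : ∀ c' A' B', Cut E S c' A' B' → A.ncard ≤ A'.ncard) {a₁ a₂ : V} (h1 : a₁ ∈ A)
    (h2 : a₂ ∈ A) (hne : a₁ ≠ a₂) :
    ∃ l₁ l₂, Pth E c l₁ a₁ ∧ Pth E c l₂ a₂ ∧ (∀ z ∈ l₁, z ∈ A) ∧ (∀ z ∈ l₂, z ∈ A) ∧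
      a₂ ∉ l₁ ∧ a₁ ∉ l₂ ∧ ∀ z ∈ l₁, z ∉ l₂ := by
  have hc1 : c ≠ a₁ := fun e => h.hcA (e ▸ h1)
  have hc2 : c ≠ a₂ := fun e => h.hcA (e ▸ h2)
  obtain ⟨l₁, l₂, p1, p2, k1, k2, hd, _⟩ := fan
    (r := fun p q => E p q ∧ (p ∈ A ∨ p = c) ∧ (q ∈ A ∨ q = c)) (v := c) (x := a₁) (a := a₂) hc1
    (fun z hz hz' => h.reach_left m hmin h1 hz hz')
    (h.reach_left m hmin h2 hc1.symm hne) hc2.symm
  have q1 : Pth E c l₁ a₁ := p1.mono (fun _ _ h => h.1)
  have q2 : Pth E c l₂ a₂ := p2.mono (fun _ _ h => h.1)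
  exact ⟨l₁, l₂, q1, q2, q1.forall_int_of_coclosed (P := fun z => z ∈ A) h1
    (fun p q hq hpq => h.closed_left m.supp hq hpq),
    q2.forall_int_of_coclosed (P := fun z => z ∈ A) h2
    (fun p q hq hpq => h.closed_left m.supp hq hpq), k1, k2, hd⟩

/-- There are two paths from `a` to `c` through `B` (no vertex separates). -/
def Nst (E : V → V → Prop) (B : Set V) (c a : V) : Prop :=
  ∀ z, z ≠ a → z ≠ c →
    ReflTransGen (fun p q => (E p q ∧ (p ∈ B ∨ p = a) ∧ (q ∈ B ∨ q = c)) ∧ p ≠ z ∧ q ≠ z) a c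

theorem nst_aux {c a b z : V} {B : Set V} {R : V → V → Prop} {l : List V}
    (hR : ∀ p q, R p q → E p q ∧ (p ∈ B ∨ p = a) ∧ (q ∈ B ∨ q = c)) (hp : Pth R b l c)
    (hab : E a b) (hb : b ∈ B) (hza : z ≠ a) (hzc : z ≠ c) (hz : z ∉ b :: l) :
    ReflTransGen (fun p q => (E p q ∧ (p ∈ B ∨ p = a) ∧ (q ∈ B ∨ q = c)) ∧ p ≠ z ∧ q ≠ z) a c := by
  have hzb : z ≠ b := fun e => hz (by simp [e])
  have h1 := reach_of_chain' (L := b :: (l ++ [c])) (a := b) (z := c) hp.1 (by simp) (by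
    rw [show b :: (l ++ [c]) = (b :: l) ++ [c] by simp, getLast?_append_of_ne_nil _ (by simp)]
    simp)
  have hmem : ∀ t ∈ b :: (l ++ [c]), t ≠ z := by
    rintro t ht rfl
    rw [show b :: (l ++ [c]) = (b :: l) ++ [c] by simp, mem_append] at ht
    rcases ht with ht | ht
    · exact hz ht
    · simp at ht; exact hzc ht
  have h2 : ReflTransGen
      (fun p q => (E p q ∧ (p ∈ B ∨ p = a) ∧ (q ∈ B ∨ q = c)) ∧ p ≠ z ∧ q ≠ z) b c := by
    refine ReflTransGen.mono ?_ _ _ h1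
    rintro p q ⟨h1, h2⟩
    exact ⟨hR p q h2, hmem p h1.left_mem, hmem q h1.right_mem⟩
  exact ReflTransGen.head ⟨⟨hab, Or.inr rfl, Or.inl hb⟩, hza.symm, hzb.symm⟩ h2

theorem Cut.lift_right [Finite V] {c : V} {A B : Set V} (m : MinC E S) (h : Cut E S c A B)
    (hmin : ∀ c' A' B', Cut E S c' A' B' → A.ncard ≤ A'.ncard) (gate : V → Prop)
    (hK : HasK3 (fun p q => (E p q ∧ (p ∈ B ∨ p = c) ∧ (q ∈ B ∨ q = c)) ∨
      (p = c ∧ q ∈ B ∧ ∃ a ∈ A, gate a ∧ E a q)) {s | s ∈ B ∨ s = c}) :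
    ∃ a ∈ A, gate a ∧ Nst E B c a := by
  classical
  by_contra hcon
  push Not at hcon
  set D : V → V → Prop := fun p q => (E p q ∧ (p ∈ B ∨ p = c) ∧ (q ∈ B ∨ q = c)) ∨
      (p = c ∧ q ∈ B ∧ ∃ a ∈ A, gate a ∧ E a q) with hD
  have hAS' : ∀ z, z ∈ A → z ∉ {s | s ∈ B ∨ s = c} := by
    rintro z hz (e | e)
    · exact h.hAB z hz e
    · exact h.hcA (e ▸ hz)
  have hreal : ∀ p q, D p q → p ≠ c → E p q ∧ (p ∈ B ∨ p = c) ∧ (q ∈ B ∨ q = c) := by
    rintro p q (e | e) hp
    · exact e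
    · exact absurd e.1 hp
  -- lift of one arc
  have one : ∀ b, D c b → HasK3 (fun p q => E p q ∨ (p = c ∧ q = b)) {s | s ∈ B ∨ s = c} → False := by
    intro b hb hK
    rcases hb with hb | ⟨_, hbB, a, ha, _, hab⟩
    · refine m.nk3 (hK.mono ?_ h.ssub_right.1)
      rintro p q _ _ _ (e | e)
      · exact e
      · rw [e.1, e.2]; exact hb.1
    · obtain ⟨l, hl, hlA⟩ := h.path_left m ha
      have hq : Pth E c (l ++ [a]) b := hl.snoc hab (fun e => h.hcB (e ▸ hbB))
        (fun e => h.hAB a ha (e ▸ hbB)) (fun e => h.hAB b (hlA b e) hbB)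
      have hqA : ∀ z ∈ l ++ [a], z ∈ A := by
        intro z hz
        rcases mem_append.1 hz with e | e
        · exact hlA z e
        · simp at e; rw [e]; exact ha
      exact m.nk3 (hK.lift1 hq (fun z hz => hAS' z (hqA z hz)) h.ssub_right.1
        (fun z hz => h.mem_left (hqA z hz)))
  obtain ⟨β, L, hK⟩ := hK
  rcases hK.out_cases c with ⟨b, hb⟩ | ⟨b₁, b₂, hne, e1, e2, hK2, l₁, l₂, p1, p2, k1, k2, hd⟩
  · have hb' : HasK3 (fun p q => D p q ∧ (p = c → q = b)) {s | s ∈ B ∨ s = c} := ⟨β, L, hb⟩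
    by_cases hDb : D c b
    · refine one b hDb (hb'.mono ?_ (subset_refl _))
      rintro p q _ _ _ ⟨h1, h2⟩
      by_cases hp : p = c
      · exact Or.inr ⟨hp, h2 hp⟩
      · exact Or.inl (hreal p q h1 hp).1
    · refine m.nk3 (hb'.mono ?_ h.ssub_right.1)
      rintro p q _ _ _ ⟨h1, h2⟩
      by_cases hp : p = c
      · have := h2 hp
        rw [hp, this] at h1
        exact absurd h1 hDb
      · exact (hreal p q h1 hp).1
  · have hK3 : HasK3 (fun p q => E p q ∨ (p = c ∧ q = b₁) ∨ (p = c ∧ q = b₂))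
        {s | s ∈ B ∨ s = c} := by
      refine HasK3.mono ⟨β, L, hK2⟩ ?_ (subset_refl _)
      rintro p q _ _ _ ⟨h1, h2⟩
      by_cases hp : p = c
      · rcases h2 hp with e | e
        · exact Or.inr (Or.inl ⟨hp, e⟩)
        · exact Or.inr (Or.inr ⟨hp, e⟩)
      · exact Or.inl (hreal p q h1 hp).1
    by_cases r1 : E c b₁
    · refine one b₂ e2 (hK3.mono ?_ (subset_refl _))
      rintro p q _ _ _ (e | e | e)
      · exact Or.inl e
      · rw [e.1, e.2]; exact Or.inl r1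
      · exact Or.inr e
    by_cases r2 : E c b₂
    · refine one b₁ e1 (hK3.mono ?_ (subset_refl _))
      rintro p q _ _ _ (e | e | e)
      · exact Or.inl e
      · exact Or.inr e
      · rw [e.1, e.2]; exact Or.inl r2
    rcases e1 with e1 | ⟨_, hb₁, a₁, ha₁, hg₁, hab₁⟩
    · exact r1 e1.1
    rcases e2 with e2 | ⟨_, hb₂, a₂, ha₂, hg₂, hab₂⟩
    · exact r2 e2.1
    by_cases haa : a₁ = a₂
    · subst haa
      apply hcon a₁ ha₁ hg₁
      intro z hza hzc
      have hR : ∀ p q, (D p q ∧ p ≠ c) → E p q ∧ (p ∈ B ∨ p = a₁) ∧ (q ∈ B ∨ q = c) := by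
        rintro p q ⟨h1, h2⟩
        obtain ⟨x1, x2, x3⟩ := hreal p q h1 h2
        exact ⟨x1, Or.inl (x2.resolve_right h2), x3⟩
      by_cases hz : z ∈ b₁ :: l₁
      · refine nst_aux hR p2 hab₂ hb₂ hza hzc ?_
        intro hz'
        rcases mem_cons.1 hz with rfl | hz
        · rcases mem_cons.1 hz' with e | hz'
          · exact hne e
          · exact k1 hz'
        · rcases mem_cons.1 hz' with rfl | hz'
          · exact k2 hz
          · exact hd z hz hz'
      · exact nst_aux hR p1 hab₁ hb₁ hza hzc hz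
    · obtain ⟨m₁, m₂, q1, q2, hm1, hm2, s1, s2, hdm⟩ := h.fan_left m hmin ha₁ ha₂ haa
      have t1 : Pth E c (m₁ ++ [a₁]) b₁ := q1.snoc hab₁ (fun e => h.hcB (e ▸ hb₁))
        (fun e => h.hAB a₁ ha₁ (e ▸ hb₁)) (fun e => h.hAB b₁ (hm1 b₁ e) hb₁)
      have t2 : Pth E c (m₂ ++ [a₂]) b₂ := q2.snoc hab₂ (fun e => h.hcB (e ▸ hb₂))
        (fun e => h.hAB a₂ ha₂ (e ▸ hb₂)) (fun e => h.hAB b₂ (hm2 b₂ e) hb₂)
      have u1 : ∀ z ∈ m₁ ++ [a₁], z ∈ A := by
        intro z hz
        rcases mem_append.1 hz with e | e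
        · exact hm1 z e
        · simp at e; rw [e]; exact ha₁
      have u2 : ∀ z ∈ m₂ ++ [a₂], z ∈ A := by
        intro z hz
        rcases mem_append.1 hz with e | e
        · exact hm2 z e
        · simp at e; rw [e]; exact ha₂
      refine m.nk3 (hK3.lift2 t1 t2 (fun z hz => hAS' z (u1 z hz)) (fun z hz => hAS' z (u2 z hz))
        ?_ h.ssub_right.1 (fun z hz => h.mem_left (u1 z hz)) (fun z hz => h.mem_left (u2 z hz)))
      intro z hz hz'
      rcases mem_append.1 hz with e | e <;> rcases mem_append.1 hz' with e' | e'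
      · exact hdm z e e'
      · simp at e'; rw [e'] at e; exact s1 e
      · simp at e; rw [e] at e'; exact s2 e'
      · simp at e e'; exact haa (e.symm.trans e')

theorem Cut.path_right [Finite V] {c : V} {A B : Set V} (h : Cut E S c A B) {a : V}
    (ha : a ∈ A) (hn : Nst E B c a) : ∃ l, Pth (fun p q => E q p) c l a ∧ ∀ z ∈ l, z ∈ B := by
  obtain ⟨b, hb⟩ := h.hB
  have h1 := hn b (fun e => h.hAB a ha (e ▸ hb)) (fun e => h.hcB (e ▸ hb))
  obtain ⟨l, hl⟩ := exists_pth' h1.swap (fun e => h.hcA (e ▸ ha))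
  refine ⟨l, hl.mono (fun p q h => h.1.1), ?_⟩
  intro z hz
  have h2 := hl.forall_int_tail (P := fun z => z ∈ B ∨ z = c) (fun p q h => h.1.2.2) z hz
  rcases h2 with e | e
  · exact e
  · exact absurd (e ▸ hz) hl.not_mem_left

theorem Cut.fan_right [Finite V] {c : V} {A B : Set V} (h : Cut E S c A B) {a₁ a₂ : V}
    (h1 : a₁ ∈ A) (h2 : a₂ ∈ A) (n1 : Nst E B c a₁) (n2 : Nst E B c a₂) (hne : a₁ ≠ a₂) :
    ∃ l₁ l₂, Pth (fun p q => E q p) c l₁ a₁ ∧ Pth (fun p q => E q p) c l₂ a₂ ∧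
      (∀ z ∈ l₁, z ∈ B) ∧ (∀ z ∈ l₂, z ∈ B) ∧ ∀ z ∈ l₁, z ∉ l₂ := by
  have hc1 : c ≠ a₁ := fun e => h.hcA (e ▸ h1)
  have hc2 : c ≠ a₂ := fun e => h.hcA (e ▸ h2)
  have key : ∀ a z, (a = a₁ ∨ a = a₂) → Nst E B c a → z ≠ a → z ≠ c →
      ReflTransGen (fun p q => (E q p ∧ (q ∈ B ∨ q = a₁ ∨ q = a₂) ∧ (p ∈ B ∨ p = c)) ∧
        p ≠ z ∧ q ≠ z) c a := by
    intro a z ha hn hza hzc
    refine ReflTransGen.mono ?_ _ _ (hn z hza hzc).swap
    rintro p q ⟨⟨x1, x2, x3⟩, x4, x5⟩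
    refine ⟨⟨x1, ?_, x3⟩, x5, x4⟩
    rcases x2 with e | e
    · exact Or.inl e
    · rcases ha with ha | ha
      · exact Or.inr (Or.inl (e.trans ha))
      · exact Or.inr (Or.inr (e.trans ha))
  obtain ⟨l₁, l₂, p1, p2, _, _, hd, _⟩ := fan
    (r := fun p q => E q p ∧ (q ∈ B ∨ q = a₁ ∨ q = a₂) ∧ (p ∈ B ∨ p = c)) (v := c) (x := a₁)
    (a := a₂) hc1 (fun z hz hz' => key a₁ z (Or.inl rfl) n1 hz' hz)
    (key a₂ a₁ (Or.inr rfl) n2 hne hc1.symm) hc2.symm
  refine ⟨l₁, l₂, p1.mono (fun _ _ h => h.1), p2.mono (fun _ _ h => h.1), ?_, ?_, hd⟩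
  · intro z hz
    rcases p1.forall_int_tail (P := fun z => z ∈ B ∨ z = c) (fun p q h => h.2.2) z hz with e | e
    · exact e
    · exact absurd (e ▸ hz) p1.not_mem_left
  · intro z hz
    rcases p2.forall_int_tail (P := fun z => z ∈ B ∨ z = c) (fun p q h => h.2.2) z hz with e | e
    · exact e
    · exact absurd (e ▸ hz) p2.not_mem_left

theorem Cut.lift_left [Finite V] {c : V} {A B : Set V} (m : MinC E S) (h : Cut E S c A B)
    (hK : HasK3 (fun p q => (E p q ∧ (p ∈ A ∨ p = c) ∧ (q ∈ A ∨ q = c)) ∨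
      ((p ∈ A ∧ Nst E B c p) ∧ q = c)) {s | s ∈ A ∨ s = c}) : False := by
  classical
  have hBS' : ∀ z, z ∈ B → z ∉ {s | s ∈ A ∨ s = c} := by
    rintro z hz (e | e)
    · exact h.hAB z e hz
    · exact h.hcB (e ▸ hz)
  have hnr : ¬ HasK3 (fun p q => E q p) S := fun e => m.nk3 e.rev
  have one : ∀ a, (E a c ∨ (a ∈ A ∧ Nst E B c a)) →
      HasK3 (fun p q => E q p ∨ (p = c ∧ q = a)) {s | s ∈ A ∨ s = c} → False := by
    intro a ha hK
    rcases ha with ha | ⟨ha, hn⟩
    · refine hnr (hK.mono ?_ h.ssub_left.1)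
      rintro p q _ _ _ (e | e)
      · exact e
      · rw [e.1, e.2]; exact ha
    · obtain ⟨l, hl, hlB⟩ := h.path_right ha hn
      exact hnr (hK.lift1 hl (fun z hz => hBS' z (hlB z hz)) h.ssub_left.1
        (fun z hz => h.mem_right (hlB z hz)))
  obtain ⟨a₁, a₂, hK2⟩ := hK.rev.out_two c
  have hK3 : HasK3 (fun p q => E q p ∨ (p = c ∧ q = a₁) ∨ (p = c ∧ q = a₂))
      {s | s ∈ A ∨ s = c} := by
    refine hK2.mono ?_ (subset_refl _)
    rintro p q _ _ _ ⟨h1, h2⟩
    rcases h1 with h1 | h1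
    · exact Or.inl h1.1
    · rcases h2 h1.2 with e | e
      · exact Or.inr (Or.inl ⟨h1.2, e⟩)
      · exact Or.inr (Or.inr ⟨h1.2, e⟩)
  -- arcs that are neither real nor virtual do not occur
  by_cases c1 : E a₁ c ∨ (a₁ ∈ A ∧ Nst E B c a₁)
  · by_cases c2 : E a₂ c ∨ (a₂ ∈ A ∧ Nst E B c a₂)
    · by_cases r1 : E a₁ c
      · refine one a₂ c2 (hK3.mono ?_ (subset_refl _))
        rintro p q _ _ _ (e | e | e)
        · exact Or.inl e
        · rw [e.1, e.2]; exact Or.inl r1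
        · exact Or.inr e
      by_cases r2 : E a₂ c
      · refine one a₁ c1 (hK3.mono ?_ (subset_refl _))
        rintro p q _ _ _ (e | e | e)
        · exact Or.inl e
        · exact Or.inr e
        · rw [e.1, e.2]; exact Or.inl r2
      by_cases haa : a₁ = a₂
      · refine one a₁ c1 (hK3.mono ?_ (subset_refl _))
        rintro p q _ _ _ (e | e | e)
        · exact Or.inl e
        · exact Or.inr e
        · exact Or.inr ⟨e.1, e.2.trans haa.symm⟩
      have d1 := c1.resolve_left r1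
      have d2 := c2.resolve_left r2
      obtain ⟨l₁, l₂, p1, p2, u1, u2, hd⟩ := h.fan_right d1.1 d2.1 d1.2 d2.2 haa
      exact hnr (hK3.lift2 p1 p2 (fun z hz => hBS' z (u1 z hz)) (fun z hz => hBS' z (u2 z hz))
        hd h.ssub_left.1 (fun z hz => h.mem_right (u1 z hz)) (fun z hz => h.mem_right (u2 z hz)))
    · refine one a₁ c1 (hK2.mono ?_ (subset_refl _))
      rintro p q _ _ _ ⟨h1, h2⟩
      rcases h1 with h1 | h1
      · exact Or.inl h1.1
      · rcases h2 h1.2 with e | e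
        · exact Or.inr ⟨h1.2, e⟩
        · exact absurd (Or.inr (e ▸ h1.1)) c2
  · by_cases c2 : E a₂ c ∨ (a₂ ∈ A ∧ Nst E B c a₂)
    · refine one a₂ c2 (hK2.mono ?_ (subset_refl _))
      rintro p q _ _ _ ⟨h1, h2⟩
      rcases h1 with h1 | h1
      · exact Or.inl h1.1
      · rcases h2 h1.2 with e | e
        · exact absurd (Or.inr (e ▸ h1.1)) c1
        · exact Or.inr ⟨h1.2, e⟩
    · refine hnr (hK2.mono ?_ h.ssub_left.1)
      rintro p q _ _ _ ⟨h1, h2⟩
      rcases h1 with h1 | h1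
      · exact h1.1
      · rcases h2 h1.2 with e | e
        · exact absurd (Or.inr (e ▸ h1.1)) c1
        · exact absurd (Or.inr (e ▸ h1.1)) c2

theorem Cut.false [Finite V] {c : V} {A B : Set V} (m : MinC E S) (h : Cut E S c A B)
    (hmin : ∀ c' A' B', Cut E S c' A' B' → A.ncard ≤ A'.ncard) : False := by
  classical
  -- colouring of the side `A` with the arcs from `N*` to `c`
  set F : V → V → Prop := fun p q => (E p q ∧ (p ∈ A ∨ p = c) ∧ (q ∈ A ∨ q = c)) ∨
      ((p ∈ A ∧ Nst E B c p) ∧ q = c) with hF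
  have hFcol : Col F 3 := by
    refine m.ih F {s | s ∈ A ∨ s = c} (Set.ncard_lt_ncard h.ssub_left (Set.toFinite _)) ?_ ?_
      (fun hK => h.lift_left m hK)
    · rintro p q (e | e)
      · exact ⟨e.2.1, e.2.2⟩
      · exact ⟨Or.inl e.1.1, Or.inr e.2⟩
    · rintro p (e | e)
      · exact m.loop p e.1
      · exact h.hcA (e.2 ▸ e.1.1)
  obtain ⟨f, hf⟩ := hFcol
  set gate : V → Prop := fun a => TransGen
    (fun p q => (E p q ∧ (p ∈ A ∨ p = c) ∧ (q ∈ A ∨ q = c)) ∧ f p = f q) c a with hgate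
  have hle : (fun p q => (E p q ∧ (p ∈ A ∨ p = c) ∧ (q ∈ A ∨ q = c)) ∧ f p = f q) ≤
      (fun p q => F p q ∧ f p = f q) := fun p q h => ⟨Or.inl h.1, h.2⟩
  set D : V → V → Prop := fun p q => (E p q ∧ (p ∈ B ∨ p = c) ∧ (q ∈ B ∨ q = c)) ∨
      (p = c ∧ q ∈ B ∧ ∃ a ∈ A, gate a ∧ E a q) with hD
  have hDcol : Col D 3 := by
    refine m.ih D {s | s ∈ B ∨ s = c} (Set.ncard_lt_ncard h.ssub_right (Set.toFinite _)) ?_ ?_ ?_
    · rintro p q (e | e)
      · exact ⟨e.2.1, e.2.2⟩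
      · exact ⟨Or.inr e.1, Or.inl e.2.1⟩
    · rintro p (e | e)
      · exact m.loop p e.1
      · have := e.2.1
        rw [e.1] at this
        exact h.hcB this
    · intro hK
      obtain ⟨a, ha, hg, hn⟩ := h.lift_right m hmin gate hK
      have h1 : f c = f a := mono_const (fun p q h => h.2) hg
      exact hf c (TransGen.tail (TransGen.mono hle c a hg) ⟨Or.inr ⟨⟨ha, hn⟩, rfl⟩, h1.symm⟩)
  obtain ⟨g, hgc, hg⟩ := hDcol.exists_eq c (f c)
  refine m.ncol (glue h.hcA h.hcB h.hAB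
    (fun p q hpq => ⟨(h.part p).1 (m.supp p q hpq).1, (h.part q).1 (m.supp p q hpq).2⟩)
    h.hBA gate f g hgc.symm ?_ hg (fun a _ hna _ => hna))
  intro u hu
  exact hf u (TransGen.mono hle u u hu)

/-- A counterexample with the smallest number of vertices is 2-strong. -/
theorem MinC.two_strong [Finite V] (m : MinC E S) {p q z : V} (hp : p ∈ S) (hq : q ∈ S)
    (hpz : p ≠ z) (hqz : q ≠ z) : ReflTransGen (fun a b => E a b ∧ a ≠ z ∧ b ≠ z) p q := by
  classical
  by_cases hz : z ∈ S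
  swap
  · refine ReflTransGen.mono ?_ _ _ (m.strong hp hq)
    intro a b hab
    obtain ⟨ha, hb⟩ := m.supp a b hab
    exact ⟨hab, fun h => hz (h ▸ ha), fun h => hz (h ▸ hb)⟩
  by_contra hcon
  set R : V → V → Prop := fun a b => E a b ∧ a ≠ z ∧ b ≠ z with hR
  have h0 : Cut E S z {s | s ∈ S ∧ s ≠ z ∧ ¬ ReflTransGen R p s}
      {s | s ∈ S ∧ s ≠ z ∧ ReflTransGen R p s} := by
    constructor
    · exact hz
    · exact fun e => e.2.1 rfl
    · exact fun e => e.2.1 rfl
    · exact fun s hs hs' => hs.2.2 hs'.2.2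
    · exact ⟨q, hq, hqz, hcon⟩
    · exact ⟨p, hp, hpz, ReflTransGen.refl⟩
    · intro s
      constructor
      · intro hs
        by_cases h1 : s = z
        · exact Or.inr (Or.inr h1)
        · by_cases h2 : ReflTransGen R p s
          · exact Or.inr (Or.inl ⟨hs, h1, h2⟩)
          · exact Or.inl ⟨hs, h1, h2⟩
      · rintro (hs | hs | hs)
        · exact hs.1
        · exact hs.1
        · rw [hs]; exact hz
    · intro a b ha hab hb
      exact hb.2.2 (ha.2.2.tail ⟨hab, ha.2.1, hb.2.1⟩)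
  have hfin : ({t : V × Set V × Set V | Cut E S t.1 t.2.1 t.2.2}).Finite := Set.toFinite _
  obtain ⟨⟨c, A, B⟩, h1, h2⟩ := Set.exists_min_image _ (fun t => t.2.1.ncard) hfin
    ⟨(z, _, _), h0⟩
  exact Cut.false (c := c) (A := A) (B := B) m h1 (fun c' A' B' h' => h2 (c', A', B') h')

end Pool.Agent.Mader
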